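import Mathlib

/-!
# A self-simulating reversible one-way system: words, semantics, compilation.
-/

set_option autoImplicit false
set_option linter.unusedSectionVars false

namespace Pool.H12FS

/-- Names of the generators. -/
abbrev Cg := Fin 6
/-- Bit indices. -/
abbrev Bt (d : ℕ) := Fin d → Bool

/-- Names of the local boolean tests. -/
inductive EN (K : Type) (d : ℕ) : Type
  | one : EN K d
  | kd (a : K) : EN K d
  | chi : EN K d
  | lb (j : Bt d) : EN K d
  | nb (j : Bt d) : EN K d
  | cd (g : Cg) (j : Bt d) : EN K d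
  deriving DecidableEq, Fintype

/-- Gate types. -/
inductive Gt (K : Type) (d : ℕ) : Type
  | C : Gt K d
  | P : Gt K d
  | M : Gt K d
  | V (E : EN K d) (σ : K) : Gt K d
  | X (τ : Cg × Bool) : Gt K d
  | Y (τ : Cg × Bool) : Gt K d
  deriving DecidableEq, Fintype

/-- Registers of a cell. -/
@[ext] structure Reg (K L : Type) where
  i : K
  m : L
  k : K
  o : K

/-- Instructions: the cell index mod 4, the gate, its sign. -/
abbrev Ins (K : Type) (d : ℕ) := ZMod 4 × Gt K d × Bool

/-- Product of the commutators of a list of pairs (last one leftmost). -/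
def prodC {K : Type} [Group K] : List (K × K) → K
  | [] => 1
  | p :: ps => prodC ps * (p.1 * p.2 * p.1⁻¹ * p.2⁻¹)

/-- Group data: a finite perfect group with a two-valued function flipped by an involution. -/
structure GD (K : Type) [Group K] where
  M0 : ℕ
  M0_pos : 1 ≤ M0
  comms : K → List (K × K)
  comms_len : ∀ σ, (comms σ).length ≤ M0
  comms_spec : ∀ σ, prodC (comms σ) = σ
  s0 : K
  s0_mul : s0 * s0 = 1
  chi : K → Bool
  chi_s0 : ∀ k, chi (s0 * k) = !chi k

/-- Boolean expressions. -/
inductive BE (K : Type) (d : ℕ) : Type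
  | at0 (E : EN K d) : BE K d
  | nx (F : BE K d) : BE K d
  | and (F G : BE K d) : BE K d
  | not (F : BE K d) : BE K d

section syn
variable {K : Type} {d : ℕ}

def flipI (I : Ins K d) : Ins K d := (I.1, I.2.1, !I.2.2)

def invL (l : List (Ins K d)) : List (Ins K d) := (l.map flipI).reverse

def commL (A B : List (Ins K d)) : List (Ins K d) := invL B ++ (invL A ++ (B ++ A))

@[simp] lemma length_invL (l : List (Ins K d)) : (invL l).length = l.length := by
  simp [invL]

@[simp] lemma length_commL (A B : List (Ins K d)) :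
    (commL A B).length = 2 * A.length + 2 * B.length := by
  simp [commL]; ring

variable [Group K] (D : GD K)

/-- Compilation of `o ↦ σ^{F} o` at the cells `≡ e`. -/
def comp : BE K d → ZMod 4 → K → List (Ins K d)
  | .at0 E, e, σ => [(e, Gt.V E σ, true)]
  | .nx F, e, σ =>
      commL [(e, Gt.P, true)] (commL [(e, Gt.C, true)] (comp F (e + 1) σ))
  | .and F G, e, σ =>
      (D.comms σ).flatMap (fun p => commL (comp F e p.1) (comp G e p.2))
  | .not F, e, σ => comp F e σ⁻¹ ++ [(e, Gt.V EN.one σ, true)]

/-- conditional multiplication of `k` at cells `≡ e`, condition `nx G`. -/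
def mkL (G : BE K d) (e : ZMod 4) (σ : K) : List (Ins K d) :=
  commL [(e, Gt.M, true)] (commL [(e, Gt.C, true)] (comp D G (e + 1) σ))

/-- conditional involution of `m` at cells `≡ e`, condition `nx G`. -/
def xmL (G : BE K d) (e : ZMod 4) (τ : Cg × Bool) : List (Ins K d) :=
  commL [(e, Gt.X τ, true)] (commL [(e, Gt.C, true)] (comp D G (e + 1) D.s0))

/-- cost of an expression -/
def cost : BE K d → ℕ
  | .at0 _ => 1
  | .nx F => 6 + 4 * cost F
  | .and F G => D.M0 * (2 * cost F + 2 * cost G)
  | .not F => cost F + 1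

lemma length_comp (F : BE K d) : ∀ (e : ZMod 4) (σ : K), (comp D F e σ).length ≤ cost D F := by
  induction F with
  | at0 E => intro e σ; simp [comp, cost]
  | nx F ih =>
      intro e σ
      simp only [comp, cost, length_commL, List.length_singleton]
      have := ih (e+1) σ
      omega
  | and F G ihF ihG =>
      intro e σ
      simp only [comp, cost]
      have key : ∀ ps : List (K × K),
          (ps.flatMap (fun p => commL (comp D F e p.1) (comp D G e p.2))).length
            ≤ ps.length * (2 * cost D F + 2 * cost D G) := by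
        intro ps
        induction ps with
        | nil => simp
        | cons p ps ih =>
            simp only [List.flatMap_cons, List.length_append, length_commL, List.length_cons]
            have h1 := ihF e p.1
            have h2 := ihG e p.2
            calc _ ≤ (2 * cost D F + 2 * cost D G) + ps.length * (2 * cost D F + 2 * cost D G) := by
                  gcongr
              _ = _ := by ring
      exact (key _).trans (Nat.mul_le_mul_right _ (D.comms_len σ))
  | not F ih =>
      intro e σ
      simp only [comp, cost, List.length_append, List.length_singleton]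
      have := ih e σ⁻¹
      omega

lemma length_mkL (G : BE K d) (e : ZMod 4) (σ : K) :
    (mkL D G e σ).length ≤ 6 + 4 * cost D G := by
  have := length_comp D G (e+1) σ
  simp only [mkL, length_commL, List.length_singleton]; omega

lemma length_xmL (G : BE K d) (e : ZMod 4) (τ : Cg × Bool) :
    (xmL D G e τ).length ≤ 6 + 4 * cost D G := by
  have := length_comp D G (e+1) D.s0
  simp only [xmL, length_commL, List.length_singleton]; omega

end syn

/-- The semantic data. -/
structure Sys (K L : Type) (d : ℕ) where
  chi : K → Bool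
  codeL : L → Bt d → Bool
  codeG : Option (Gt K d × Bool) → Bt d → Bool
  nextL : L → L
  lop : Cg → L → Option (Gt K d × Bool)
  tau : Cg × Bool → L → L
  tau_tau : ∀ τ m, tau τ (tau τ m) = m

abbrev Wd (K L : Type) := ℕ → Option (Reg K L)

section sem
variable {K L : Type} {d : ℕ} [Group K] [DecidableEq K] (D : GD K) (S : Sys K L d)

def sg (b : Bool) (x : K) : K := if b then x else x⁻¹

@[simp] lemma sg_true (x : K) : sg true x = x := rfl
@[simp] lemma sg_false (x : K) : sg false x = x⁻¹ := rfl
lemma sg_not (b : Bool) (x : K) : sg (!b) x = (sg b x)⁻¹ := by cases b <;> simp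

def evE : EN K d → L → K → Bool
  | .one, _, _ => true
  | .kd a, _, k => decide (k = a)
  | .chi, _, k => S.chi k
  | .lb j, m, _ => S.codeL m j
  | .nb j, m, _ => S.codeL (S.nextL m) j
  | .cd g j, m, _ => S.codeG (S.lop g m) j

/-- Action of a signed gate on a register, given the output of the right neighbour. -/
def gate (q : Gt K d × Bool) (r : Reg K L) (out : K) : Reg K L :=
  match q.1 with
  | .C => {r with i := sg q.2 out * r.i}
  | .P => {r with o := sg q.2 r.i * r.o}
  | .M => {r with k := sg q.2 r.i * r.k}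
  | .V E σ => {r with o := (if evE S E r.m r.k then sg q.2 σ else 1) * r.o}
  | .X τ => {r with m := if S.chi r.i then S.tau τ r.m else r.m}
  | .Y τ => {r with m := S.tau τ r.m}

def outW : Option (Reg K L) → K
  | none => 1
  | some r => r.o

lemma gate_flip (q : Gt K d × Bool) (r : Reg K L) (out : K) :
    gate S (q.1, !q.2) (gate S q r out) out = r := by
  obtain ⟨g, b⟩ := q
  cases g with
  | C => simp [gate, sg_not]
  | P => simp [gate, sg_not]
  | M => simp [gate, sg_not]
  | V E σ => 
    simp only [gate]
    by_cases h : evE S E r.m r.k = true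
    · simp [h, sg_not]
    · simp [h]
  | X τ => 
    simp only [gate]
    by_cases h : S.chi r.i = true
    · simp [h, S.tau_tau]
    · simp [h]
  | Y τ => simp [gate, S.tau_tau]

def stepF (I : Ins K d) (u : Wd K L) : Wd K L := fun n =>
  if (n : ZMod 4) = I.1 then (u n).map (fun r => gate S I.2 r (outW (u (n+1)))) else u n

lemma zmod4_succ_ne (n : ℕ) (e : ZMod 4) (h : (n : ZMod 4) = e) : ((n + 1 : ℕ) : ZMod 4) ≠ e := by
  subst h
  push_cast
  intro h
  have : (1 : ZMod 4) = 0 := by simpa using h
  exact absurd this (by decide)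

lemma stepF_flip (I : Ins K d) (u : Wd K L) : stepF S (flipI I) (stepF S I u) = u := by
  funext n
  obtain ⟨e, q⟩ := I
  by_cases h : (n : ZMod 4) = e
  · have h' := zmod4_succ_ne n e h
    simp only [stepF, flipI, h, if_true, if_neg h']
    cases hu : u n with
    | none => simp
    | some r => simp [gate_flip]
  · simp [stepF, flipI, h]

lemma flipI_flipI (I : Ins K d) : flipI (flipI I) = I := by
  obtain ⟨e, g, b⟩ := I; simp [flipI]

/-- The permutation of `W` given by an instruction. -/
def stepE (I : Ins K d) : Equiv.Perm (Wd K L) where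
  toFun := stepF S I
  invFun := stepF S (flipI I)
  left_inv := fun u => stepF_flip S I u
  right_inv := fun u => by
    have := stepF_flip S (flipI I) u
    rwa [flipI_flipI] at this

lemma stepE_apply (I : Ins K d) (u : Wd K L) : stepE S I u = stepF S I u := rfl

lemma stepE_flip (I : Ins K d) : stepE S (flipI I) = (stepE S I)⁻¹ := by
  ext u : 1
  rfl

/-- A list of instructions, the head being executed first. -/
def runE : List (Ins K d) → Equiv.Perm (Wd K L)
  | [] => 1
  | I :: l => runE l * stepE S I

lemma runE_append (l l' : List (Ins K d)) : runE S (l ++ l') = runE S l' * runE S l := by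
  induction l with
  | nil => simp [runE]
  | cons I l ih => simp [runE, ih, mul_assoc]

lemma runE_invL (l : List (Ins K d)) : runE S (invL l) = (runE S l)⁻¹ := by
  induction l with
  | nil => simp [runE, invL]
  | cons I l ih => 
    have : invL (I :: l) = invL l ++ [flipI I] := by simp [invL]
    rw [this, runE_append, ih]
    simp [runE, stepE_flip]

lemma runE_commL (A B : List (Ins K d)) :
    runE S (commL A B) = runE S A * runE S B * (runE S A)⁻¹ * (runE S B)⁻¹ := by
  simp only [commL, runE_append, runE_invL, mul_assoc]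

@[simp] lemma runE_singleton (I : Ins K d) : runE S [I] = stepE S I := by simp [runE]

/-- evaluation of boolean expressions -/
def evB : BE K d → Wd K L → ℕ → Bool
  | .at0 E, u, n => match u n with
    | some r => evE S E r.m r.k
    | none => false
  | .nx F, u, n => (u (n+1)).isSome && evB F u (n+1)
  | .and F G, u, n => evB F u n && evB G u n
  | .not F, u, n => !(evB F u n)

/-- same `m,k` registers and presence everywhere -/
def SE (u v : Wd K L) : Prop := ∀ i, (u i).map (fun r => (r.m, r.k)) = (v i).map (fun r => (r.m, r.k))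

lemma SE.refl (u : Wd K L) : SE u u := fun _ => rfl
lemma SE.symm {u v : Wd K L} (h : SE u v) : SE v u := fun i => (h i).symm
lemma SE.trans {u v w : Wd K L} (h : SE u v) (h' : SE v w) : SE u w := fun i => (h i).trans (h' i)

lemma isSome_of_map_eq {u v : Option (Reg K L)}
    (h : u.map (fun r => (r.m, r.k)) = v.map (fun r => (r.m, r.k))) : u.isSome = v.isSome := by
  cases u <;> cases v <;> simp_all

lemma evB_congr (F : BE K d) {u v : Wd K L} (h : SE u v) : ∀ n, evB S F u n = evB S F v n := by
  induction F with
  | at0 E => 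
    intro n
    have := h n
    simp only [evB]
    cases hu : u n with
    | none => cases hv : v n with
      | none => rfl
      | some r => simp [hu, hv] at this
    | some r => cases hv : v n with
      | none => simp [hu, hv] at this
      | some r' => 
        simp only [hu, hv, Option.map_some, Option.some.injEq, Prod.mk.injEq] at this
        simp [this.1, this.2]
  | nx F ih => intro n; simp only [evB, ih, isSome_of_map_eq (h (n+1))]
  | and F G ihF ihG => intro n; simp only [evB, ihF, ihG]
  | not F ih => intro n; simp only [evB, ih]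

/-- conditional left multiplication of `o`. -/
def TO (e : ZMod 4) (σ : K) (F : Wd K L → ℕ → Bool) (u : Wd K L) : Wd K L := fun n =>
  if (n : ZMod 4) = e then (u n).map (fun r => {r with o := (if F u n then σ else 1) * r.o}) else u n

/-- conditional left multiplication of `i`. -/
def TI (e : ZMod 4) (σ : K) (F : Wd K L → ℕ → Bool) (u : Wd K L) : Wd K L := fun n =>
  if (n : ZMod 4) = e then (u n).map (fun r => {r with i := (if F u n then σ else 1) * r.i}) else u n

lemma SE_of_mod {u v : Wd K L} (φ : ℕ → Reg K L → Reg K L) 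
    (hφ : ∀ n r, (φ n r).m = r.m ∧ (φ n r).k = r.k) (e : ZMod 4)
    (h : ∀ n, v n = if (n : ZMod 4) = e then (u n).map (φ n) else u n) : SE u v := by
  intro n
  rw [h n]
  split_ifs with h1
  · cases hu : u n with
    | none => rfl
    | some r => simp [hφ n r]
  · rfl

lemma SE_TO (e : ZMod 4) (σ : K) (F : Wd K L → ℕ → Bool) (u : Wd K L) : SE u (TO e σ F u) :=
  SE_of_mod (fun n r => {r with o := (if F u n then σ else 1) * r.o}) (fun _ _ => ⟨rfl, rfl⟩) e
    (fun _ => rfl)

lemma SE_TI (e : ZMod 4) (σ : K) (F : Wd K L → ℕ → Bool) (u : Wd K L) : SE u (TI e σ F u) :=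
  SE_of_mod (fun n r => {r with i := (if F u n then σ else 1) * r.i}) (fun _ _ => ⟨rfl, rfl⟩) e
    (fun _ => rfl)

lemma SE_stepC (e : ZMod 4) (b : Bool) (u : Wd K L) : SE u (stepF S (e, Gt.C, b) u) :=
  SE_of_mod (fun n r => gate S (Gt.C, b) r (outW (u (n+1)))) (fun _ _ => ⟨rfl, rfl⟩) e
    (fun _ => rfl)

lemma SE_stepP (e : ZMod 4) (b : Bool) (u : Wd K L) : SE u (stepF S (e, Gt.P, b) u) :=
  SE_of_mod (fun n r => gate S (Gt.P, b) r (outW (u (n+1)))) (fun _ _ => ⟨rfl, rfl⟩) e
    (fun _ => rfl)

/-- Invariance of a predicate under changes of `i,o`. -/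
def Inv (F : Wd K L → ℕ → Bool) : Prop := ∀ u v, SE u v → ∀ n, F u n = F v n

lemma evB_Inv (F : BE K d) : Inv (evB S F : Wd K L → ℕ → Bool) := fun _ _ h n => evB_congr S F h n

lemma TO_TO (e : ZMod 4) (σ σ' : K) (F : Wd K L → ℕ → Bool) (hF : Inv F) (u : Wd K L) :
    TO e σ' F (TO e σ F u) = TO e (σ' * σ) F u := by
  funext n
  have h := hF _ _ (SE_TO e σ F u) n
  by_cases hn : (n : ZMod 4) = e
  · simp only [TO, hn, if_true] at h ⊢
    rw [← h]
    cases u n with
    | none => rfl
    | some r => 
      by_cases hf : F u n = true <;> simp [hf, mul_assoc]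
  · simp [TO, hn]

lemma TO_one (e : ZMod 4) (F : Wd K L → ℕ → Bool) (u : Wd K L) : TO e 1 F u = u := by
  funext n
  simp [TO]

lemma TI_TI (e : ZMod 4) (σ σ' : K) (F : Wd K L → ℕ → Bool) (hF : Inv F) (u : Wd K L) :
    TI e σ' F (TI e σ F u) = TI e (σ' * σ) F u := by
  funext n
  have h := hF _ _ (SE_TI e σ F u) n
  by_cases hn : (n : ZMod 4) = e
  · simp only [TI, hn, if_true] at h ⊢
    rw [← h]
    cases u n with
    | none => rfl
    | some r => 
      by_cases hf : F u n = true <;> simp [hf, mul_assoc]
  · simp [TI, hn]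

lemma TI_one (e : ZMod 4) (F : Wd K L → ℕ → Bool) (u : Wd K L) : TI e 1 F u = u := by
  funext n
  simp [TI]

lemma inv_eq_TO {A : Equiv.Perm (Wd K L)} {e : ZMod 4} {σ : K} {F : Wd K L → ℕ → Bool} (hF : Inv F)
    (hA : ∀ u, A u = TO e σ F u) (u : Wd K L) : A⁻¹ u = TO e σ⁻¹ F u := by
  rw [Equiv.Perm.inv_eq_iff_eq, hA, TO_TO _ _ _ _ hF]
  simp [TO_one]

lemma inv_eq_TI {A : Equiv.Perm (Wd K L)} {e : ZMod 4} {σ : K} {F : Wd K L → ℕ → Bool} (hF : Inv F)
    (hA : ∀ u, A u = TI e σ F u) (u : Wd K L) : A⁻¹ u = TI e σ⁻¹ F u := by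
  rw [Equiv.Perm.inv_eq_iff_eq, hA, TI_TI _ _ _ _ hF]
  simp [TI_one]

/-- the `next` operator on predicates -/
def nxF (F : Wd K L → ℕ → Bool) : Wd K L → ℕ → Bool := fun u n => (u (n+1)).isSome && F u (n+1)

lemma nxF_Inv {F : Wd K L → ℕ → Bool} (hF : Inv F) : Inv (nxF F) := fun u v h n => by
  simp only [nxF, hF u v h (n+1), isSome_of_map_eq (h (n+1))]

/-- `[C, TO] = TI`. -/
lemma comm_C (e : ZMod 4) (σ : K) (F : Wd K L → ℕ → Bool) (hF : Inv F) (u : Wd K L) :
    stepF S (e, Gt.C, true) (TO (e+1) σ F (stepF S (e, Gt.C, false) (TO (e+1) σ⁻¹ F u)))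
      = TI e σ (nxF F) u := by
  set u1 := TO (e+1) σ⁻¹ F u with hu1
  set u2 := stepF S (e, Gt.C, false) u1 with hu2
  set u3 := TO (e+1) σ F u2 with hu3
  have s1 : SE u u1 := SE_TO _ _ _ _
  have s2 : SE u u2 := s1.trans (SE_stepC S e false u1)
  funext n
  by_cases hn : (n : ZMod 4) = e
  · have hn1 : ((n+1 : ℕ) : ZMod 4) = e + 1 := by push_cast; rw [hn]
    have hn1' : ((n+1 : ℕ) : ZMod 4) ≠ e := zmod4_succ_ne n e hn
    have hn' : (n : ZMod 4) ≠ e + 1 := by
      intro h; rw [hn] at h
      have : (1 : ZMod 4) = 0 := by simpa using h.symm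
      exact absurd this (by decide)
    have e1 : u1 n = u n := by simp only [hu1, TO, if_neg hn']
    have e1' : u1 (n+1) = (u (n+1)).map (fun r => {r with o := (if F u (n+1) then σ⁻¹ else 1) * r.o}) := by
      simp only [hu1, TO]; rw [if_pos hn1]
    have e2 : u2 n = (u n).map (fun r => {r with i := (outW (u1 (n+1)))⁻¹ * r.i}) := by
      simp only [hu2, stepF, gate, sg_false]; rw [if_pos hn, e1]
    have e2' : u2 (n+1) = u1 (n+1) := by
      simp only [hu2, stepF]; rw [if_neg hn1']
    have e3 : u3 n = u2 n := by
      simp only [hu3, TO, if_neg hn']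
    have e3' : u3 (n+1) = u (n+1) := by
      simp only [hu3, TO]; rw [if_pos hn1, e2', e1', ← hF u u2 s2 (n+1)]
      cases u (n+1) with
      | none => rfl
      | some r => by_cases hf : F u (n+1) = true <;> simp [hf]
    have e4 : stepF S (e, Gt.C, true) u3 n = (u3 n).map (fun r => {r with i := outW (u3 (n+1)) * r.i}) := by
      simp only [stepF, gate, sg_true]; rw [if_pos hn]
    rw [e4, e3', e3, e2, e1']
    have hnx : nxF F u n = ((u (n+1)).isSome && F u (n+1)) := rfl
    simp only [TI, if_pos hn, hnx]
    generalize F u (n+1) = b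
    cases u n with
    | none => rfl
    | some r => 
      cases u (n+1) with
      | none => simp [outW]
      | some r' => 
        cases b <;> simp [outW, mul_assoc]
  · have h1 : stepF S (e, Gt.C, true) u3 n = u3 n := by simp only [stepF]; rw [if_neg hn]
    have h2 : u2 n = u1 n := by simp only [hu2, stepF]; rw [if_neg hn]
    have h3 : TI e σ (nxF F) u n = u n := by simp only [TI]; rw [if_neg hn]
    rw [h1, h3]
    by_cases h : (n : ZMod 4) = e + 1
    · have hh := hF u u2 s2 n
      simp only [hu3, TO, h2, hu1, if_pos h, ← hh]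
      cases u n with
      | none => rfl
      | some r => by_cases hf : F u n = true <;> simp [hf]
    · simp only [hu3, TO, h2, hu1, if_neg h]

/-- `[P, TI] = TO`. -/
lemma comm_P (e : ZMod 4) (σ : K) (F : Wd K L → ℕ → Bool) (hF : Inv F) (u : Wd K L) :
    stepF S (e, Gt.P, true) (TI e σ F (stepF S (e, Gt.P, false) (TI e σ⁻¹ F u)))
      = TO e σ F u := by
  set u1 := TI e σ⁻¹ F u with hu1
  set u2 := stepF S (e, Gt.P, false) u1 with hu2
  have s1 : SE u u1 := SE_TI _ _ _ _
  have s2 : SE u u2 := s1.trans (SE_stepP S e false u1)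
  funext n
  by_cases hn : (n : ZMod 4) = e
  · have hh := hF u u2 s2 n
    have e1 : u1 n = (u n).map (fun r => {r with i := (if F u n then σ⁻¹ else 1) * r.i}) := by
      simp only [hu1, TI, if_pos hn]
    have e2 : u2 n = (u1 n).map (fun r => {r with o := r.i⁻¹ * r.o}) := by
      simp only [hu2, stepF, gate, if_pos hn, sg_false]
    simp only [stepF, TI, TO, if_pos hn, gate, sg_true, ← hh, e2, e1]
    cases u n with
    | none => rfl
    | some r => 
      by_cases hf : F u n = true <;> simp [hf, mul_assoc]
  · simp only [stepF, TI, TO, if_neg hn, hu2, hu1]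

/-- `[TO, TO] = TO` of the conjunction. -/
lemma comm_TO (e : ZMod 4) (a b : K) (F G : Wd K L → ℕ → Bool) (hF : Inv F) (hG : Inv G) (u : Wd K L) :
    TO e a F (TO e b G (TO e a⁻¹ F (TO e b⁻¹ G u))) =
      TO e (a * b * a⁻¹ * b⁻¹) (fun u n => F u n && G u n) u := by
  set u1 := TO e b⁻¹ G u with hu1
  set u2 := TO e a⁻¹ F u1 with hu2
  set u3 := TO e b G u2 with hu3
  have s1 : SE u u1 := SE_TO _ _ _ _
  have s2 : SE u u2 := s1.trans (SE_TO _ _ _ _)
  have s3 : SE u u3 := s2.trans (SE_TO _ _ _ _)
  funext n
  by_cases hn : (n : ZMod 4) = e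
  · have h1 := hF u u1 s1 n
    have h2 := hG u u2 s2 n
    have h3 := hF u u3 s3 n
    simp only [TO, if_pos hn, ← h3]
    simp only [hu3, TO, if_pos hn, ← h2]
    simp only [hu2, TO, if_pos hn, ← h1]
    simp only [hu1, TO, if_pos hn]
    cases u n with
    | none => rfl
    | some r => 
      by_cases hf : F u n = true <;> by_cases hg : G u n = true <;> simp [hf, hg, mul_assoc]
  · simp only [TO, if_neg hn, hu1, hu2, hu3]

lemma comp_correct (F : BE K d) : ∀ (e : ZMod 4) (σ : K) (u : Wd K L),
    runE S (comp D F e σ) u = TO e σ (evB S F) u := by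
  induction F with
  | at0 E => 
    intro e σ u
    funext n
    have hE : ∀ r, u n = some r → evB S (BE.at0 E) u n = evE S E r.m r.k := by
      intro r hr; simp only [evB, hr]
    simp only [comp, runE_singleton, stepE_apply, stepF, TO, gate, sg_true]
    by_cases hn : (n : ZMod 4) = e
    · simp only [if_pos hn]
      cases hu : u n with
      | none => rfl
      | some r => simp only [hE r hu, Option.map_some]
    · simp only [if_neg hn]
  | nx F ih => 
    intro e σ u
    have hTI : ∀ u : Wd K L, runE S (commL [(e, Gt.C, true)] (comp D F (e + 1) σ)) u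
          = TI e σ (nxF (evB S F)) u := by
      intro u
      simp only [runE_commL, runE_singleton, Equiv.Perm.coe_mul, Function.comp_apply]
      rw [inv_eq_TO (evB_Inv S F) (ih (e+1) σ), ← stepE_flip, ih]
      exact comm_C S e σ _ (evB_Inv S F) u
    have hTI' := inv_eq_TI (nxF_Inv (evB_Inv S F)) hTI
    simp only [comp]
    rw [runE_commL]
    simp only [runE_singleton, Equiv.Perm.coe_mul, Function.comp_apply]
    rw [hTI', ← stepE_flip, hTI]
    exact comm_P S e σ _ (nxF_Inv (evB_Inv S F)) u
  | and F G ihF ihG => 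
    intro e σ u
    simp only [comp]
    have key : ∀ (ps : List (K × K)) (u : Wd K L),
        runE S (ps.flatMap (fun p => commL (comp D F e p.1) (comp D G e p.2))) u
          = TO e (prodC ps) (evB S (BE.and F G)) u := by
      intro ps
      induction ps with
      | nil => intro u; simp [runE, prodC, TO_one]
      | cons p ps ih => 
        intro u
        simp only [List.flatMap_cons, runE_append, Equiv.Perm.coe_mul, Function.comp_apply, ih, prodC]
        rw [← TO_TO e _ _ _ (evB_Inv S (BE.and F G))]
        congr 1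
        simp only [runE_commL, Equiv.Perm.coe_mul, Function.comp_apply]
        rw [inv_eq_TO (evB_Inv S G) (ihG e p.2), inv_eq_TO (evB_Inv S F) (ihF e p.1), ihG, ihF]
        exact comm_TO e p.1 p.2 _ _ (evB_Inv S F)  (evB_Inv S G) u
    rw [key, D.comms_spec]
  | not F ih => 
    intro e σ u
    simp only [comp, runE_append, runE_singleton, Equiv.Perm.coe_mul, Function.comp_apply, ih, stepE_apply]
    funext n
    by_cases hn : (n : ZMod 4) = e
    · simp only [stepF, TO, if_pos hn, gate, evB, evE]
      cases u n with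
      | none => rfl
      | some r => by_cases hf : evB S F u n = true <;> simp [hf]
    · simp only [stepF, TO, if_neg hn]

lemma TI_correct (F : BE K d) (e : ZMod 4) (σ : K) (u : Wd K L) :
    runE S (commL [(e, Gt.C, true)] (comp D F (e + 1) σ)) u = TI e σ (evB S (BE.nx F)) u := by
  simp only [runE_commL, runE_singleton, Equiv.Perm.coe_mul, Function.comp_apply]
  rw [inv_eq_TO (evB_Inv S F) (comp_correct D S F (e+1) σ), ← stepE_flip, comp_correct]
  exact comm_C S e σ _ (evB_Inv S F) u

/-- `F` reads no value at offsets `≡ 0` (when evaluated at offset `off`). -/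
def nr : BE K d → ZMod 4 → Prop
  | .at0 _, off => off ≠ 0
  | .nx F, off => nr F (off + 1)
  | .and F G, off => nr F off ∧ nr G off
  | .not F, off => nr F off

/-- same presence everywhere, same `m,k` registers off the cells `≡ e` -/
def SEe (e : ZMod 4) (u v : Wd K L) : Prop := ∀ i, (u i).isSome = (v i).isSome ∧
  ((i : ZMod 4) ≠ e → (u i).map (fun r => (r.m, r.k)) = (v i).map (fun r => (r.m, r.k)))

lemma SEe.trans {e : ZMod 4} {u v w : Wd K L} (h : SEe e u v) (h' : SEe e v w) : SEe e u w :=
  fun i => ⟨(h i).1.trans (h' i).1, fun hi => ((h i).2 hi).trans ((h' i).2 hi)⟩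

lemma SE.toSEe {u v : Wd K L} (h : SE u v) (e : ZMod 4) : SEe e u v :=
  fun i => ⟨isSome_of_map_eq (h i), fun _ => h i⟩

lemma evB_congr' (F : BE K d) (e : ZMod 4) {u v : Wd K L} (h : SEe e u v) :
    ∀ (off : ZMod 4) (n : ℕ), nr F off → (n : ZMod 4) = e + off → evB S F u n = evB S F v n := by
  induction F with
  | at0 E => 
    intro off n hr hn
    have hne : (n : ZMod 4) ≠ e := by
      rw [hn]; intro h; apply hr; simpa using h
    have := (h n).2 hne
    simp only [evB]
    cases hu : u n with
    | none => cases hv : v n with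
      | none => rfl
      | some r => simp [hu, hv] at this
    | some r => cases hv : v n with
      | none => simp [hu, hv] at this
      | some r' => 
        simp only [hu, hv, Option.map_some, Option.some.injEq, Prod.mk.injEq] at this
        simp [this.1, this.2]
  | nx F ih => 
    intro off n hr hn
    simp only [evB, (h (n+1)).1]
    rw [ih (off+1) (n+1) hr (by push_cast; rw [hn]; ring)]
  | and F G ihF ihG => 
    intro off n hr hn
    simp only [evB, ihF off n hr.1 hn, ihG off n hr.2 hn]
  | not F ih => intro off n hr hn; simp only [evB, ih off n hr hn]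

/-- conditional left multiplication of `k` by an element depending on the state. -/
def MKg (e : ZMod 4) (h : Wd K L → ℕ → K) (u : Wd K L) : Wd K L := fun n =>
  if (n : ZMod 4) = e then (u n).map (fun r => {r with k := h u n * r.k}) else u n

def XM (e : ZMod 4) (τ : Cg × Bool) (F : Wd K L → ℕ → Bool) (u : Wd K L) : Wd K L := fun n =>
  if (n : ZMod 4) = e then (u n).map (fun r => {r with m := if F u n then S.tau τ r.m else r.m}) else u n

lemma SEe_of_mod {u v : Wd K L} (φ : ℕ → Reg K L → Reg K L) (e : ZMod 4)
    (h : ∀ n, v n = if (n : ZMod 4) = e then (u n).map (φ n) else u n) : SEe e u v := by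
  intro n
  rw [h n]
  split_ifs with h1
  · refine ⟨?_, fun h => absurd h1 h⟩
    cases hu : u n <;> rfl
  · exact ⟨rfl, fun _ => rfl⟩

lemma SEe_MKg (e : ZMod 4) (h : Wd K L → ℕ → K) (u : Wd K L) : SEe e u (MKg e h u) :=
  SEe_of_mod (fun n r => {r with k := h u n * r.k}) e (fun _ => rfl)

lemma mkL_correct (G : BE K d) (e : ZMod 4) (σ : K) (hr : nr (BE.nx G) 0) (u : Wd K L) :
    runE S (mkL D G e σ) u = MKg e (fun u n => if evB S (BE.nx G) u n then σ else 1) u := by
  simp only [mkL]
  rw [runE_commL]
  simp only [runE_singleton, Equiv.Perm.coe_mul, Function.comp_apply]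
  rw [inv_eq_TI (evB_Inv S (BE.nx G)) (TI_correct D S G e σ), ← stepE_flip, TI_correct]
  set F : Wd K L → ℕ → Bool := evB S (BE.nx G) with hFdef
  set u1 := TI e σ⁻¹ F u with hu1
  set u2 := stepF S (e, Gt.M, false) u1 with hu2
  have s1 : SEe e u u1 := (SE_TI _ _ _ _).toSEe e
  have s2 : SEe e u u2 := s1.trans (SEe_of_mod (fun n r => gate S (Gt.M, false) r (outW (u1 (n+1)))) e
    (fun _ => rfl))
  change stepF S (e, Gt.M, true) (TI e σ F u2) = _
  funext n
  by_cases hn : (n : ZMod 4) = e
  · have hh := evB_congr' S (BE.nx G) e s2 0 n hr (by simpa using hn)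
    rw [← hFdef] at hh
    have e1 : u1 n = (u n).map (fun r => {r with i := (if F u n then σ⁻¹ else 1) * r.i}) := by
      simp only [hu1, TI, if_pos hn]
    have e2 : u2 n = (u1 n).map (fun r => {r with k := r.i⁻¹ * r.k}) := by
      simp only [hu2, stepF, gate, if_pos hn, sg_false]
    simp only [stepF, TI, MKg, if_pos hn, gate, sg_true, ← hh, e2, e1]
    cases u n with
    | none => rfl
    | some r => 
      by_cases hf : F u n = true <;> simp [hf, mul_assoc]
  · simp only [stepF, TI, MKg, if_neg hn, hu2, hu1]

lemma xmL_correct (hχ : S.chi = D.chi) (G : BE K d) (e : ZMod 4) (τ : Cg × Bool) (hr : nr (BE.nx G) 0) (u : Wd K L) :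
    runE S (xmL D G e τ) u = XM S e τ (evB S (BE.nx G)) u := by
  simp only [xmL]
  rw [runE_commL]
  simp only [runE_singleton, Equiv.Perm.coe_mul, Function.comp_apply]
  rw [inv_eq_TI (evB_Inv S (BE.nx G)) (TI_correct D S G e D.s0), ← stepE_flip, TI_correct]
  set F : Wd K L → ℕ → Bool := evB S (BE.nx G) with hFdef
  set u1 := TI e D.s0⁻¹ F u with hu1
  set u2 := stepF S (e, Gt.X τ, false) u1 with hu2
  have s1 : SEe e u u1 := (SE_TI _ _ _ _).toSEe e
  have s2 : SEe e u u2 := s1.trans (SEe_of_mod (fun n r => gate S (Gt.X τ, false) r (outW (u1 (n+1)))) e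
    (fun _ => rfl))
  change stepF S (e, Gt.X τ, true) (TI e D.s0 F u2) = _
  have hinv : D.s0⁻¹ = D.s0 := by
    rw [inv_eq_iff_mul_eq_one]; exact D.s0_mul
  funext n
  by_cases hn : (n : ZMod 4) = e
  · have hh := evB_congr' S (BE.nx G) e s2 0 n hr (by simpa using hn)
    rw [← hFdef] at hh
    have e1 : u1 n = (u n).map (fun r => {r with i := (if F u n then D.s0⁻¹ else 1) * r.i}) := by
      simp only [hu1, TI, if_pos hn]
    have e2 : u2 n = (u1 n).map (fun r => {r with m := if S.chi r.i then S.tau τ r.m else r.m}) := by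
      simp only [hu2, stepF, gate, if_pos hn]
    simp only [stepF, TI, XM, if_pos hn, gate, ← hh, e2, e1]
    cases u n with
    | none => rfl
    | some r => 
      have h1 := D.chi_s0 r.i
      by_cases hf : F u n = true
      · by_cases hc : D.chi r.i = true
        · simp [hf, hinv, hχ, h1, hc, ← mul_assoc, D.s0_mul]
        · simp only [Bool.not_eq_true] at hc
          simp [hf, hinv, hχ, h1, hc, ← mul_assoc, D.s0_mul]
      · by_cases hc : D.chi r.i = true
        · simp [hf, hχ, hc, S.tau_tau]
        · simp only [Bool.not_eq_true] at hc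
          simp [hf, hχ, hc]
  · simp only [stepF, TI, XM, if_neg hn, hu2, hu1]

end sem

end Pool.H12FS
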