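import Pool.Agent.H12.FS.A

/-!
# Simulating words and the simulation `Dec ∘ Prog = s ∘ Dec`.
-/

set_option autoImplicit false
set_option linter.unusedSectionVars false
set_option linter.unusedSimpArgs false

namespace Pool.H12FS

section syn
variable {K : Type} {d : ℕ}

def lit (E : EN K d) (b : Bool) : BE K d := if b then .at0 E else .not (.at0 E)

def bigAnd : (m : ℕ) → ((Fin m → Bool) → BE K d) → BE K d
  | 0, f => f (fun i => i.elim0)
  | m+1, f => .and (bigAnd m (fun j => f (Fin.cons true j))) (bigAnd m (fun j => f (Fin.cons false j)))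

def nx4 (F : BE K d) : BE K d := .nx (.nx (.nx (.nx F)))

def eqv (A B : BE K d) : BE K d := .not (.and (.not (.and A B)) (.not (.and (.not A) (.not B))))

def lopc (codeG : Option (Gt K d × Bool) → Bt d → Bool) (g : Cg) (q : Gt K d × Bool) : BE K d :=
  bigAnd d (fun j => lit (.cd g j) (codeG (some q) j))

lemma nr_bigAnd (m : ℕ) (f : (Fin m → Bool) → BE K d) (off : ZMod 4) (h : ∀ j, nr (f j) off) :
    nr (bigAnd m f) off := by
  induction m with
  | zero => exact h _
  | succ m ih => exact ⟨ih _ (fun j => h _), ih _ (fun j => h _)⟩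

lemma nr_lit (E : EN K d) (b : Bool) (off : ZMod 4) (h : off ≠ 0) : nr (lit E b) off := by
  cases b <;> exact h

lemma nr_lopc (codeG : Option (Gt K d × Bool) → Bt d → Bool) (g : Cg) (q : Gt K d × Bool)
    (off : ZMod 4) (h : off ≠ 0) : nr (lopc codeG g q) off :=
  nr_bigAnd _ _ _ (fun _ => nr_lit _ _ _ h)

variable [Group K] (D : GD K)

/-- condition for the C gate -/
def condC (codeG : Option (Gt K d × Bool) → Bt d → Bool) (g : Cg) (b : Bool) (a : K) : BE K d :=
  .and (lopc codeG g (.C, b)) (.and (.nx (.at0 (.kd a)))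
    (.and (nx4 (.at0 .one)) (bigAnd d (fun j => eqv (.at0 (.nb j)) (nx4 (.at0 (.lb j)))))))

def condP (codeG : Option (Gt K d × Bool) → Bt d → Bool) (g : Cg) (b : Bool) (a : K) : BE K d :=
  .and (.nx (.nx (lopc codeG g (.P, b)))) (.nx (.at0 (.kd a)))

def condM (codeG : Option (Gt K d × Bool) → Bt d → Bool) (g : Cg) (b : Bool) (a : K) : BE K d :=
  .and (.nx (lopc codeG g (.M, b))) (.at0 (.kd a))

def condV (codeG : Option (Gt K d × Bool) → Bt d → Bool) (g : Cg) (b : Bool) (E : EN K d) (σ : K) :
    BE K d :=
  .and (.nx (.nx (lopc codeG g (.V E σ, b)))) (.at0 E)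

def condX (codeG : Option (Gt K d × Bool) → Bt d → Bool) (g : Cg) (b : Bool) (τ : Cg × Bool) :
    BE K d :=
  .and (.nx (lopc codeG g (.X τ, b))) (.at0 .chi)

def condY (codeG : Option (Gt K d × Bool) → Bt d → Bool) (g : Cg) (b : Bool) (τ : Cg × Bool) :
    BE K d :=
  .nx (lopc codeG g (.Y τ, b))

variable [Fintype K]

/-- The word simulating the gate `q` at the blocks whose label satisfies `lop g λ = some q`. -/
noncomputable def mac (codeG : Option (Gt K d × Bool) → Bt d → Bool) (g : Cg) (q : Gt K d × Bool) :
    List (Ins K d) :=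
  match q.1 with
  | .C => (Finset.univ : Finset K).toList.flatMap (fun a => mkL D (condC codeG g q.2 a) 2 (sg q.2 a))
  | .P => (Finset.univ : Finset K).toList.flatMap (fun a => mkL D (condP codeG g q.2 a) 0 (sg q.2 a))
  | .M => (Finset.univ : Finset K).toList.flatMap (fun a => mkL D (condM codeG g q.2 a) 1 (sg q.2 a))
  | .V E σ => mkL D (condV codeG g q.2 E σ) 0 (sg q.2 σ)
  | .X τ => xmL D (condX codeG g q.2 τ) 1 τ
  | .Y τ => xmL D (condY codeG g q.2 τ) 1 τ

end syn

section sem
variable {K L : Type} {d : ℕ} [Group K] [DecidableEq K] (D : GD K) (S : Sys K L d)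

lemma evB_lit (E : EN K d) (b : Bool) (u : Wd K L) (n : ℕ) (r : Reg K L) (h : u n = some r) :
    evB S (lit E b) u n = true ↔ evE S E r.m r.k = b := by
  cases b <;> simp [lit, evB, h]

lemma evB_bigAnd (m : ℕ) (f : (Fin m → Bool) → BE K d) (u : Wd K L) (n : ℕ) :
    evB S (bigAnd m f) u n = true ↔ ∀ j, evB S (f j) u n = true := by
  induction m with
  | zero => 
    simp only [bigAnd]
    constructor
    · intro h j
      rwa [Subsingleton.elim j (fun i => i.elim0)]
    · intro h; exact h _
  | succ m ih => 
    simp only [bigAnd, evB, Bool.and_eq_true, ih]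
    constructor
    · rintro ⟨h1, h2⟩ j
      rw [← Fin.cons_self_tail j]
      cases hj : j 0
      · exact h2 _
      · exact h1 _
    · intro h
      exact ⟨fun j => h _, fun j => h _⟩

lemma evB_lopc (hinj : Function.Injective S.codeG) (g : Cg) (q : Gt K d × Bool) (u : Wd K L) (n : ℕ)
    (r : Reg K L) (h : u n = some r) :
    evB S (lopc S.codeG g q) u n = true ↔ S.lop g r.m = some q := by
  simp only [lopc, evB_bigAnd, evB_lit S _ _ u n r h, evE]
  constructor
  · intro h
    exact hinj (funext h)
  · intro h j; rw [h]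

lemma evB_eqv (A B : BE K d) (u : Wd K L) (n : ℕ) :
    evB S (eqv A B) u n = true ↔ evB S A u n = evB S B u n := by
  simp only [eqv, evB]
  cases evB S A u n <;> cases evB S B u n <;> simp

/-- composition of conditional multiplications over a list of values -/
lemma run_flat (G : K → BE K d) (b : Bool) (e : ZMod 4) (hr : ∀ a, nr (BE.nx (G a)) 0)
    (val : Wd K L → ℕ → Option K) (hval : ∀ a u n, evB S (BE.nx (G a)) u n = true ↔ val u n = some a)
    (as : List K) (hnd : as.Nodup) : ∀ u : Wd K L,
    runE S (as.flatMap (fun a => mkL D (G a) e (sg b a))) u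
      = MKg e (fun u n => match val u n with
          | some a => if a ∈ as then sg b a else 1
          | none => 1) u := by
  induction as with
  | nil => 
    intro u
    funext n
    simp only [List.flatMap_nil, runE, Equiv.Perm.coe_one, id_eq, List.not_mem_nil, if_false, MKg]
    cases u n <;> cases val u n <;> simp
  | cons a as ih => 
    intro u
    obtain ⟨hna, hnd'⟩ := List.nodup_cons.mp hnd
    simp only [List.flatMap_cons, runE_append, Equiv.Perm.coe_mul, Function.comp_apply]
    rw [mkL_correct D S (G a) e (sg b a) (hr a) u, ih hnd']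
    set u1 := MKg e (fun u n => if evB S (BE.nx (G a)) u n then sg b a else 1) u with hu1
    have s1 : SEe e u u1 := SEe_MKg _ _ _
    funext n
    by_cases hn : (n : ZMod 4) = e
    · have hv : val u1 n = val u n := by
        apply Option.ext
        intro a'
        rw [← hval a' u1 n, ← hval a' u n, 
          evB_congr' S (BE.nx (G a')) e s1 0 n (hr a') (by simpa using hn)]
      have e1 : u1 n = (u n).map (fun r => {r with k := (if evB S (BE.nx (G a)) u n then sg b a else 1) * r.k}) := by
        simp only [hu1, MKg, if_pos hn]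
      simp only [MKg, if_pos hn, hv, e1]
      cases hun : u n with
      | none => rfl
      | some r => 
        simp only [Option.map_some]
        by_cases hc : evB S (BE.nx (G a)) u n = true
        · have hva := (hval a u n).mp hc
          simp [hc, hva, hna]
        · have hva : val u n ≠ some a := fun h => hc ((hval a u n).mpr h)
          simp only [hc]
          cases hvv : val u n with
          | none => simp
          | some a' => 
            have : a' ≠ a := fun h => hva (by rw [hvv, h])
            simp [this]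
    · simp only [MKg, if_neg hn, hu1]

/-- Configurations. -/
abbrev Cf (K L : Type) := ℕ → Option (L × Reg K L)

/-- Decoding blocks of four cells. -/
def Dec (u : Wd K L) : Cf K L := fun j =>
  match u (4*j), u (4*j+1), u (4*j+2), u (4*j+3) with
  | some r0, some r1, some r2, some r3 => some (r3.m, ⟨r2.k, r1.m, r1.k, r0.k⟩)
  | _, _, _, _ => none

/-- The registers which are never changed by these words. -/
def Idle [Inhabited L] (u : Wd K L) :
    ℕ → Option (Reg K L) × Option (Reg K L) × Option (Reg K L) × Option (Reg K L) := fun j =>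
  ( (u (4*j)).map (fun r => 
      if (u (4*j+1)).isSome && (u (4*j+2)).isSome && (u (4*j+3)).isSome then {r with k := 1} else r),
    (u (4*j+1)).map (fun r => 
      if (u (4*j+2)).isSome && (u (4*j+3)).isSome then {r with m := default, k := 1} else r),
    (u (4*j+2)).map (fun r => if (u (4*j+3)).isSome then {r with k := 1} else r),
    (u (4*j+3)).map (fun r => {r with m := default}))

section lift
variable [Inhabited L]

def Lift (φ : Wd K L → Wd K L) (Φ : Cf K L → Cf K L) : Prop :=
  (∀ u, Idle (φ u) = Idle u) ∧ (∀ u, Dec (φ u) = Φ (Dec u))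

lemma Lift.one : Lift (⇑(1 : Equiv.Perm (Wd K L))) (⇑(1 : Equiv.Perm (Cf K L))) :=
  ⟨fun _ => rfl, fun _ => rfl⟩

lemma Lift.mul {φ ψ : Equiv.Perm (Wd K L)} {Φ Ψ : Equiv.Perm (Cf K L)} (h : Lift φ Φ) (h' : Lift ψ Ψ) :
    Lift (⇑(φ * ψ)) (⇑(Φ * Ψ)) :=
  ⟨fun u => by simp [h.1, h'.1], fun u => by simp [h.2, h'.2]⟩

lemma Lift.inv {φ : Equiv.Perm (Wd K L)} {Φ : Equiv.Perm (Cf K L)} (h : Lift φ Φ) :
    Lift (⇑(φ⁻¹)) (⇑(Φ⁻¹)) := by
  refine ⟨fun u => ?_, fun u => ?_⟩
  · have := h.1 (φ⁻¹ u); simpa using this.symm
  · have := h.2 (φ⁻¹ u)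
    rw [Equiv.Perm.eq_inv_iff_eq, ← this]
    simp

lemma c0 (j : ℕ) : ((4 * j : ℕ) : ZMod 4) = 0 := by
  push_cast
  have : (4 : ZMod 4) = 0 := by decide
  rw [this, zero_mul]
lemma c1 (j : ℕ) : ((4 * j + 1 : ℕ) : ZMod 4) = 1 := by
  have := c0 j; push_cast at this ⊢; rw [this]; decide
lemma c2 (j : ℕ) : ((4 * j + 2 : ℕ) : ZMod 4) = 2 := by
  have := c0 j; push_cast at this ⊢; rw [this]; decide
lemma c3 (j : ℕ) : ((4 * j + 3 : ℕ) : ZMod 4) = 3 := by
  have := c0 j; push_cast at this ⊢; rw [this]; decide

lemma h01 : ((0 : ZMod 4) = 1) = False := by simp; decide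
lemma h02 : ((0 : ZMod 4) = 2) = False := by simp; decide
lemma h03 : ((0 : ZMod 4) = 3) = False := by simp; decide
lemma h10 : ((1 : ZMod 4) = 0) = False := by simp; decide
lemma h12 : ((1 : ZMod 4) = 2) = False := by simp; decide
lemma h13 : ((1 : ZMod 4) = 3) = False := by simp; decide
lemma h20 : ((2 : ZMod 4) = 0) = False := by simp; decide
lemma h21 : ((2 : ZMod 4) = 1) = False := by simp; decide
lemma h23 : ((2 : ZMod 4) = 3) = False := by simp; decide
lemma h30 : ((3 : ZMod 4) = 0) = False := by simp; decide
lemma h31 : ((3 : ZMod 4) = 1) = False := by simp; decide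
lemma h32 : ((3 : ZMod 4) = 2) = False := by simp; decide

lemma Idle_MKg0 (h : Wd K L → ℕ → K) (u : Wd K L)
    (hh : ∀ n, h u n ≠ 1 → (u (n+1)).isSome ∧ (u (n+2)).isSome ∧ (u (n+3)).isSome) :
    Idle (MKg 0 h u) = Idle u := by
  funext j
  have key := hh (4*j)
  simp only [Idle, MKg, c0, c1, c2, c3, h10, h20, h30, if_true, if_false, Prod.mk.injEq, and_true]
  cases h0 : u (4*j) with
  | none => rfl
  | some r0 =>
    cases h1 : u (4*j+1) with
    | none => 
      have : h u (4*j) = 1 := by by_contra hc; simpa [h1] using (key hc).1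
      simp [this]
    | some r1 =>
      cases h2 : u (4*j+2) with
      | none => 
        have : h u (4*j) = 1 := by by_contra hc; simpa [h2] using (key hc).2.1
        simp [this]
      | some r2 =>
        cases h3 : u (4*j+3) with
        | none => 
          have : h u (4*j) = 1 := by by_contra hc; simpa [h3] using (key hc).2.2
          simp [this]
        | some r3 => simp

lemma Idle_MKg1 (h : Wd K L → ℕ → K) (u : Wd K L)
    (hh : ∀ n, h u n ≠ 1 → (u (n+1)).isSome ∧ (u (n+2)).isSome) :
    Idle (MKg 1 h u) = Idle u := by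
  funext j
  have key := hh (4*j+1)
  simp only [Idle, MKg, c0, c1, c2, c3, h01, h21, h31, if_true, if_false, Prod.mk.injEq, and_true, 
    Option.isSome_map, true_and]
  cases h1 : u (4*j+1) with
  | none => rfl
  | some r1 =>
    cases h2 : u (4*j+2) with
    | none => 
      have : h u (4*j+1) = 1 := by by_contra hc; simpa [h2] using (key hc).1
      simp [this]
    | some r2 =>
      cases h3 : u (4*j+3) with
      | none => 
        have : h u (4*j+1) = 1 := by by_contra hc; simpa [h3] using (key hc).2
        simp [this]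
      | some r3 => simp

lemma Idle_MKg2 (h : Wd K L → ℕ → K) (u : Wd K L)
    (hh : ∀ n, h u n ≠ 1 → (u (n+1)).isSome) :
    Idle (MKg 2 h u) = Idle u := by
  funext j
  have key := hh (4*j+2)
  simp only [Idle, MKg, c0, c1, c2, c3, h02, h12, h32, if_true, if_false, Prod.mk.injEq, and_true, 
    Option.isSome_map, true_and]
  cases h2 : u (4*j+2) with
  | none => rfl
  | some r2 =>
    cases h3 : u (4*j+3) with
    | none => 
      have : h u (4*j+2) = 1 := by by_contra hc; simpa [h3] using (key hc)
      simp [this]
    | some r3 => simp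

lemma Idle_XM (τ : Cg × Bool) (F : Wd K L → ℕ → Bool) (u : Wd K L)
    (hh : ∀ n, F u n = true → (u (n+1)).isSome ∧ (u (n+2)).isSome) :
    Idle (XM S 1 τ F u) = Idle u := by
  funext j
  have key := hh (4*j+1)
  simp only [Idle, XM, c0, c1, c2, c3, h01, h21, h31, if_true, if_false, Prod.mk.injEq, and_true, 
    Option.isSome_map, true_and]
  cases h1 : u (4*j+1) with
  | none => rfl
  | some r1 =>
    cases h2 : u (4*j+2) with
    | none => 
      have : F u (4*j+1) = false := by 
        by_contra hc; simp only [Bool.not_eq_false] at hc; simpa [h2] using (key hc).1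
      simp [this]
    | some r2 =>
      cases h3 : u (4*j+3) with
      | none => 
        have : F u (4*j+1) = false := by 
          by_contra hc; simp only [Bool.not_eq_false] at hc; simpa [h3] using (key hc).2
        simp [this]
      | some r3 => simp

lemma Idle_Y (τ : Cg × Bool) (b : Bool) (u : Wd K L) :
    Idle (stepF S (3, Gt.Y τ, b) u) = Idle u := by
  funext j
  simp only [Idle, stepF, c0, c1, c2, c3, h03, h13, h23, if_true, if_false, Prod.mk.injEq, and_true, 
    Option.isSome_map, true_and, gate]
  cases h3 : u (4*j+3) with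
  | none => rfl
  | some r3 => simp

end lift

lemma Dec_MKg0 (h : Wd K L → ℕ → K) (u : Wd K L) (j : ℕ) :
    Dec (MKg 0 h u) j = (Dec u j).map (fun y => (y.1, {y.2 with o := h u (4*j) * y.2.o})) := by
  simp only [Dec, MKg, c0, c1, c2, c3, h10, h20, h30, if_true, if_false]
  cases h0 : u (4*j) <;> cases h1 : u (4*j+1) <;> cases h2 : u (4*j+2) <;> cases h3 : u (4*j+3) <;> simp

lemma Dec_MKg1 (h : Wd K L → ℕ → K) (u : Wd K L) (j : ℕ) :
    Dec (MKg 1 h u) j = (Dec u j).map (fun y => (y.1, {y.2 with k := h u (4*j+1) * y.2.k})) := by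
  simp only [Dec, MKg, c0, c1, c2, c3, h01, h21, h31, if_true, if_false]
  cases h0 : u (4*j) <;> cases h1 : u (4*j+1) <;> cases h2 : u (4*j+2) <;> cases h3 : u (4*j+3) <;> simp

lemma Dec_MKg2 (h : Wd K L → ℕ → K) (u : Wd K L) (j : ℕ) :
    Dec (MKg 2 h u) j = (Dec u j).map (fun y => (y.1, {y.2 with i := h u (4*j+2) * y.2.i})) := by
  simp only [Dec, MKg, c0, c1, c2, c3, h02, h12, h32, if_true, if_false]
  cases h0 : u (4*j) <;> cases h1 : u (4*j+1) <;> cases h2 : u (4*j+2) <;> cases h3 : u (4*j+3) <;> simp

lemma Dec_XM (τ : Cg × Bool) (F : Wd K L → ℕ → Bool) (u : Wd K L) (j : ℕ) :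
    Dec (XM S 1 τ F u) j = (Dec u j).map 
      (fun y => (y.1, {y.2 with m := if F u (4*j+1) then S.tau τ y.2.m else y.2.m})) := by
  simp only [Dec, XM, c0, c1, c2, c3, h01, h21, h31, if_true, if_false]
  cases h0 : u (4*j) <;> cases h1 : u (4*j+1) <;> cases h2 : u (4*j+2) <;> cases h3 : u (4*j+3) <;> simp

lemma Dec_Y (τ : Cg × Bool) (b : Bool) (u : Wd K L) (j : ℕ) :
    Dec (stepF S (3, Gt.Y τ, b) u) j = (Dec u j).map (fun y => (S.tau τ y.1, y.2)) := by
  simp only [Dec, stepF, c0, c1, c2, c3, h03, h13, h23, if_true, if_false, gate]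
  cases h0 : u (4*j) <;> cases h1 : u (4*j+1) <;> cases h2 : u (4*j+2) <;> cases h3 : u (4*j+3) <;> simp

section conf
variable [DecidableEq L]

/-- output read by a cell labelled `lam` from its right neighbour. -/
def outC (lam : L) : Option (L × Reg K L) → K
  | none => 1
  | some y => if y.1 = S.nextL lam then y.2.o else 1

/-- Action of the gate `q` at the cells whose label satisfies `p`. -/
def actF (p : L → Prop) [DecidablePred p] (q : Gt K d × Bool) (x : Cf K L) : Cf K L := fun n =>
  (x n).map (fun y => (y.1, if p y.1 then gate S q y.2 (outC S y.1 (x (n+1))) else y.2))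

lemma actF_flip (p : L → Prop) [DecidablePred p] (q : Gt K d × Bool) (x : Cf K L) :
    actF S p (q.1, !q.2) (actF S p q x) = x := by
  funext n
  simp only [actF]
  cases hx : x n with
  | none => rfl
  | some y => 
    simp only [Option.map_some]
    by_cases hp : p y.1
    · simp only [hp, if_true]
      congr 1
      ext1
      · rfl
      · simp only
        rcases hq : q with ⟨g, b⟩
        cases g with
        | C => 
          have ho : outC S y.1 ((x (n+1)).map (fun y => (y.1, if p y.1 then gate S (Gt.C, b) y.2 (outC S y.1 (x (n+1+1))) else y.2)))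
              = outC S y.1 (x (n+1)) := by
            cases x (n+1) with
            | none => rfl
            | some z => 
              simp only [Option.map_some, outC, gate]
              by_cases hz : p z.1 <;> simp [hz]
          rw [ho]
          exact gate_flip S (Gt.C, b) y.2 _
        | P => exact gate_flip S (Gt.P, b) y.2 _
        | M => exact gate_flip S (Gt.M, b) y.2 _
        | V E σ => exact gate_flip S (Gt.V E σ, b) y.2 (outC S y.1 (x (n+1)))
        | X τ => exact gate_flip S (Gt.X τ, b) y.2 (outC S y.1 (x (n+1)))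
        | Y τ => exact gate_flip S (Gt.Y τ, b) y.2 (outC S y.1 (x (n+1)))
    · simp [hp]

def actE (p : L → Prop) [DecidablePred p] (q : Gt K d × Bool) : Equiv.Perm (Cf K L) where
  toFun := actF S p q
  invFun := actF S p (q.1, !q.2)
  left_inv := fun x => actF_flip S p q x
  right_inv := fun x => by
    have := actF_flip S p (q.1, !q.2) x
    simpa using this

lemma actE_apply (p : L → Prop) [DecidablePred p] (q : Gt K d × Bool) (x : Cf K L) :
    actE S p q x = actF S p q x := rfl

/-- label update -/
def labF (τ : Cg × Bool) (x : Cf K L) : Cf K L := fun n => (x n).map (fun y => (S.tau τ y.1, y.2))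

lemma labF_labF (τ : Cg × Bool) (x : Cf K L) : labF S τ (labF S τ x) = x := by
  funext n
  simp only [labF]
  cases x n with
  | none => rfl
  | some y => simp [S.tau_tau]

def labE (τ : Cg × Bool) : Equiv.Perm (Cf K L) where
  toFun := labF S τ
  invFun := labF S τ
  left_inv := labF_labF S τ
  right_inv := labF_labF S τ

variable [Fintype K] [Inhabited L]

@[simp] lemma sg_one (b : Bool) : sg b (1 : K) = 1 := by cases b <;> simp

lemma evB_and (F G : BE K d) (u : Wd K L) (n : ℕ) : 
    evB S (BE.and F G) u n = true ↔ (evB S F u n = true ∧ evB S G u n = true) := by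
  simp [evB]

/-- value read by the simulated C gate -/
def valC (g : Cg) (b : Bool) (u : Wd K L) (n : ℕ) : Option K :=
  match u (n+1), u (n+2), u (n+3), u (n+4), u (n+5) with
  | some r3, some s0, some _, some _, some s3 => 
      if S.lop g r3.m = some (.C, b) ∧ s3.m = S.nextL r3.m then some s0.k else none
  | _, _, _, _, _ => none

lemma valC_spec (hG : Function.Injective S.codeG) (hL : Function.Injective S.codeL) (g : Cg) (b : Bool)
    (a : K) (u : Wd K L) (n : ℕ) :
    evB S (BE.nx (condC S.codeG g b a)) u n = true ↔ valC S g b u n = some a := by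
  cases h1 : u (n+1) with
  | none => simp [evB, valC, h1]
  | some r3 => 
    have hl := evB_lopc S hG g (.C, b) u (n+1) r3 h1
    cases h2 : u (n+2) with
    | none => simp [evB, condC, valC, h1, h2, Nat.add_assoc]
    | some s0 => 
    cases h3 : u (n+3) with
    | none => simp [evB, condC, valC, nx4, h1, h2, h3, Nat.add_assoc]
    | some s1 => 
    cases h4 : u (n+4) with
    | none => simp [evB, condC, valC, nx4, h1, h2, h3, h4, Nat.add_assoc]
    | some s2 => 
    cases h5 : u (n+5) with
    | none => simp [evB, condC, valC, nx4, h1, h2, h3, h4, h5, Nat.add_assoc]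
    | some s3 => 
      have hb : (∀ j, evB S (eqv (.at0 (.nb j)) (nx4 (.at0 (.lb j)))) u (n+1) = true) ↔ 
          s3.m = S.nextL r3.m := by
        simp only [evB_eqv]
        simp only [evB, nx4, Nat.add_assoc, Nat.reduceAdd, h1, h2, h3, h4, h5, Option.isSome_some, 
          Bool.true_and, evE]
        constructor
        · intro h; exact (hL (funext h)).symm
        · intro h j; rw [h]
      simp only [condC, valC, h1, h2, h3, h4, h5]
      rw [evB]
      simp only [h1, Option.isSome_some, Bool.true_and]
      rw [evB_and, hl, evB_and, evB_and, evB_bigAnd, hb]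
      simp only [evB, nx4, Nat.add_assoc, Nat.reduceAdd, h2, h3, h4, h5, Option.isSome_some, 
          Bool.true_and, evE, decide_eq_true_eq]
      by_cases hc : S.lop g r3.m = some (Gt.C, b) <;> by_cases hc' : s3.m = S.nextL r3.m <;>
        simp [hc, hc']

lemma nr_condC (codeG : Option (Gt K d × Bool) → Bt d → Bool) (g : Cg) (b : Bool) (a : K) :
    nr (BE.nx (condC codeG g b a)) (2 - 2 : ZMod 4) := by
  refine ⟨nr_lopc _ _ _ _ (by decide), ?_, ?_, nr_bigAnd _ _ _ (fun j => ⟨⟨?_, ?_⟩, ?_, ?_⟩)⟩
  all_goals simp only [nr, nx4]; decide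

lemma lift_C (hG : Function.Injective S.codeG) (hL : Function.Injective S.codeL) (g : Cg) (b : Bool) :
    Lift (runE S (mac D S.codeG g (.C, b))) (actE S (fun lam => S.lop g lam = some (.C, b)) (.C, b)) := by
  have hrun : ∀ u : Wd K L, runE S (mac D S.codeG g (.C, b)) u = MKg 2 (fun u n => match valC S g b u n with
          | some a => sg b a 
          | none => 1) u := by
    intro u
    have := run_flat D S (condC S.codeG g b) b 2 (fun a => nr_condC S.codeG g b a) (valC S g b) 
      (fun a u n => valC_spec S hG hL g b a u n) (Finset.univ : Finset K).toList (Finset.nodup_toList _) u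
    simp only [Finset.mem_toList, Finset.mem_univ, if_true] at this
    exact this
  refine ⟨fun u => ?_, fun u => ?_⟩
  · rw [hrun]
    apply Idle_MKg2
    intro n hn
    by_contra hc
    apply hn
    simp only [Bool.not_eq_true, Option.isSome_eq_false_iff, Option.isNone_iff_eq_none] at hc
    simp [valC, hc]
  · rw [hrun]
    funext j
    rw [Dec_MKg2]
    rw [actE_apply]
    simp only [actF]
    simp only [Dec]
    cases h0 : u (4*j) with
    | none => rfl
    | some r0 =>
    cases h1 : u (4*j+1) with
    | none => rfl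
    | some r1 =>
    cases h2 : u (4*j+2) with
    | none => rfl
    | some r2 =>
    cases h3 : u (4*j+3) with
    | none => rfl
    | some r3 =>
      simp only [Option.map_some, valC, Nat.add_assoc, Nat.reduceAdd, h3, Nat.mul_add, Nat.reduceMul]
      cases h4 : u (4*j+4) with
      | none => simp [outC, gate]
      | some s0 =>
      cases h5 : u (4*j+5) with
      | none => simp [outC, gate]
      | some s1 =>
      cases h6 : u (4*j+6) with
      | none => simp [outC, gate]
      | some s2 =>
      cases h7 : u (4*j+7) with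
      | none => simp [outC, gate]
      | some s3 =>
        simp only [outC, gate]
        by_cases hc : S.lop g r3.m = some (Gt.C, b) <;> by_cases hc' : s3.m = S.nextL r3.m <;>
          simp [hc, hc']

/-- value read by the simulated P gate -/
def valP (g : Cg) (b : Bool) (u : Wd K L) (n : ℕ) : Option K :=
  match u (n+1), u (n+2), u (n+3) with
  | some _, some r2, some r3 => if S.lop g r3.m = some (.P, b) then some r2.k else none
  | _, _, _ => none

lemma valP_spec (hG : Function.Injective S.codeG) (g : Cg) (b : Bool)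
    (a : K) (u : Wd K L) (n : ℕ) :
    evB S (BE.nx (condP S.codeG g b a)) u n = true ↔ valP S g b u n = some a := by
  cases h1 : u (n+1) with
  | none => simp [evB, valP, h1]
  | some r1 => 
    cases h2 : u (n+2) with
    | none => simp [evB, condP, valP, h1, h2, Nat.add_assoc]
    | some r2 => 
    cases h3 : u (n+3) with
    | none => simp [evB, condP, valP, h1, h2, h3, Nat.add_assoc]
    | some r3 => 
      have hl := evB_lopc S hG g (.P, b) u (n+3) r3 h3
      simp only [condP, valP, evB, h1, h2, h3, Nat.add_assoc, Nat.reduceAdd, Option.isSome_some, 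
          Bool.true_and, Bool.and_eq_true, hl, evE, decide_eq_true_eq]
      by_cases hc : S.lop g r3.m = some (Gt.P, b) <;> simp [hc]

lemma nr_condP (codeG : Option (Gt K d × Bool) → Bt d → Bool) (g : Cg) (b : Bool) (a : K) :
    nr (BE.nx (condP codeG g b a)) 0 := by
  refine ⟨nr_lopc _ _ _ _ (by decide), ?_⟩
  simp only [nr]; decide

lemma lift_P (hG : Function.Injective S.codeG) (g : Cg) (b : Bool) :
    Lift (runE S (mac D S.codeG g (.P, b))) (actE S (fun lam => S.lop g lam = some (.P, b)) (.P, b)) := by
  have hrun : ∀ u : Wd K L, runE S (mac D S.codeG g (.P, b)) u = MKg 0 (fun u n => match valP S g b u n with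
          | some a => sg b a 
          | none => 1) u := by
    intro u
    have := run_flat D S (condP S.codeG g b) b 0 (fun a => nr_condP S.codeG g b a) (valP S g b) 
      (fun a u n => valP_spec S hG g b a u n) (Finset.univ : Finset K).toList (Finset.nodup_toList _) u
    simp only [Finset.mem_toList, Finset.mem_univ, if_true] at this
    exact this
  refine ⟨fun u => ?_, fun u => ?_⟩
  · rw [hrun]
    apply Idle_MKg0
    intro n hn
    cases h1 : u (n+1) <;> cases h2 : u (n+2) <;> cases h3 : u (n+3) <;> simp [valP, h1, h2, h3] at hn ⊢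
  · rw [hrun]
    funext j
    rw [Dec_MKg0]
    rw [actE_apply]
    simp only [actF]
    simp only [Dec]
    cases h0 : u (4*j) with
    | none => rfl
    | some r0 =>
    cases h1 : u (4*j+1) with
    | none => rfl
    | some r1 =>
    cases h2 : u (4*j+2) with
    | none => rfl
    | some r2 =>
    cases h3 : u (4*j+3) with
    | none => rfl
    | some r3 =>
      simp only [Option.map_some, valP, h1, h2, h3, gate]
      by_cases hc : S.lop g r3.m = some (Gt.P, b) <;> simp [hc]

/-- value read by the simulated M gate -/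
def valM (g : Cg) (b : Bool) (u : Wd K L) (n : ℕ) : Option K :=
  match u (n+1), u (n+2) with
  | some r2, some r3 => if S.lop g r3.m = some (.M, b) then some r2.k else none
  | _, _ => none

lemma valM_spec (hG : Function.Injective S.codeG) (g : Cg) (b : Bool)
    (a : K) (u : Wd K L) (n : ℕ) :
    evB S (BE.nx (condM S.codeG g b a)) u n = true ↔ valM S g b u n = some a := by
  cases h1 : u (n+1) with
  | none => simp [evB, valM, h1]
  | some r2 => 
    cases h2 : u (n+2) with
    | none => simp [evB, condM, valM, h1, h2, Nat.add_assoc]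
    | some r3 => 
      have hl := evB_lopc S hG g (.M, b) u (n+2) r3 h2
      simp only [condM, valM, evB, h1, h2, Nat.add_assoc, Nat.reduceAdd, Option.isSome_some, 
          Bool.true_and, Bool.and_eq_true, hl, evE, decide_eq_true_eq]
      by_cases hc : S.lop g r3.m = some (Gt.M, b) <;> simp [hc]

lemma nr_condM (codeG : Option (Gt K d × Bool) → Bt d → Bool) (g : Cg) (b : Bool) (a : K) :
    nr (BE.nx (condM codeG g b a)) 0 := by
  refine ⟨nr_lopc _ _ _ _ (by decide), ?_⟩
  simp only [nr]; decide

lemma lift_M (hG : Function.Injective S.codeG) (g : Cg) (b : Bool) :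
    Lift (runE S (mac D S.codeG g (.M, b))) (actE S (fun lam => S.lop g lam = some (.M, b)) (.M, b)) := by
  have hrun : ∀ u : Wd K L, runE S (mac D S.codeG g (.M, b)) u = MKg 1 (fun u n => match valM S g b u n with
          | some a => sg b a 
          | none => 1) u := by
    intro u
    have := run_flat D S (condM S.codeG g b) b 1 (fun a => nr_condM S.codeG g b a) (valM S g b) 
      (fun a u n => valM_spec S hG g b a u n) (Finset.univ : Finset K).toList (Finset.nodup_toList _) u
    simp only [Finset.mem_toList, Finset.mem_univ, if_true] at this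
    exact this
  refine ⟨fun u => ?_, fun u => ?_⟩
  · rw [hrun]
    apply Idle_MKg1
    intro n hn
    cases h1 : u (n+1) <;> cases h2 : u (n+2) <;> simp [valM, h1, h2] at hn ⊢
  · rw [hrun]
    funext j
    rw [Dec_MKg1]
    rw [actE_apply]
    simp only [actF]
    simp only [Dec]
    cases h0 : u (4*j) with
    | none => rfl
    | some r0 =>
    cases h1 : u (4*j+1) with
    | none => rfl
    | some r1 =>
    cases h2 : u (4*j+2) with
    | none => rfl
    | some r2 =>
    cases h3 : u (4*j+3) with
    | none => rfl
    | some r3 =>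
      simp only [Option.map_some, valM, Nat.add_assoc, Nat.reduceAdd, h2, h3, gate]
      by_cases hc : S.lop g r3.m = some (Gt.M, b) <;> simp [hc]

lemma nr_condV (codeG : Option (Gt K d × Bool) → Bt d → Bool) (g : Cg) (b : Bool) (E : EN K d) (σ : K) :
    nr (BE.nx (condV codeG g b E σ)) 0 := by
  refine ⟨nr_lopc _ _ _ _ (by decide), ?_⟩
  simp only [nr]; decide

lemma lift_V (hG : Function.Injective S.codeG) (g : Cg) (b : Bool) (E : EN K d) (σ : K) :
    Lift (runE S (mac D S.codeG g (.V E σ, b))) 
      (actE S (fun lam => S.lop g lam = some (.V E σ, b)) (.V E σ, b)) := by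
  have hrun := mkL_correct D S (condV S.codeG g b E σ) 0 (sg b σ) (nr_condV S.codeG g b E σ)
  have hval : ∀ (u : Wd K L) (n : ℕ), evB S (BE.nx (condV S.codeG g b E σ)) u n = true ↔ 
      ∃ r1 r2 r3, u (n+1) = some r1 ∧ u (n+2) = some r2 ∧ u (n+3) = some r3 ∧ 
        S.lop g r3.m = some (.V E σ, b) ∧ evE S E r1.m r1.k = true := by
    intro u n
    cases h1 : u (n+1) with
    | none => simp [evB, h1]
    | some r1 => 
      cases h2 : u (n+2) with
      | none => simp [evB, condV, h1, h2, Nat.add_assoc]
      | some r2 => 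
      cases h3 : u (n+3) with
      | none => simp [evB, condV, h1, h2, h3, Nat.add_assoc]
      | some r3 => 
        have hl := evB_lopc S hG g (.V E σ, b) u (n+3) r3 h3
        simp [condV, evB, h1, h2, h3, Nat.add_assoc, hl]
  refine ⟨fun u => ?_, fun u => ?_⟩
  · change Idle (runE S (mkL D (condV S.codeG g b E σ) 0 (sg b σ)) u) = _
    rw [hrun]
    apply Idle_MKg0
    intro n hn
    have : evB S (BE.nx (condV S.codeG g b E σ)) u n = true := by
      by_contra hc; apply hn; simp [hc]
    rw [hval] at this
    obtain ⟨r1, r2, r3, h1, h2, h3, -, -⟩ := this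
    simp [h1, h2, h3]
  · change Dec (runE S (mkL D (condV S.codeG g b E σ) 0 (sg b σ)) u) = _
    rw [hrun]
    funext j
    rw [Dec_MKg0]
    rw [actE_apply]
    simp only [actF]
    simp only [Dec]
    cases h0 : u (4*j) with
    | none => rfl
    | some r0 =>
    cases h1 : u (4*j+1) with
    | none => rfl
    | some r1 =>
    cases h2 : u (4*j+2) with
    | none => rfl
    | some r2 =>
    cases h3 : u (4*j+3) with
    | none => rfl
    | some r3 =>
      have hv := hval u (4*j)
      simp only [h1, h2, h3, Option.some.injEq, exists_and_left, exists_eq_left'] at hv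
      simp only [Option.map_some, gate, hv]
      by_cases hc : S.lop g r3.m = some (Gt.V E σ, b) <;> simp [hc]

lemma nr_condX (codeG : Option (Gt K d × Bool) → Bt d → Bool) (g : Cg) (b : Bool) (τ : Cg × Bool) :
    nr (BE.nx (condX codeG g b τ)) 0 := by
  refine ⟨nr_lopc _ _ _ _ (by decide), ?_⟩
  simp only [nr]; decide

lemma lift_X (hχ : S.chi = D.chi) (hG : Function.Injective S.codeG) (g : Cg) (b : Bool) (τ : Cg × Bool) :
    Lift (runE S (mac D S.codeG g (.X τ, b))) 
      (actE S (fun lam => S.lop g lam = some (.X τ, b)) (.X τ, b)) := by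
  have hrun := xmL_correct D S hχ (condX S.codeG g b τ) 1 τ (nr_condX S.codeG g b τ)
  have hval : ∀ (u : Wd K L) (n : ℕ), evB S (BE.nx (condX S.codeG g b τ)) u n = true ↔ 
      ∃ r2 r3, u (n+1) = some r2 ∧ u (n+2) = some r3 ∧ 
        S.lop g r3.m = some (.X τ, b) ∧ S.chi r2.k = true := by
    intro u n
    cases h1 : u (n+1) with
    | none => simp [evB, h1]
    | some r2 => 
      cases h2 : u (n+2) with
      | none => simp [evB, condX, h1, h2, Nat.add_assoc]
      | some r3 => 
        have hl := evB_lopc S hG g (.X τ, b) u (n+2) r3 h2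
        simp [condX, evB, evE, h1, h2, Nat.add_assoc, hl]
  refine ⟨fun u => ?_, fun u => ?_⟩
  · change Idle (runE S (xmL D (condX S.codeG g b τ) 1 τ) u) = _
    rw [hrun]
    apply Idle_XM
    intro n hn
    rw [hval] at hn
    obtain ⟨r1, r2, h1, h2, -, -⟩ := hn
    simp [h1, h2]
  · change Dec (runE S (xmL D (condX S.codeG g b τ) 1 τ) u) = _
    rw [hrun]
    funext j
    rw [Dec_XM]
    rw [actE_apply]
    simp only [actF]
    simp only [Dec]
    cases h0 : u (4*j) with
    | none => rfl
    | some r0 =>
    cases h1 : u (4*j+1) with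
    | none => rfl
    | some r1 =>
    cases h2 : u (4*j+2) with
    | none => rfl
    | some r2 =>
    cases h3 : u (4*j+3) with
    | none => rfl
    | some r3 =>
      have hv := hval u (4*j+1)
      simp only [Nat.add_assoc, Nat.reduceAdd, h1, h2, h3, Option.some.injEq, exists_and_left, exists_eq_left'] at hv
      simp only [Option.map_some, gate, hv]
      by_cases hc : S.lop g r3.m = some (Gt.X τ, b) <;> simp [hc]

lemma nr_condY (codeG : Option (Gt K d × Bool) → Bt d → Bool) (g : Cg) (b : Bool) (τ : Cg × Bool) :
    nr (BE.nx (condY codeG g b τ)) 0 := 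
  nr_lopc _ _ _ _ (by decide)

lemma lift_Y (hχ : S.chi = D.chi) (hG : Function.Injective S.codeG) (g : Cg) (b : Bool) (τ : Cg × Bool) :
    Lift (runE S (mac D S.codeG g (.Y τ, b))) 
      (actE S (fun lam => S.lop g lam = some (.Y τ, b)) (.Y τ, b)) := by
  have hrun := xmL_correct D S hχ (condY S.codeG g b τ) 1 τ (nr_condY S.codeG g b τ)
  have hval : ∀ (u : Wd K L) (n : ℕ), evB S (BE.nx (condY S.codeG g b τ)) u n = true ↔ 
      ∃ r2 r3, u (n+1) = some r2 ∧ u (n+2) = some r3 ∧ 
        S.lop g r3.m = some (.Y τ, b) := by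
    intro u n
    cases h1 : u (n+1) with
    | none => simp [evB, h1]
    | some r2 => 
      cases h2 : u (n+2) with
      | none => simp [evB, condY, h1, h2, Nat.add_assoc]
      | some r3 => 
        have hl := evB_lopc S hG g (.Y τ, b) u (n+2) r3 h2
        simp [condY, evB, evE, h1, h2, Nat.add_assoc, hl]
  refine ⟨fun u => ?_, fun u => ?_⟩
  · change Idle (runE S (xmL D (condY S.codeG g b τ) 1 τ) u) = _
    rw [hrun]
    apply Idle_XM
    intro n hn
    rw [hval] at hn
    obtain ⟨r1, r2, h1, h2, -⟩ := hn
    simp [h1, h2]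
  · change Dec (runE S (xmL D (condY S.codeG g b τ) 1 τ) u) = _
    rw [hrun]
    funext j
    rw [Dec_XM]
    rw [actE_apply]
    simp only [actF]
    simp only [Dec]
    cases h0 : u (4*j) with
    | none => rfl
    | some r0 =>
    cases h1 : u (4*j+1) with
    | none => rfl
    | some r1 =>
    cases h2 : u (4*j+2) with
    | none => rfl
    | some r2 =>
    cases h3 : u (4*j+3) with
    | none => rfl
    | some r3 =>
      have hv := hval u (4*j+1)
      simp only [Nat.add_assoc, Nat.reduceAdd, h1, h2, h3, Option.some.injEq, exists_and_left, exists_eq_left'] at hv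
      simp only [Option.map_some, gate, hv]
      by_cases hc : S.lop g r3.m = some (Gt.Y τ, b) <;> simp [hc]

lemma lift_mac (hχ : S.chi = D.chi) (hG : Function.Injective S.codeG) (hL : Function.Injective S.codeL) 
    (g : Cg) (q : Gt K d × Bool) :
    Lift (runE S (mac D S.codeG g q)) (actE S (fun lam => S.lop g lam = some q) q) := by
  obtain ⟨t, b⟩ := q
  cases t with
  | C => exact lift_C D S hG hL g b
  | P => exact lift_P D S hG g b
  | M => exact lift_M D S hG g b
  | V E σ => exact lift_V D S hG g b E σ
  | X τ => exact lift_X D S hχ hG g b τ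
  | Y τ => exact lift_Y D S hχ hG g b τ

lemma lift_lab (τ : Cg × Bool) (b : Bool) :
    Lift (stepE S (3, Gt.Y τ, b)) (labE S τ) := by
  refine ⟨fun u => Idle_Y S τ b u, fun u => ?_⟩
  funext j
  exact Dec_Y S τ b u j

end conf

end sem

end Pool.H12FS
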