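import Pool.Agent.H12.FS.B

/-!
# The self-simulating system: generators and their sections.
-/

set_option autoImplicit false
set_option linter.unusedSectionVars false
set_option linter.unusedSimpArgs false

namespace Pool.H12FS

section
variable {K : Type} {d : ℕ} [Group K] [DecidableEq K] [Fintype K]

/-- The program simulating the generator `g`. -/
noncomputable def progL (D : GD K) (codeG : Option (Gt K d × Bool) → Bt d → Bool) (g : Cg) :
    List (Ins K d) :=
  (Finset.univ : Finset (Gt K d × Bool)).toList.flatMap (mac D codeG g) ++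
    [(3, Gt.Y (g, false), true), (3, Gt.Y (g, true), true)]

end

/-- Parameters of the system. -/
structure Par (K : Type) [Group K] [DecidableEq K] [Fintype K] where
  D : GD K
  d : ℕ
  Λ : ℕ
  T : ℕ
  hΛ : 2 ≤ Λ
  hT : 1 ≤ T
  codeG : Option (Gt K d × Bool) → Bt d → Bool
  codeG_inj : Function.Injective codeG
  codeL : ZMod 4 × ZMod Λ × Cg × ZMod T → Bt d → Bool
  codeL_inj : Function.Injective codeL
  len : ∀ c, (progL D codeG c).length ≤ T

namespace Par
variable {K : Type} [Group K] [DecidableEq K] [Fintype K] (P : Par K)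

instance : NeZero P.Λ := ⟨by have := P.hΛ; omega⟩
instance : NeZero P.T := ⟨by have := P.hT; omega⟩

abbrev St := ZMod P.Λ × Cg × ZMod P.T
abbrev Lb := ZMod 4 × P.St
abbrev W := Wd K P.Lb
abbrev Co := Cf K P.Lb

noncomputable def pr (c : Cg) : List (Ins K P.d) := progL P.D P.codeG c

/-- involutions on states -/
def tauS (τ : Cg × Bool) (s : P.St) : P.St :=
  if τ.1 = 1 then
    (if τ.2 then (s.1, s.2.1, 1 - s.2.2) else (s.1, s.2.1, - s.2.2))
  else if τ.1 = 2 ∨ τ.1 = 3 then
    (if τ.2 then 
      (if s.2.1 = 2 then (s.1 - 1, 3, if s.1 = 1 then s.2.2 - 1 else s.2.2)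
       else if s.2.1 = 3 then (s.1 + 1, 2, if s.1 = 0 then s.2.2 + 1 else s.2.2)
       else s)
     else (s.1, Equiv.swap 2 3 s.2.1, s.2.2))
  else if τ.1 = 4 then
    (if s.2.2 = 0 then (if τ.2 then (s.1, 1 - s.2.1, s.2.2) else (s.1, - s.2.1, s.2.2)) else s)
  else if τ.1 = 5 then
    (if s.2.2 = 0 ∧ τ.2 then (s.1, Equiv.swap 0 1 s.2.1, s.2.2) else s)
  else s

lemma tauS_tauS (τ : Cg × Bool) (s : P.St) : P.tauS τ (P.tauS τ s) = s := by
  obtain ⟨l, c, t⟩ := s
  obtain ⟨g, b⟩ := τ
  unfold tauS
  simp only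
  by_cases h1 : g = 1
  · simp only [h1, if_true]
    cases b <;> simp
  simp only [h1, if_false]
  by_cases h2 : g = 2 ∨ g = 3
  · simp only [h2, if_true]
    cases b
    · simp
    · simp only [if_true]
      by_cases hc : c = 2
      · subst hc
        have h32 : (3 : Cg) ≠ 2 := by decide
        by_cases hl : l = 1
        · simp [hl, h32]
        · have : l - 1 ≠ 0 := by rwa [Ne, sub_eq_zero]
          simp [hl, h32, this]
      · by_cases hc' : c = 3
        · subst hc'
          have h32 : (3 : Cg) ≠ 2 := by decide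
          by_cases hl : l = 0
          · simp [hl, h32]
          · simp [hl, h32]
        · simp [hc, hc']
  simp only [h2, if_false]
  by_cases h4 : g = 4
  · simp only [h4, if_true]
    by_cases ht : t = 0 <;> cases b <;> simp [ht]
  simp only [h4, if_false]
  by_cases h5 : g = 5
  · simp only [h5, if_true]
    by_cases ht : t = 0 <;> cases b <;> simp [ht]
  simp [h5]

/-- the state update -/
def up (g : Cg) (s : P.St) : P.St := P.tauS (g, true) (P.tauS (g, false) s)

def tauE (τ : Cg × Bool) : Equiv.Perm P.St := ⟨P.tauS τ, P.tauS τ, P.tauS_tauS τ, P.tauS_tauS τ⟩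

def upE (g : Cg) : Equiv.Perm P.St := P.tauE (g, true) * P.tauE (g, false)

lemma upE_apply (g : Cg) (s : P.St) : P.upE g s = P.up g s := rfl

/-- the instruction executed by the generator `g` in the state `s`. -/
noncomputable def instr (g : Cg) (s : P.St) : Option (Ins K P.d) :=
  if g = 1 then (P.pr s.2.1)[s.2.2.val]?
  else if g = 2 ∨ g = 3 then
    (if s.2.1 = 2 ∧ s.1 = 0 then (P.pr 2)[s.2.2.val]?
     else if s.2.1 = 3 ∧ s.1 = 1 then ((P.pr 3)[(s.2.2 - 1).val]?).map flipI
     else none)
  else none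

noncomputable def lopF (g : Cg) (m : P.Lb) : Option (Gt K P.d × Bool) :=
  match P.instr g m.2 with
  | some I => if I.1 = m.1 then some I.2 else none
  | none => none

noncomputable def S : Sys K P.Lb P.d where
  chi := P.D.chi
  codeL := P.codeL
  codeG := P.codeG
  nextL := fun m => (m.1 + 1, m.2)
  lop := P.lopF
  tau := fun τ m => (m.1, P.tauS τ m.2)
  tau_tau := fun τ m => by simp [P.tauS_tauS]

/-- composition of the gates over a list of signed gates -/
noncomputable def sPart (g : Cg) : List (Gt K P.d × Bool) → Equiv.Perm P.Co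
  | [] => 1
  | q :: qs => sPart g qs * actE P.S (fun m => P.S.lop g m = some q) q

/-- The generators. -/
noncomputable def sE (g : Cg) : Equiv.Perm P.Co :=
  labE P.S (g, true) * labE P.S (g, false) * P.sPart g (Finset.univ : Finset (Gt K P.d × Bool)).toList

noncomputable def prE (g : Cg) : Equiv.Perm P.W := runE P.S (P.pr g)

lemma lift_sPart (g : Cg) (qs : List (Gt K P.d × Bool)) :
    Lift (runE P.S (qs.flatMap (mac P.D P.codeG g))) (P.sPart g qs) := by
  induction qs with
  | nil => exact Lift.one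
  | cons q qs ih => 
    simp only [List.flatMap_cons, runE_append, sPart]
    exact ih.mul (lift_mac P.D P.S rfl P.codeG_inj P.codeL_inj g q)

lemma lift_sE (g : Cg) : Lift (P.prE g) (P.sE g) := by
  have h1 := P.lift_sPart g (Finset.univ : Finset (Gt K P.d × Bool)).toList
  have h2 := lift_lab P.S (g, false) true
  have h3 := lift_lab P.S (g, true) true
  have := (h3.mul h2).mul h1
  have e : P.prE g = stepE P.S (3, Gt.Y (g, true), true) * stepE P.S (3, Gt.Y (g, false), true) *
      runE P.S ((Finset.univ : Finset (Gt K P.d × Bool)).toList.flatMap (mac P.D P.codeG g)) := by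
    unfold prE pr progL
    rw [runE_append]
    simp only [runE, one_mul]
  rw [e]
  exact this

/-- labelling a stream of registers -/
def lab (s : P.St) (u : P.W) : P.Co := fun n => (u n).map (fun r => (((n : ZMod 4), s), r))

lemma lab_inj (s : P.St) {u v : P.W} (h : P.lab s u = P.lab s v) : u = v := by
  funext n
  have := congrFun h n
  simp only [lab] at this
  cases hu : u n <;> cases hv : v n <;> simp_all

noncomputable def optE : Option (Ins K P.d) → Equiv.Perm P.W
  | none => 1
  | some I => stepE P.S I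

lemma actF_lab (g : Cg) (q : Gt K P.d × Bool) (s : P.St) (u : P.W) :
    actF P.S (fun m => P.S.lop g m = some q) q (P.lab s u) =
      P.lab s (match P.instr g s with
        | some I => if I.2 = q then stepF P.S I u else u
        | none => u) := by
  funext n
  simp only [actF, lab]
  cases hu : u n with
  | none => 
    cases hI : P.instr g s with
    | none => simp [hu]
    | some I => 
      by_cases hq : I.2 = q
      · simp [hq, stepF, hu]
      · simp [hq, hu]
  | some r => 
    simp only [Option.map_some]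
    have hlop : P.S.lop g ((n : ZMod 4), s) = some q ↔ ∃ I, P.instr g s = some I ∧ I.1 = (n : ZMod 4) ∧ I.2 = q := by
      change P.lopF g ((n : ZMod 4), s) = some q ↔ _
      unfold lopF
      cases hI : P.instr g s with
      | none => simp
      | some I => by_cases hn : I.1 = (n : ZMod 4) <;> simp [hn]
    have hout : outC P.S ((n : ZMod 4), s) ((u (n+1)).map (fun r => ((((n+1 : ℕ) : ZMod 4), s), r))) 
        = outW (u (n+1)) := by
      cases u (n+1) with
      | none => rfl
      | some r' => 
        have : ((((n+1 : ℕ) : ZMod 4), s) : P.Lb) = P.S.nextL ((n : ZMod 4), s) := by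
          simp [S]
        simp only [Option.map_some, outC, this, if_true, outW]
    rw [hout]
    cases hI : P.instr g s with
    | none => 
      have : ¬ (P.S.lop g ((n : ZMod 4), s) = some q) := by rw [hlop, hI]; simp
      simp [this, hu]
    | some I => 
      by_cases hq : I.2 = q
      · by_cases hn : (n : ZMod 4) = I.1
        · have : P.S.lop g ((n : ZMod 4), s) = some q := by
            rw [hlop]; exact ⟨I, hI, hn.symm, hq⟩
          simp only [this, hq, if_true, stepF, if_pos hn, hu, Option.map_some]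
        · have : ¬ (P.S.lop g ((n : ZMod 4), s) = some q) := by
            rw [hlop]; rintro ⟨I', hI', h1, h2⟩
            rw [hI] at hI'; cases hI'; exact hn h1.symm
          simp [this, hq, stepF, hn, hu]
      · have : ¬ (P.S.lop g ((n : ZMod 4), s) = some q) := by
            rw [hlop]; rintro ⟨I', hI', h1, h2⟩
            rw [hI] at hI'; cases hI'; exact hq h2
        simp [this, hq, hu]

lemma sPart_lab (g : Cg) (s : P.St) (qs : List (Gt K P.d × Bool)) (hnd : qs.Nodup) : ∀ u : P.W,
    P.sPart g qs (P.lab s u) = P.lab s (match P.instr g s with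
        | some I => if I.2 ∈ qs then stepF P.S I u else u
        | none => u) := by
  induction qs with
  | nil => 
    intro u
    cases hI : P.instr g s <;> simp [sPart]
  | cons q qs ih => 
    intro u
    obtain ⟨hq, hnd'⟩ := List.nodup_cons.mp hnd
    simp only [sPart, Equiv.Perm.coe_mul, Function.comp_apply, actE_apply, actF_lab]
    rw [ih hnd']
    cases hI : P.instr g s with
    | none => rfl
    | some I => 
      simp only
      by_cases h : I.2 = q
      · have h' : I.2 ∉ qs := by rw [h]; exact hq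
        simp [h, hq]
      · simp [h]

lemma labF_lab (τ : Cg × Bool) (s : P.St) (u : P.W) : 
    labF P.S τ (P.lab s u) = P.lab (P.tauS τ s) u := by
  funext n
  simp only [labF, lab, S]
  cases u n <;> rfl

lemma sE_lab (g : Cg) (s : P.St) (u : P.W) :
    P.sE g (P.lab s u) = P.lab (P.up g s) (P.optE (P.instr g s) u) := by
  simp only [sE, Equiv.Perm.coe_mul, Function.comp_apply]
  rw [P.sPart_lab g s _ (Finset.nodup_toList _)]
  change labF P.S (g, true) (labF P.S (g, false) _) = _
  rw [labF_lab, labF_lab]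
  cases hI : P.instr g s with
  | none => rfl
  | some I => 
    simp only [Finset.mem_toList, Finset.mem_univ, if_true]
    rfl

noncomputable def pre (s : P.St) : Equiv.Perm P.W := runE P.S ((P.pr s.2.1).take s.2.2.val)

/-- coordinates on the consistent configurations -/
noncomputable def E (y : P.St × P.W) : P.Co := P.lab y.1 (P.pre y.1 y.2)

noncomputable def sec (g : Cg) (s : P.St) : Equiv.Perm P.W :=
  (P.pre (P.up g s))⁻¹ * P.optE (P.instr g s) * P.pre s

/-- the action of the generators on coordinates -/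
noncomputable def sH (g : Cg) : Equiv.Perm (P.St × P.W) := Equiv.prodShear (P.upE g) (P.sec g)

lemma sH_apply (g : Cg) (y : P.St × P.W) : P.sH g y = (P.up g y.1, P.sec g y.1 y.2) := rfl

def Has (h : Equiv.Perm P.Co) (k : Equiv.Perm (P.St × P.W)) : Prop := ∀ y, h (P.E y) = P.E (k y)

lemma has_sE (g : Cg) : P.Has (P.sE g) (P.sH g) := by
  intro y
  simp only [E, sE_lab, sH_apply, sec, Equiv.Perm.coe_mul, Function.comp_apply]
  congr 1
  simp

variable {P} in
lemma Has.one : P.Has 1 1 := fun _ => rfl
variable {P} in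
lemma Has.mul {h h' : Equiv.Perm P.Co} {k k' : Equiv.Perm (P.St × P.W)} (a : P.Has h k) (b : P.Has h' k') :
    P.Has (h * h') (k * k') := fun y => by simp [b y, a (k' y)]
variable {P} in
lemma Has.inv {h : Equiv.Perm P.Co} {k : Equiv.Perm (P.St × P.W)} (a : P.Has h k) :
    P.Has h⁻¹ k⁻¹ := fun y => by
  have := a (k⁻¹ y)
  rw [Equiv.Perm.inv_eq_iff_eq, this]
  simp
variable {P} in
lemma Has.pow {h : Equiv.Perm P.Co} {k : Equiv.Perm (P.St × P.W)} (a : P.Has h k) (n : ℕ) :
    P.Has (h^n) (k^n) := by
  induction n with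
  | zero => exact Has.one
  | succ n ih => rw [pow_succ, pow_succ]; exact ih.mul a

/-! ### Explicit sections -/

lemma val_succ (t : ZMod P.T) : (t + 1).val = (t.val + 1) % P.T := by
  rw [ZMod.val_add, ZMod.val_one_eq_one_mod, Nat.add_mod_mod]

lemma succ_eq_zero (t : ZMod P.T) : t + 1 = 0 ↔ t.val + 1 = P.T := by
  rw [← ZMod.val_eq_zero, val_succ]
  have := ZMod.val_lt t
  constructor
  · intro h
    have h1 := Nat.dvd_of_mod_eq_zero h
    have := Nat.le_of_dvd (by omega) h1
    omega
  · intro h; rw [h]; exact Nat.mod_self _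

lemma runE_toList (o : Option (Ins K P.d)) : runE P.S o.toList = P.optE o := by
  cases o <;> simp [optE, runE]

lemma take_step (c : Cg) (t : ZMod P.T) :
    P.optE ((P.pr c)[t.val]?) * runE P.S ((P.pr c).take t.val) = 
      if t + 1 = 0 then P.prE c else runE P.S ((P.pr c).take (t+1).val) := by
  rw [← runE_toList, ← runE_append]
  have hts : (P.pr c).take t.val ++ ((P.pr c)[t.val]?).toList = (P.pr c).take (t.val + 1) := by
    rw [List.take_add_one]
  rw [hts]
  split_ifs with h
  · rw [succ_eq_zero] at h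
    have hl : (P.pr c).length ≤ P.T := P.len c
    rw [h, List.take_of_length_le hl]
    rfl
  · rw [succ_eq_zero] at h
    have := ZMod.val_lt t
    rw [val_succ, Nat.mod_eq_of_lt (by omega)]

lemma pre_zero (s : P.St) (h : s.2.2 = 0) : P.pre s = 1 := by
  simp [pre, h, runE]

lemma sH_tick (l : ZMod P.Λ) (c : Cg) (t : ZMod P.T) (u : P.W) :
    P.sH 1 ((l, c, t), u) = ((l, c, t+1), if t + 1 = 0 then P.prE c u else u) := by
  have hup : P.up 1 (l, c, t) = (l, c, t+1) := by
    simp [up, tauS]; ring
  rw [sH_apply]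
  simp only [hup, sec]
  congr 1
  have hi : P.instr 1 (l, c, t) = (P.pr c)[t.val]? := by simp [instr]
  rw [hi, mul_assoc]
  have := P.take_step c t
  simp only [pre]
  rw [this]
  split_ifs with h
  · simp [h, runE]
  · simp

lemma up_f (g : Cg) (hg : g = 2 ∨ g = 3) (l : ZMod P.Λ) (t : ZMod P.T) :
    P.up g (l, 2, t) = (l+1, 2, if l = 0 then t+1 else t) := by
  have h1 : g ≠ 1 := by rcases hg with rfl | rfl <;> decide
  have h32 : (3 : Cg) ≠ 2 := by decide
  simp [up, tauS, h1, hg, h32]

lemma up_f' (g : Cg) (hg : g = 2 ∨ g = 3) (l : ZMod P.Λ) (t : ZMod P.T) :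
    P.up g (l, 3, t) = (l-1, 3, if l = 1 then t-1 else t) := by
  have h1 : g ≠ 1 := by rcases hg with rfl | rfl <;> decide
  simp [up, tauS, h1, hg]

lemma up_f'' (g : Cg) (hg : g = 2 ∨ g = 3) (l : ZMod P.Λ) (c : Cg) (hc2 : c ≠ 2) (hc3 : c ≠ 3) (t : ZMod P.T) :
    P.up g (l, c, t) = (l, c, t) := by
  have h1 : g ≠ 1 := by rcases hg with rfl | rfl <;> decide
  have := Equiv.swap_apply_of_ne_of_ne hc2 hc3
  simp [up, tauS, h1, hg, this, hc2, hc3]

lemma sH_f (g : Cg) (hg : g = 2 ∨ g = 3) (l : ZMod P.Λ) (t : ZMod P.T) (u : P.W) :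
    P.sH g ((l, 2, t), u) = ((l+1, 2, if l = 0 then t+1 else t), if l = 0 ∧ t + 1 = 0 then P.prE 2 u else u) := by
  have h1 : g ≠ 1 := by rcases hg with rfl | rfl <;> decide
  have h23 : (2 : Cg) ≠ 3 := by decide
  rw [sH_apply]
  simp only [P.up_f g hg, sec]
  congr 1
  by_cases hl : l = 0
  · have hi : P.instr g (l, 2, t) = (P.pr 2)[t.val]? := by simp [instr, h1, hg, hl]
    rw [hi, mul_assoc]
    have := P.take_step 2 t
    simp only [pre]
    rw [this]
    simp only [hl, if_true, true_and]
    split_ifs with h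
    · simp [h, runE]
    · simp
  · have hi : P.instr g (l, 2, t) = none := by simp [instr, h1, hg, hl, h23]
    rw [hi]
    simp [hl, optE, pre]

lemma sH_f' (g : Cg) (hg : g = 2 ∨ g = 3) (l : ZMod P.Λ) (t : ZMod P.T) (u : P.W) :
    P.sH g ((l+1, 3, if l = 0 then t+1 else t), if l = 0 ∧ t + 1 = 0 then P.prE 3 u else u) = ((l, 3, t), u) := by
  have h1 : g ≠ 1 := by rcases hg with rfl | rfl <;> decide
  have h32 : (3 : Cg) ≠ 2 := by decide
  rw [sH_apply]
  simp only [P.up_f' g hg, sec]
  by_cases hl : l = 0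
  · subst hl
    simp only [zero_add, if_true, add_sub_cancel_right, sub_self, true_and, Prod.mk.injEq]
    have hi : P.instr g (1, 3, t + 1) = ((P.pr 3)[t.val]?).map flipI := by simp [instr, h1, hg, h32]
    have ho : P.optE (((P.pr 3)[t.val]?).map flipI) = (P.optE ((P.pr 3)[t.val]?))⁻¹ := by
      cases (P.pr 3)[t.val]? with
      | none => simp [optE]
      | some I => simp [optE, stepE_flip]
    rw [hi, ho]
    have h := P.take_step 3 t
    simp only [pre]
    simp only [Equiv.Perm.coe_mul, Function.comp_apply]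
    rw [Equiv.Perm.inv_eq_iff_eq, Equiv.Perm.inv_eq_iff_eq, ← Equiv.Perm.mul_apply, h]
    split_ifs with h'
    · simp [h', runE]
    · simp
  · have hi : P.instr g (l+1, 3, t) = none := by simp [instr, h1, hg, hl, h32]
    simp only [hl, if_false, false_and, add_sub_cancel_right, add_eq_right, hi]
    simp [optE, pre]

lemma sH_f'' (g : Cg) (hg : g = 2 ∨ g = 3) (l : ZMod P.Λ) (c : Cg) (hc2 : c ≠ 2) (hc3 : c ≠ 3) (t : ZMod P.T) 
    (u : P.W) : P.sH g ((l, c, t), u) = ((l, c, t), u) := by
  have h1 : g ≠ 1 := by rcases hg with rfl | rfl <;> decide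
  rw [sH_apply]
  simp only [P.up_f'' g hg l c hc2 hc3, sec]
  have hi : P.instr g (l, c, t) = none := by simp [instr, h1, hg, hc2, hc3]
  simp [hi, optE]

/-- hub permutation of the `c` component at `t = 0` -/
def hubF (π : Equiv.Perm Cg) (s : P.St) : P.St := if s.2.2 = 0 then (s.1, π s.2.1, s.2.2) else s

def hubS (π : Equiv.Perm Cg) : Equiv.Perm P.St where
  toFun := P.hubF π
  invFun := P.hubF π⁻¹
  left_inv := fun s => by
    obtain ⟨l, c, t⟩ := s
    by_cases h : t = 0 <;> simp [hubF, h]
  right_inv := fun s => by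
    obtain ⟨l, c, t⟩ := s
    by_cases h : t = 0 <;> simp [hubF, h]

def hub (π : Equiv.Perm Cg) : Equiv.Perm (P.St × P.W) := Equiv.prodShear (P.hubS π) (fun _ => 1)

lemma hub_apply (π : Equiv.Perm Cg) (l : ZMod P.Λ) (c : Cg) (t : ZMod P.T) (u : P.W) : 
    P.hub π ((l, c, t), u) = ((l, if t = 0 then π c else c, t), u) := by
  change (P.hubF π (l, c, t), u) = _
  by_cases h : t = 0 <;> simp [hubF, h]

lemma hub_mul (π π' : Equiv.Perm Cg) : P.hub (π * π') = P.hub π * P.hub π' := by
  ext1 ⟨⟨l, c, t⟩, u⟩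
  simp only [Equiv.Perm.coe_mul, Function.comp_apply, hub_apply]
  by_cases h : t = 0 <;> simp [h]

lemma hub_one : P.hub 1 = 1 := by
  ext1 ⟨⟨l, c, t⟩, u⟩
  simp [hub_apply]

lemma hub_inv (π : Equiv.Perm Cg) : P.hub π⁻¹ = (P.hub π)⁻¹ := by
  rw [eq_inv_iff_mul_eq_one, ← hub_mul]; simp [hub_one]

lemma sH_4 : P.sH 4 = P.hub (finRotate 6) := by
  ext1 ⟨⟨l, c, t⟩, u⟩
  rw [sH_apply, hub_apply]
  have h1 : (4 : Cg) ≠ 1 := by decide
  have h2 : (4 : Cg) ≠ 2 := by decide
  have h3 : (4 : Cg) ≠ 3 := by decide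
  have hi : P.instr 4 (l, c, t) = none := by simp [instr, h1, h2, h3]
  by_cases ht : t = 0
  · subst ht
    have hup : P.up 4 (l, c, 0) = (l, finRotate 6 c, 0) := by
      rw [finRotate_apply]
      simp [up, tauS, h1, h2, h3, add_comm]
    simp only [hup, sec, hi, optE, if_true]
    simp [pre_zero]
  · have hup : P.up 4 (l, c, t) = (l, c, t) := by
      simp [up, tauS, h1, h2, h3, ht]
    simp only [hup, sec, hi, optE, ht, if_false]
    simp

lemma sH_5 : P.sH 5 = P.hub (Equiv.swap 0 1) := by
  ext1 ⟨⟨l, c, t⟩, u⟩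
  rw [sH_apply, hub_apply]
  have h1 : (5 : Cg) ≠ 1 := by decide
  have h2 : (5 : Cg) ≠ 2 := by decide
  have h3 : (5 : Cg) ≠ 3 := by decide
  have h4 : (5 : Cg) ≠ 4 := by decide
  have hi : P.instr 5 (l, c, t) = none := by simp [instr, h1, h2, h3]
  by_cases ht : t = 0
  · subst ht
    have hup : P.up 5 (l, c, 0) = (l, Equiv.swap 0 1 c, 0) := by
      simp [up, tauS, h1, h2, h3, h4]
    simp only [hup, sec, hi, optE, if_true]
    simp [pre_zero]
  · have hup : P.up 5 (l, c, t) = (l, c, t) := by
      simp [up, tauS, h1, h2, h3, h4, ht]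
    simp only [hup, sec, hi, optE, ht, if_false]
    simp

lemma sE_0 : P.sH 0 = 1 := by
  ext1 ⟨⟨l, c, t⟩, u⟩
  rw [sH_apply]
  have h1 : (0 : Cg) ≠ 1 := by decide
  have h2 : (0 : Cg) ≠ 2 := by decide
  have h3 : (0 : Cg) ≠ 3 := by decide
  have h4 : (0 : Cg) ≠ 4 := by decide
  have h5 : (0 : Cg) ≠ 5 := by decide
  have hi : P.instr 0 (l, c, t) = none := by simp [instr, h1, h2, h3]
  have hup : P.up 0 (l, c, t) = (l, c, t) := by
    simp [up, tauS, h1, h2, h3, h4, h5]
  simp [hup, sec, hi, optE]

end Par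

end Pool.H12FS
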