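import Pool.Agent.H12.FS.C

/-!
# Faithfulness: programs of trivial words are trivial; an element of the group is determined by its
action on consistently labelled configurations.
-/

set_option autoImplicit false
set_option linter.unusedSectionVars false
set_option linter.unusedSimpArgs false

namespace Pool.H12FS

section
variable {K L : Type} {d : ℕ} [Group K] [DecidableEq K] (S : Sys K L d)

/-- one-sided maps -/
def OS (φ : Wd K L → Wd K L) : Prop :=
  ∀ (n : ℕ) (u v : Wd K L), (∀ i, n ≤ i → u i = v i) → ∀ i, n ≤ i → φ u i = φ v i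

lemma OS_stepF (I : Ins K d) : OS (stepF S I) := by
  intro n u v h i hi
  simp only [stepF, h i hi, h (i+1) (by omega)]

def OS2 (φ : Equiv.Perm (Wd K L)) : Prop := OS φ ∧ OS ⇑(φ⁻¹)

lemma OS2_stepE (I : Ins K d) : OS2 (stepE S I) := by
  refine ⟨OS_stepF S I, ?_⟩
  rw [← stepE_flip]
  exact OS_stepF S (flipI I)

lemma OS2.one : OS2 (1 : Equiv.Perm (Wd K L)) := ⟨fun _ _ _ h => h, fun _ _ _ h => h⟩

lemma OS2.mul {φ ψ : Equiv.Perm (Wd K L)} (h : OS2 φ) (h' : OS2 ψ) : OS2 (φ * ψ) := by
  refine ⟨fun n u v hh => h.1 n _ _ (h'.1 n _ _ hh), ?_⟩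
  rw [mul_inv_rev]
  exact fun n u v hh => h'.2 n _ _ (h.2 n _ _ hh)

lemma OS2.inv {φ : Equiv.Perm (Wd K L)} (h : OS2 φ) : OS2 φ⁻¹ := ⟨h.2, by rw [inv_inv]; exact h.1⟩

lemma OS2_runE (l : List (Ins K d)) : OS2 (runE S l) := by
  induction l with
  | nil => exact OS2.one
  | cons I l ih => exact ih.mul (OS2_stepE S I)

variable [Inhabited L]

lemma block_eq (u v : Wd K L) (j : ℕ) (hI : Idle u j = Idle v j) (hD : Dec u j = Dec v j) :
    ((u (4*j)).isSome → (u (4*j+1)).isSome → (u (4*j+2)).isSome → u (4*j+3) = v (4*j+3)) ∧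
    ((u (4*j)).isSome → (u (4*j+1)).isSome → u (4*j+2) = v (4*j+2)) ∧
    ((u (4*j)).isSome → u (4*j+1) = v (4*j+1)) ∧ (u (4*j) = v (4*j)) := by
  simp only [Idle, Dec] at hI hD
  generalize u (4*j) = a0 at *
  generalize u (4*j+1) = a1 at *
  generalize u (4*j+2) = a2 at *
  generalize u (4*j+3) = a3 at *
  generalize v (4*j) = b0 at *
  generalize v (4*j+1) = b1 at *
  generalize v (4*j+2) = b2 at *
  generalize v (4*j+3) = b3 at *
  simp only [Prod.mk.injEq] at hI
  obtain ⟨e0, e1, e2, e3⟩ := hI
  rcases a3 with _ | ⟨ai3, am3, ak3, ao3⟩ <;> rcases b3 with _ | ⟨bi3, bm3, bk3, bo3⟩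
  · -- both none
    rcases a2 with _ | a2 <;> rcases b2 with _ | b2 <;> rcases a1 with _ | a1 <;> rcases b1 with _ | b1 <;>
     rcases a0 with _ | a0 <;> rcases b0 with _ | b0 <;> simp_all
  · simp at e3
  · simp at e3
  · rcases a2 with _ | ⟨ai2, am2, ak2, ao2⟩ <;> rcases b2 with _ | ⟨bi2, bm2, bk2, bo2⟩
    · rcases a1 with _ | a1 <;> rcases b1 with _ | b1 <;>
       rcases a0 with _ | a0 <;> rcases b0 with _ | b0 <;> simp_all
    · simp at e2
    · simp at e2
    · rcases a1 with _ | ⟨ai1, am1, ak1, ao1⟩ <;> rcases b1 with _ | ⟨bi1, bm1, bk1, bo1⟩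
      · rcases a0 with _ | a0 <;> rcases b0 with _ | b0 <;> simp_all
      · simp at e1
      · simp at e1
      · rcases a0 with _ | ⟨ai0, am0, ak0, ao0⟩ <;> rcases b0 with _ | ⟨bi0, bm0, bk0, bo0⟩
        · simp_all
        · simp at e0
        · simp at e0
        · simp_all

lemma recover (u v : Wd K L) (n : ℕ) (hI : Idle u = Idle v) (hD : Dec u = Dec v)
    (hfill : ∀ i, i < n → (u i).isSome) : u n = v n := by
  obtain ⟨h3, h2, h1, h0⟩ := block_eq u v (n / 4) (congrFun hI _) (congrFun hD _)
  have hn := Nat.div_add_mod n 4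
  have hlt := Nat.mod_lt n (by norm_num : 4 > 0)
  have : n % 4 = 0 ∨ n % 4 = 1 ∨ n % 4 = 2 ∨ n % 4 = 3 := by omega
  rcases this with h | h | h | h
  · have : 4 * (n/4) = n := by omega
    rwa [this] at h0
  · have : 4 * (n/4) + 1 = n := by omega
    rw [this] at h1
    exact h1 (hfill _ (by omega))
  · have : 4 * (n/4) + 2 = n := by omega
    rw [this] at h2
    exact h2 (hfill _ (by omega)) (hfill _ (by omega))
  · have : 4 * (n/4) + 3 = n := by omega
    rw [this] at h3
    exact h3 (hfill _ (by omega)) (hfill _ (by omega)) (hfill _ (by omega))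

lemma lemA (φ : Equiv.Perm (Wd K L)) (hos : OS φ) (hl : Lift φ (⇑(1 : Equiv.Perm (Cf K L)))) : φ = 1 := by
  ext1 u
  funext n
  set u' : Wd K L := fun i => if i < n then some ⟨1, default, 1, 1⟩ else u i with hu'
  have h1 : φ u n = φ u' n := by
    apply hos n u u' _ n le_rfl
    intro i hi
    simp only [hu', if_neg (not_lt.mpr hi)]
  have h2 : u' n = u n := by simp [hu']
  have h3 : u' n = φ u' n := by
    apply recover
    · exact (hl.1 u').symm
    · exact (hl.2 u').symm
    · intro i hi
      simp [hu', hi]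
  rw [h1, ← h3, h2]; rfl

/-- Surjectivity of the decoding. -/
lemma Dec_surj (x : Cf K L) : ∃ u : Wd K L, Dec u = x := by
  refine ⟨fun n => match x (n / 4) with
    | none => none
    | some y => some (if n % 4 = 0 then ⟨1, default, y.2.o, 1⟩ else if n % 4 = 1 then ⟨1, y.2.m, y.2.k, 1⟩
        else if n % 4 = 2 then ⟨1, default, y.2.i, 1⟩ else ⟨1, y.1, 1, 1⟩), ?_⟩
  funext j
  have e0 : (4 * j) / 4 = j := by omega
  have e1 : (4 * j + 1) / 4 = j := by omega
  have e2 : (4 * j + 2) / 4 = j := by omega
  have e3 : (4 * j + 3) / 4 = j := by omega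
  have m0 : (4 * j) % 4 = 0 := by omega
  have m1 : (4 * j + 1) % 4 = 1 := by omega
  have m2 : (4 * j + 2) % 4 = 2 := by omega
  have m3 : (4 * j + 3) % 4 = 3 := by omega
  simp only [Dec, e0, e1, e2, e3, m0, m1, m2, m3]
  cases x j with
  | none => rfl
  | some y => simp

end

/-! ### Words -/

section
variable {G : Type} [Group G]

/-- value of a word -/
def wmap (f : Cg → G) (w : List (Cg × Bool)) : G := (w.map (fun a => sg a.2 (f a.1))).prod

lemma wmap_nil (f : Cg → G) : wmap f [] = 1 := rfl
lemma wmap_cons (f : Cg → G) (a : Cg × Bool) (w : List (Cg × Bool)) :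
    wmap f (a :: w) = sg a.2 (f a.1) * wmap f w := by simp [wmap]
lemma wmap_append (f : Cg → G) (w w' : List (Cg × Bool)) : wmap f (w ++ w') = wmap f w * wmap f w' := by
  simp [wmap]

def invW (w : List (Cg × Bool)) : List (Cg × Bool) := (w.map (fun a => (a.1, !a.2))).reverse

lemma wmap_invW (f : Cg → G) (w : List (Cg × Bool)) : wmap f (invW w) = (wmap f w)⁻¹ := by
  induction w with
  | nil => simp [invW, wmap]
  | cons a w ih => 
    have : invW (a :: w) = invW w ++ [(a.1, !a.2)] := by simp [invW]
    rw [this, wmap_append, ih, wmap_cons f a w, mul_inv_rev, wmap_cons, wmap_nil, mul_one]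
    congr 1
    obtain ⟨g, b⟩ := a
    cases b <;> simp [sg]

lemma length_invW (w : List (Cg × Bool)) : (invW w).length = w.length := by simp [invW]

end

namespace Par
variable {K : Type} [Group K] [DecidableEq K] [Fintype K] (P : Par K)

lemma lift_wmap (w : List (Cg × Bool)) : Lift (⇑(wmap P.prE w)) (⇑(wmap P.sE w)) := by
  induction w with
  | nil => exact Lift.one
  | cons a w ih => 
    rw [wmap_cons, wmap_cons]
    refine Lift.mul ?_ ih
    obtain ⟨g, b⟩ := a
    cases b
    · exact (P.lift_sE g).inv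
    · exact P.lift_sE g

lemma os_wmap (w : List (Cg × Bool)) : OS2 (wmap P.prE w) := by
  induction w with
  | nil => exact OS2.one
  | cons a w ih => 
    rw [wmap_cons]
    refine OS2.mul ?_ ih
    obtain ⟨g, b⟩ := a
    cases b
    · exact (OS2_runE P.S _).inv
    · exact OS2_runE P.S _

lemma has_wmap (w : List (Cg × Bool)) : P.Has (wmap P.sE w) (wmap P.sH w) := by
  induction w with
  | nil => exact Has.one
  | cons a w ih => 
    rw [wmap_cons, wmap_cons]
    refine Has.mul ?_ ih
    obtain ⟨g, b⟩ := a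
    cases b
    · exact (P.has_sE g).inv
    · exact P.has_sE g

/-- Lemma A. -/
lemma wmap_prE_eq (w w' : List (Cg × Bool)) (h : wmap P.sE w = wmap P.sE w') :
    wmap P.prE w = wmap P.prE w' := by
  have h1 := P.lift_wmap (w ++ invW w')
  have h2 := P.os_wmap (w ++ invW w')
  rw [wmap_append, wmap_append, wmap_invW, wmap_invW, h, mul_inv_cancel] at h1
  rw [wmap_append, wmap_invW] at h2
  have := lemA _ h2.1 h1
  exact mul_inv_eq_one.mp this

/-! ### Locality -/

/-- the shift -/
def sh (x : P.Co) : P.Co := fun n => x (n + 1)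

def linked (x : P.Co) (i : ℕ) : Prop := ∃ y z, x i = some y ∧ x (i+1) = some z ∧ z.1 = P.S.nextL y.1

open Classical in
/-- truncation after the first run -/
noncomputable def trunc (x : P.Co) : P.Co := fun n => if (∀ i, i < n → P.linked x i) then x n else none

def Loc (h : Equiv.Perm P.Co) : Prop :=
  (∀ x, h (P.sh x) = P.sh (h x)) ∧ (∀ x, h (P.trunc x) = P.trunc (h x)) ∧ 
  (∀ x n, h x n = none ↔ x n = none)

variable {P} in
lemma Loc.one : P.Loc 1 := ⟨fun _ => rfl, fun _ => rfl, fun _ _ => Iff.rfl⟩

variable {P} in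
lemma Loc.mul {h k : Equiv.Perm P.Co} (hh : P.Loc h) (hk : P.Loc k) : P.Loc (h * k) :=
  ⟨fun x => by simp [hk.1, hh.1], fun x => by simp [hk.2.1, hh.2.1], 
    fun x n => by simp [hk.2.2, hh.2.2]⟩

variable {P} in
lemma Loc.inv {h : Equiv.Perm P.Co} (hh : P.Loc h) : P.Loc h⁻¹ := by
  refine ⟨fun x => ?_, fun x => ?_, fun x n => ?_⟩
  · rw [Equiv.Perm.inv_eq_iff_eq, hh.1]; simp
  · rw [Equiv.Perm.inv_eq_iff_eq, hh.2.1]; simp
  · have := hh.2.2 (h⁻¹ x) n
    rw [← this]; simp

lemma loc_of (h : Equiv.Perm P.Co) (g : P.Lb → P.Lb) (G : P.Lb × Reg K P.Lb → Option (P.Lb × Reg K P.Lb) → Reg K P.Lb)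
    (hinj : Function.Injective g) (hg : ∀ m, g (P.S.nextL m) = P.S.nextL (g m))
    (hG : ∀ y z, z.1 ≠ P.S.nextL y.1 → G y (some z) = G y none)
    (hh : ∀ x n, h x n = (x n).map (fun y => (g y.1, G y (x (n+1))))) : P.Loc h := by
  have hl : ∀ x i, P.linked (h x) i ↔ P.linked x i := by
    intro x i
    simp only [linked, hh]
    constructor
    · rintro ⟨y, z, h1, h2, h3⟩
      rw [Option.map_eq_some_iff] at h1 h2
      obtain ⟨y', hy', rfl⟩ := h1
      obtain ⟨z', hz', rfl⟩ := h2
      refine ⟨y', z', hy', hz', hinj ?_⟩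
      rw [hg]; exact h3
    · rintro ⟨y, z, h1, h2, h3⟩
      refine ⟨_, _, by rw [h1]; rfl, by rw [h2]; rfl, ?_⟩
      simp only [h3, hg]
  refine ⟨fun x => ?_, fun x => ?_, fun x n => ?_⟩
  · funext n
    rw [hh]
    simp only [sh, hh]
  · funext n
    rw [hh]
    simp only [trunc]
    by_cases hc : ∀ i, i < n → P.linked x i
    · have hc' : ∀ i, i < n → P.linked (h x) i := fun i hi => (hl x i).mpr (hc i hi)
      rw [if_pos hc, if_pos hc', hh]
      cases hx : x n with
      | none => rfl
      | some y => 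
        simp only [Option.map_some]
        congr 2
        by_cases hn : P.linked x n
        · rw [if_pos]
          intro i hi
          rcases Nat.lt_succ_iff_lt_or_eq.mp hi with h | rfl
          · exact hc i h
          · exact hn
        · rw [if_neg (fun h => hn (h n (Nat.lt_succ_self n)))]
          cases hx' : x (n+1) with
          | none => rfl
          | some z => 
            rw [hG y z]
            intro hz
            exact hn ⟨y, z, hx, hx', hz⟩
    · have hc' : ¬ ∀ i, i < n → P.linked (h x) i := fun h' => hc (fun i hi => (hl x i).mp (h' i hi))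
      rw [if_neg hc, if_neg hc']; rfl
  · rw [hh]; simp

lemma loc_actE (p : P.Lb → Prop) [DecidablePred p] (q : Gt K P.d × Bool) : P.Loc (actE P.S p q) := by
  refine P.loc_of _ id (fun y o => if p y.1 then gate P.S q y.2 (outC P.S y.1 o) else y.2)
    Function.injective_id (fun _ => rfl) ?_ (fun _ _ => rfl)
  intro y z h
  simp only [outC, if_neg h]

lemma loc_labE (τ : Cg × Bool) : P.Loc (labE P.S τ) := by
  refine P.loc_of _ (P.S.tau τ) (fun y _ => y.2) ?_ ?_ (fun _ _ _ => rfl) (fun _ _ => rfl)
  · intro a b h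
    have := congrArg (P.S.tau τ) h
    rwa [P.S.tau_tau, P.S.tau_tau] at this
  · intro m; rfl

lemma loc_sPart (g : Cg) (qs : List (Gt K P.d × Bool)) : P.Loc (P.sPart g qs) := by
  induction qs with
  | nil => exact Loc.one
  | cons q qs ih => exact ih.mul (P.loc_actE _ q)

lemma loc_sE (g : Cg) : P.Loc (P.sE g) :=
  ((P.loc_labE _).mul (P.loc_labE _)).mul (P.loc_sPart g _)

lemma loc_wmap (w : List (Cg × Bool)) : P.Loc (wmap P.sE w) := by
  induction w with
  | nil => exact Loc.one
  | cons a w ih => 
    rw [wmap_cons]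
    refine Loc.mul ?_ ih
    obtain ⟨g, b⟩ := a
    cases b
    · exact (P.loc_sE g).inv
    · exact P.loc_sE g

variable {P} in
lemma Loc.sh_iter {h : Equiv.Perm P.Co} (hh : P.Loc h) (x : P.Co) (n : ℕ) :
    h (fun i => x (i + n)) = fun i => h x (i + n) := by
  induction n generalizing x with
  | zero => rfl
  | succ n ih => 
    have h1 : (fun i => x (i + (n+1))) = (fun i => (P.sh x) (i + n)) := by
      funext i; simp only [sh]; congr 1
    rw [h1, ih, hh.1]
    funext i; simp only [sh]; congr 1

/-- Lemma B. -/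
lemma lemB (h : Equiv.Perm P.Co) (hh : P.Loc h) (hE : ∀ y, h (P.E y) = P.E y) : h = 1 := by
  have hlab : ∀ s u, h (P.lab s u) = P.lab s u := by
    intro s u
    have := hE (s, (P.pre s)⁻¹ u)
    simpa [E] using this
  -- the value at 0
  have key : ∀ y : P.Co, h y 0 = y 0 := by
    intro y
    cases hy : y 0 with
    | none => rw [hh.2.2]; exact hy
    | some z => 
      obtain ⟨⟨e, s⟩, r⟩ := z
      have h0 : ∀ x : P.Co, P.trunc x 0 = x 0 := by intro x; simp [trunc]
      rw [← h0 (h y), ← hh.2.1]
      -- labels along the run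
      have hrun : ∀ n, (∀ i, i < n → P.linked y i) → ∀ z, y n = some z → z.1 = (e + (n : ZMod 4), s) := by
        intro n
        induction n with
        | zero => intro _ z hz; rw [hy] at hz; cases hz; simp
        | succ n ih => 
          intro hl z hz
          obtain ⟨a, b, ha, hb, hab⟩ := hl n (Nat.lt_succ_self n)
          have h1 := ih (fun i hi => hl i (by omega)) a ha
          rw [hz] at hb; cases hb
          rw [hab, h1]
          simp only [S, Nat.cast_succ, add_assoc]
      set u : P.W := fun i => if i < e.val then some ⟨1, default, 1, 1⟩ else 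
        (P.trunc y (i - e.val)).map (fun z => z.2) with hu
      have hz : P.trunc y = fun i => P.lab s u (i + e.val) := by
        funext i
        simp only [lab, hu]
        rw [if_neg (by omega), Nat.add_sub_cancel]
        by_cases hc : ∀ j, j < i → P.linked y j
        · have : P.trunc y i = y i := by simp only [trunc]; rw [if_pos hc]
          rw [this]
          cases hyi : y i with
          | none => rfl
          | some z => 
            have := hrun i hc z hyi
            simp only [Option.map_some, Option.some.injEq]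
            ext1
            · simp only [this, Nat.cast_add, ZMod.natCast_val, ZMod.cast_id', id_eq]
              rw [add_comm]
            · rfl
        · have : P.trunc y i = none := by simp only [trunc]; rw [if_neg hc]
          rw [this]; rfl
      have : h (P.trunc y) = P.trunc y := by
        rw [hz, hh.sh_iter, hlab]
      rw [this, h0, hy]
  ext1 x
  funext n
  have h1 := key (fun i => x (i + n))
  rw [hh.sh_iter] at h1
  simpa using h1

lemma wmap_sE_eq (w w' : List (Cg × Bool)) (h : wmap P.sH w = wmap P.sH w') : 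
    wmap P.sE w = wmap P.sE w' := by
  have h1 := P.has_wmap (w ++ invW w')
  have h2 := P.loc_wmap (w ++ invW w')
  rw [wmap_append, wmap_invW, wmap_append, wmap_invW, h, mul_inv_cancel] at h1
  rw [wmap_append, wmap_invW] at h2
  have := P.lemB _ h2 h1
  exact mul_inv_eq_one.mp this

end Par

end Pool.H12FS
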