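import Pool.Agent.H12.FS.D

/-!
# Distortion.
-/

set_option autoImplicit false
set_option linter.unusedSectionVars false
set_option linter.unusedSimpArgs false

namespace Pool.H12FS

/-- word length in `Perm (Fin 6)` w.r.t. the rotation and the swap. -/
def hubGen : Cg → Equiv.Perm Cg := fun g => if g = 4 then finRotate 6 else if g = 5 then Equiv.swap 0 1 else 1

lemma exists_hub_word (π : Equiv.Perm Cg) : ∃ w : List (Cg × Bool), 
    (∀ a ∈ w, a.1 = 4 ∨ a.1 = 5) ∧ wmap hubGen w = π := by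
  have hcl : Subgroup.closure ({finRotate 6, Equiv.swap 0 ((finRotate 6) 0)} : Set (Equiv.Perm (Fin 6))) = ⊤ :=
    Equiv.Perm.closure_cycle_adjacent_swap isCycle_finRotate support_finRotate 0
  have hπ : π ∈ Subgroup.closure ({finRotate 6, Equiv.swap 0 ((finRotate 6) 0)} : Set (Equiv.Perm (Fin 6))) := by
    rw [hcl]; exact Subgroup.mem_top π
  induction hπ using Subgroup.closure_induction with
  | mem x hx => 
    rcases hx with rfl | hx
    · refine ⟨[(4, true)], by simp, ?_⟩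
      simp [wmap, hubGen]
    · simp only [Set.mem_singleton_iff] at hx
      subst hx
      refine ⟨[(5, true)], by simp, ?_⟩
      have h54 : (5 : Cg) ≠ 4 := by decide
      simp [wmap, hubGen, h54]
  | one => exact ⟨[], by simp, rfl⟩
  | mul x y _ _ hx hy => 
    obtain ⟨w, hw, rfl⟩ := hx
    obtain ⟨w', hw', rfl⟩ := hy
    refine ⟨w ++ w', ?_, wmap_append _ _ _⟩
    intro a ha
    rcases List.mem_append.mp ha with h | h
    · exact hw a h
    · exact hw' a h
  | inv x _ hx => 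
    obtain ⟨w, hw, rfl⟩ := hx
    refine ⟨invW w, ?_, wmap_invW _ _⟩
    intro a ha
    simp only [invW, List.mem_reverse, List.mem_map] at ha
    obtain ⟨b, hb, rfl⟩ := ha
    exact hw b hb

lemma exists_h0 : ∃ h0 : ℕ, ∀ π : Equiv.Perm Cg, ∃ w : List (Cg × Bool), w.length ≤ h0 ∧
    (∀ a ∈ w, a.1 = 4 ∨ a.1 = 5) ∧ wmap hubGen w = π := by
  choose w hw using exists_hub_word
  refine ⟨Finset.univ.sup (fun π => (w π).length), fun π => ⟨w π, ?_, hw π⟩⟩
  exact Finset.le_sup (f := fun π => (w π).length) (Finset.mem_univ π)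

/-- a bound for the hub words -/
noncomputable def h0 : ℕ := exists_h0.choose

lemma h0_spec (π : Equiv.Perm Cg) : ∃ w : List (Cg × Bool), w.length ≤ h0 ∧
    (∀ a ∈ w, a.1 = 4 ∨ a.1 = 5) ∧ wmap hubGen w = π := exists_h0.choose_spec π

lemma hub_dec : ∀ (x : Cg) (_ : x = 2 ∨ x = 3) (g : Cg) (_ : g ≠ 0) (c : Cg), 
    (c = x → ((Equiv.swap x g * Equiv.swap 1 0 : Equiv.Perm Cg)) c = g ∧ 
      ((Equiv.swap 0 g * (Equiv.swap x g * Equiv.swap 1 0) : Equiv.Perm Cg)) c = 0) ∧ 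
    (c = 1 → ((Equiv.swap x g * Equiv.swap 1 0 : Equiv.Perm Cg)) c = 0 ∧ 
      ((Equiv.swap 0 g * (Equiv.swap x g * Equiv.swap 1 0) : Equiv.Perm Cg)) c = g) ∧
    (c ≠ x → c ≠ 1 → ((Equiv.swap x g * Equiv.swap 1 0 : Equiv.Perm Cg)) c = 
      ((Equiv.swap 0 g * (Equiv.swap x g * Equiv.swap 1 0) : Equiv.Perm Cg)) c) := by
  decide

namespace Par
variable {K : Type} [Group K] [DecidableEq K] [Fintype K] (P : Par K)

/-- `k` is the value of a word of length at most `m` -/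
def WH (k : Equiv.Perm (P.St × P.W)) (m : ℕ) : Prop := 
  ∃ w : List (Cg × Bool), w.length ≤ m ∧ wmap P.sH w = k

variable {P} in
lemma WH.mono {k : Equiv.Perm (P.St × P.W)} {m n : ℕ} (h : P.WH k m) (hmn : m ≤ n) : P.WH k n := by
  obtain ⟨w, hw, h⟩ := h
  exact ⟨w, hw.trans hmn, h⟩

lemma WH_one : P.WH 1 0 := ⟨[], le_rfl, rfl⟩

lemma WH_gen (g : Cg) : P.WH (P.sH g) 1 := ⟨[(g, true)], le_rfl, by simp [wmap]⟩

variable {P} in
lemma WH.mul {k k' : Equiv.Perm (P.St × P.W)} {m n : ℕ} (h : P.WH k m) (h' : P.WH k' n) : 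
    P.WH (k * k') (m + n) := by
  obtain ⟨w, hw, rfl⟩ := h
  obtain ⟨w', hw', rfl⟩ := h'
  exact ⟨w ++ w', by simp only [List.length_append]; omega, wmap_append _ _ _⟩

variable {P} in
lemma WH.inv {k : Equiv.Perm (P.St × P.W)} {m : ℕ} (h : P.WH k m) : P.WH k⁻¹ m := by
  obtain ⟨w, hw, rfl⟩ := h
  exact ⟨invW w, by rwa [length_invW], wmap_invW _ _⟩

variable {P} in
lemma WH.pow {k : Equiv.Perm (P.St × P.W)} {m : ℕ} (h : P.WH k m) (n : ℕ) : P.WH (k ^ n) (n * m) := by
  induction n with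
  | zero => exact (P.WH_one).mono (by simp)
  | succ n ih => 
    rw [pow_succ]
    exact (ih.mul h).mono (by rw [Nat.succ_mul])

lemma WH_hub (π : Equiv.Perm Cg) : P.WH (P.hub π) h0 := by
  obtain ⟨w, hw, hl, rfl⟩ := h0_spec π
  refine ⟨w, hw, ?_⟩
  clear hw
  induction w with
  | nil => simp [wmap_nil, hub_one]
  | cons a w ih => 
    rw [wmap_cons, wmap_cons, hub_mul, ih (fun b hb => hl b (List.mem_cons_of_mem _ hb))]
    congr 1
    obtain ⟨g, b⟩ := a
    have hg : P.sH g = P.hub (hubGen g) := by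
      rcases hl (g, b) List.mem_cons_self with h | h
      · simp only at h; subst h; rw [sH_4]; simp [hubGen]
      · simp only at h; subst h; rw [sH_5]
        have h54 : (5 : Cg) ≠ 4 := by decide
        simp [hubGen, h54]
    cases b
    · simp [sg, hg, hub_inv]
    · simp [sg, hg]

/-! ### Shears -/

def Ph (β : Cg → Equiv.Perm P.W) : Equiv.Perm (P.St × P.W) := Equiv.prodShear 1 (fun s => β s.2.1)

def P0 (β : Cg → Equiv.Perm P.W) : Equiv.Perm (P.St × P.W) := 
  Equiv.prodShear 1 (fun s => if s.2.2 = 0 then β s.2.1 else 1)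

lemma Ph_apply (β : Cg → Equiv.Perm P.W) (l : ZMod P.Λ) (c : Cg) (t : ZMod P.T) (u : P.W) :
    P.Ph β ((l, c, t), u) = ((l, c, t), β c u) := rfl

lemma P0_apply (β : Cg → Equiv.Perm P.W) (l : ZMod P.Λ) (c : Cg) (t : ZMod P.T) (u : P.W) :
    P.P0 β ((l, c, t), u) = ((l, c, t), if t = 0 then β c u else u) := by
  change ((l, c, t), (if t = 0 then β c else 1) u) = _
  by_cases h : t = 0 <;> simp [h]

lemma Ph_mul (β β' : Cg → Equiv.Perm P.W) : P.Ph (β * β') = P.Ph β * P.Ph β' := by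
  ext1 ⟨⟨l, c, t⟩, u⟩
  simp [Ph_apply]

lemma P0_mul (β β' : Cg → Equiv.Perm P.W) : P.P0 (β * β') = P.P0 β * P.P0 β' := by
  ext1 ⟨⟨l, c, t⟩, u⟩
  by_cases h : t = 0 <;> simp [P0_apply, h]

lemma Ph_one : P.Ph 1 = 1 := by
  ext1 ⟨⟨l, c, t⟩, u⟩
  simp [Ph_apply]

lemma P0_one : P.P0 1 = 1 := by
  ext1 ⟨⟨l, c, t⟩, u⟩
  by_cases h : t = 0 <;> simp [P0_apply, h]

lemma Ph_inv (β : Cg → Equiv.Perm P.W) : P.Ph β⁻¹ = (P.Ph β)⁻¹ := by
  rw [eq_inv_iff_mul_eq_one, ← Ph_mul]; simp [Ph_one]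

lemma P0_inv (β : Cg → Equiv.Perm P.W) : P.P0 β⁻¹ = (P.P0 β)⁻¹ := by
  rw [eq_inv_iff_mul_eq_one, ← P0_mul]; simp [P0_one]

lemma Ph_pow (β : Cg → Equiv.Perm P.W) (n : ℕ) : P.Ph (β ^ n) = (P.Ph β) ^ n := by
  induction n with
  | zero => simp [Ph_one]
  | succ n ih => rw [pow_succ, pow_succ, Ph_mul, ih]

/-! ### Cycles -/

lemma cyc_T (θ : Equiv.Perm (P.St × P.W)) (c : Cg) (Q : Equiv.Perm P.W) 
    (h : ∀ l t u, θ ((l, c, t), u) = ((l, c, t+1), if t + 1 = 0 then Q u else u)) (l : ZMod P.Λ) (t : ZMod P.T)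
    (u : P.W) : (θ ^ P.T) ((l, c, t), u) = ((l, c, t), Q u) := by
  have key : ∀ j, j ≤ P.T → (θ ^ j) ((l, c, t), u) = ((l, c, t + (j : ZMod P.T)), if P.T ≤ t.val + j then Q u else u) := by
    intro j
    have hv := ZMod.val_lt t
    induction j with
    | zero => intro _; simp [not_le.mpr hv]
    | succ j ih => 
      intro hj
      rw [pow_succ', Equiv.Perm.mul_apply, ih (by omega), h]
      have e1 : t + (j : ZMod P.T) + 1 = t + ((j+1 : ℕ) : ZMod P.T) := by push_cast; ring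
      have e2 : (t + (j : ZMod P.T) + 1 = 0) ↔ (t.val + j) % P.T + 1 = P.T := by
        rw [succ_eq_zero, ZMod.val_add, ZMod.val_natCast, Nat.add_mod_mod]
      congr 1
      · rw [e1]
      · by_cases hc : P.T ≤ t.val + j
        · have h3 : (t.val + j) % P.T = t.val + j - P.T := by
            rw [Nat.mod_eq_sub_mod hc, Nat.mod_eq_of_lt (by omega)]
          have h4 : ¬ (t + (j : ZMod P.T) + 1 = 0) := by rw [e2, h3]; omega
          rw [if_neg h4, if_pos hc, if_pos (by omega)]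
        · have h3 : (t.val + j) % P.T = t.val + j := Nat.mod_eq_of_lt (by omega)
          rw [if_neg hc]
          by_cases h4 : t + (j : ZMod P.T) + 1 = 0
          · rw [if_pos h4, if_pos]
            rw [e2, h3] at h4; omega
          · rw [if_neg h4, if_neg]
            rw [e2, h3] at h4; omega
  have := key P.T le_rfl
  rw [this]
  simp

lemma cyc_Λ (θ : Equiv.Perm (P.St × P.W)) (c : Cg) (Q : Equiv.Perm P.W) 
    (h : ∀ l t u, θ ((l, c, t), u) = ((l+1, c, if l = 0 then t+1 else t), if l = 0 ∧ t + 1 = 0 then Q u else u)) 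
    (l : ZMod P.Λ) (t : ZMod P.T)
    (u : P.W) : (θ ^ P.Λ) ((l, c, t), u) = ((l, c, t+1), if t + 1 = 0 then Q u else u) := by
  classical
  have key : ∀ j, j ≤ P.Λ → (θ ^ j) ((l, c, t), u) = ((l + (j : ZMod P.Λ), c, 
      if (∃ i, i < j ∧ l + ((i : ℕ) : ZMod P.Λ) = 0) then t + 1 else t), 
      if (∃ i, i < j ∧ l + ((i : ℕ) : ZMod P.Λ) = 0) ∧ t + 1 = 0 then Q u else u) := by
    intro j
    induction j with
    | zero => intro _; simp
    | succ j ih => 
      intro hj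
      rw [pow_succ', Equiv.Perm.mul_apply, ih (by omega), h]
      have e1 : l + (j : ZMod P.Λ) + 1 = l + ((j+1 : ℕ) : ZMod P.Λ) := by push_cast; ring
      have e2 : (∃ i, i < j + 1 ∧ l + ((i : ℕ) : ZMod P.Λ) = 0) ↔ 
          ((∃ i, i < j ∧ l + ((i : ℕ) : ZMod P.Λ) = 0) ∨ l + (j : ZMod P.Λ) = 0) := by
        constructor
        · rintro ⟨i, hi, h⟩
          rcases Nat.lt_succ_iff_lt_or_eq.mp hi with h' | rfl
          · exact Or.inl ⟨i, h', h⟩
          · exact Or.inr h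
        · rintro (⟨i, hi, h⟩ | h)
          · exact ⟨i, by omega, h⟩
          · exact ⟨j, by omega, h⟩
      have e3 : (∃ i, i < j ∧ l + ((i : ℕ) : ZMod P.Λ) = 0) → l + (j : ZMod P.Λ) ≠ 0 := by
        rintro ⟨i, hi, h⟩ h'
        have : (i : ZMod P.Λ) = (j : ZMod P.Λ) := by
          have := h.trans h'.symm
          exact add_left_cancel this
        rw [ZMod.natCast_eq_natCast_iff'] at this
        rw [Nat.mod_eq_of_lt (by omega), Nat.mod_eq_of_lt (by omega)] at this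
        omega
      rw [e1]
      by_cases hp : ∃ i, i < j ∧ l + ((i : ℕ) : ZMod P.Λ) = 0
      · have hq := e3 hp
        have hp' : ∃ i, i < j + 1 ∧ l + ((i : ℕ) : ZMod P.Λ) = 0 := e2.mpr (Or.inl hp)
        simp only [hp, hq, hp', if_true, if_false, true_and, false_and]
      · by_cases hq : l + (j : ZMod P.Λ) = 0
        · have hp' : ∃ i, i < j + 1 ∧ l + ((i : ℕ) : ZMod P.Λ) = 0 := e2.mpr (Or.inr hq)
          simp only [hp, hq, hp', if_true, if_false, true_and, false_and]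
        · have hp' : ¬ ∃ i, i < j + 1 ∧ l + ((i : ℕ) : ZMod P.Λ) = 0 := by
            rw [e2]; push Not; exact ⟨by simpa using hp, hq⟩
          simp only [hp, hq, hp', if_true, if_false, true_and, false_and]
  have := key P.Λ le_rfl
  rw [this]
  have hex : ∃ i, i < P.Λ ∧ l + ((i : ℕ) : ZMod P.Λ) = 0 := by
    refine ⟨(-l).val, ZMod.val_lt _, ?_⟩
    rw [ZMod.natCast_val, ZMod.cast_id']
    simp
  simp [hex]

/-- period of the label dynamics -/
def N : ℕ := P.Λ * P.T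

/-- the distorted element -/
noncomputable def f : Equiv.Perm P.Co := P.sE 2

noncomputable def βf (a b : Equiv.Perm P.W) : Cg → Equiv.Perm P.W := fun c => 
  if c = 2 then a else if c = 3 then b else 1

lemma cyc_N (θ : Equiv.Perm (P.St × P.W)) (c : Cg) (Q : Equiv.Perm P.W) 
    (h : ∀ l t u, θ ((l, c, t), u) = ((l+1, c, if l = 0 then t+1 else t), if l = 0 ∧ t + 1 = 0 then Q u else u)) 
    (l : ZMod P.Λ) (t : ZMod P.T)
    (u : P.W) : (θ ^ P.N) ((l, c, t), u) = ((l, c, t), Q u) := by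
  rw [N, pow_mul]
  exact P.cyc_T _ c Q (P.cyc_Λ θ c Q h) l t u

lemma sH_f_N : (P.sH 2) ^ P.N = P.Ph (P.βf (P.prE 2) (P.prE 3)⁻¹) := by
  have h32 : (3 : Cg) ≠ 2 := by decide
  ext1 ⟨⟨l, c, t⟩, u⟩
  rw [Ph_apply]
  by_cases hc : c = 2
  · subst hc
    rw [P.cyc_N _ 2 (P.prE 2) (P.sH_f 2 (Or.inl rfl))]
    simp [βf]
  · by_cases hc' : c = 3
    · subst hc'
      have := P.cyc_N (P.sH 2)⁻¹ 3 (P.prE 3) (fun l t u => by
        rw [Equiv.Perm.inv_eq_iff_eq]
        exact (P.sH_f' 2 (Or.inl rfl) l t u).symm) l t ((P.prE 3)⁻¹ u)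
      rw [inv_pow, Equiv.Perm.inv_eq_iff_eq] at this
      simp only [βf, h32, if_false, if_true]
      rw [this]
      simp
    · have hfix : ∀ n : ℕ, ((P.sH 2) ^ n) ((l, c, t), u) = ((l, c, t), u) := by
        intro n
        induction n with
        | zero => rfl
        | succ n ih => rw [pow_succ', Equiv.Perm.mul_apply, ih, P.sH_f'' 2 (Or.inl rfl) l c hc hc']
      rw [hfix]
      simp [βf, hc, hc']

lemma tick_T : (P.sH 1) ^ P.T = P.Ph P.prE := by
  ext1 ⟨⟨l, c, t⟩, u⟩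
  rw [P.cyc_T _ c (P.prE c) (fun l t u => P.sH_tick l c t u), Ph_apply]

lemma prE_0 : P.prE 0 = 1 := by
  have h1 : wmap P.sE [(0, true)] = wmap P.sE [] := by
    apply P.wmap_sE_eq
    simp [wmap, sE_0]
  have := P.wmap_prE_eq _ _ h1
  simpa [wmap] using this

noncomputable def Bπ (π : Equiv.Perm Cg) : Equiv.Perm (P.St × P.W) := (P.hub π)⁻¹ * (P.sH 1) ^ P.T * P.hub π

lemma WH_B (π : Equiv.Perm Cg) : P.WH (P.Bπ π) (P.T + 2 * h0) :=
  ((((P.WH_hub π).inv.mul ((P.WH_gen 1).pow P.T)).mul (P.WH_hub π))).mono (by omega)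

lemma Bπ_apply (π : Equiv.Perm Cg) (l : ZMod P.Λ) (c : Cg) (t : ZMod P.T) (u : P.W) :
    P.Bπ π ((l, c, t), u) = ((l, c, t), P.prE (if t = 0 then π c else c) u) := by
  simp only [Bπ, tick_T, Equiv.Perm.coe_mul, Function.comp_apply, hub_apply, Ph_apply]
  rw [Equiv.Perm.inv_eq_iff_eq, hub_apply]

lemma Bπ_inv_apply (π : Equiv.Perm Cg) (l : ZMod P.Λ) (c : Cg) (t : ZMod P.T) (u : P.W) :
    (P.Bπ π)⁻¹ ((l, c, t), u) = ((l, c, t), (P.prE (if t = 0 then π c else c))⁻¹ u) := by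
  rw [Equiv.Perm.inv_eq_iff_eq, Bπ_apply]
  simp

def βA (x : Cg) (a b : Equiv.Perm P.W) : Cg → Equiv.Perm P.W := fun c => 
  if c = x then a else if c = 1 then b else 1

lemma WH_A (x : Cg) (hx : x = 2 ∨ x = 3) (g : Cg) : 
    P.WH (P.P0 (P.βA x (P.prE g) (P.prE g)⁻¹)) (2 * (P.T + 2 * h0)) := by
  by_cases hg : g = 0
  · have : P.βA x (P.prE g) (P.prE g)⁻¹ = 1 := by
      subst hg
      funext c; simp [βA, prE_0]
    rw [this, P0_one]
    exact P.WH_one.mono (by simp)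
  set π := Equiv.swap x g * Equiv.swap 1 0 with hπ
  set π' := Equiv.swap 0 g * π with hπ'
  have h1 := ((P.WH_B π).mul (P.WH_B π').inv).mono (show _ ≤ 2 * (P.T + 2 * h0) by omega)
  convert h1 using 1
  have hd : ∀ c : Cg, (c = x → π c = g ∧ π' c = 0) ∧ (c = 1 → π c = 0 ∧ π' c = g) ∧
      (c ≠ x → c ≠ 1 → π c = π' c) := hub_dec x hx g hg
  have hx1 : x ≠ 1 := by rcases hx with rfl | rfl <;> decide
  ext1 ⟨⟨l, c, t⟩, u⟩
  rw [Equiv.Perm.mul_apply, Bπ_inv_apply, Bπ_apply, P0_apply]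
  congr 1
  by_cases ht : t = 0
  · simp only [ht, if_true]
    obtain ⟨ha, hb, hc⟩ := hd c
    by_cases h : c = x
    · rw [(ha h).1, (ha h).2, prE_0]
      simp [βA, h]
    · by_cases h' : c = 1
      · rw [(hb h').1, (hb h').2, prE_0]
        simp [βA, h', hx1.symm]
      · rw [hc h h']
        simp [βA, h, h']
  · simp [ht]

lemma βA_mul (x : Cg) (a b a' b' : Equiv.Perm P.W) : P.βA x (a * a') (b * b') = P.βA x a b * P.βA x a' b' := by
  funext c
  simp only [βA, Pi.mul_apply]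
  split_ifs <;> simp

lemma βA_inv (x : Cg) (a b : Equiv.Perm P.W) : P.βA x a⁻¹ b⁻¹ = (P.βA x a b)⁻¹ := by
  funext c
  simp only [βA, Pi.inv_apply]
  split_ifs <;> simp

lemma WH_Aw (x : Cg) (hx : x = 2 ∨ x = 3) (w : List (Cg × Bool)) : 
    P.WH (P.P0 (P.βA x (wmap P.prE w) (wmap (fun g => (P.prE g)⁻¹) w))) 
      (w.length * (2 * (P.T + 2 * h0))) := by
  induction w with
  | nil => 
    have : P.βA x (wmap P.prE []) (wmap (fun g => (P.prE g)⁻¹) []) = 1 := by
      funext c; simp [βA, wmap]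
    rw [this, P0_one]
    exact P.WH_one.mono (by simp)
  | cons a w ih => 
    rw [wmap_cons, wmap_cons, βA_mul, P0_mul]
    have ha : P.WH (P.P0 (P.βA x (sg a.2 (P.prE a.1)) (sg a.2 (P.prE a.1)⁻¹))) (2 * (P.T + 2 * h0)) := by
      obtain ⟨g, b⟩ := a
      cases b
      · simp only [sg_false]
        rw [βA_inv, P0_inv]
        exact (P.WH_A x hx g).inv
      · simp only [sg_true]
        exact P.WH_A x hx g
    refine (ha.mul ih).mono (le_of_eq ?_)
    rw [List.length_cons]; ring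

/-- The key construction. -/
lemma WH_key (w : List (Cg × Bool)) : 
    P.WH (P.Ph (P.βf (wmap P.prE w) (wmap P.prE w)⁻¹)) 
      (4 * P.T * (P.T + 2 * h0) * w.length + 2 * P.T) := by
  have h2 := P.WH_Aw 2 (Or.inl rfl) w
  have h3 := P.WH_Aw 3 (Or.inr rfl) w
  have h4 := h2.mul h3.inv
  rw [← P0_inv, ← P0_mul] at h4
  have hβ : P.βA 2 (wmap P.prE w) (wmap (fun g => (P.prE g)⁻¹) w) * 
      (P.βA 3 (wmap P.prE w) (wmap (fun g => (P.prE g)⁻¹) w))⁻¹ = P.βf (wmap P.prE w) (wmap P.prE w)⁻¹ := by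
    funext c
    have h23 : (2 : Cg) ≠ 3 := by decide
    have h32 : (3 : Cg) ≠ 2 := by decide
    have h21 : (2 : Cg) ≠ 1 := by decide
    have h31 : (3 : Cg) ≠ 1 := by decide
    have h12 : (1 : Cg) ≠ 2 := by decide
    have h13 : (1 : Cg) ≠ 3 := by decide
    simp only [βA, βf, Pi.mul_apply, Pi.inv_apply]
    by_cases hc2 : c = 2
    · subst hc2; simp [h23, h21]
    · by_cases hc3 : c = 3
      · subst hc3; simp [h32, h31]
      · by_cases hc1 : c = 1
        · subst hc1; simp [h12, h13]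
        · simp [hc1, hc2, hc3]
  rw [hβ] at h4
  have h5 := ((h4.mul (P.WH_gen 1)).pow P.T).mul ((P.WH_gen 1).pow P.T).inv
  have h6 : (P.P0 (P.βf (wmap P.prE w) (wmap P.prE w)⁻¹) * P.sH 1) ^ P.T * ((P.sH 1) ^ P.T)⁻¹ = 
      P.Ph (P.βf (wmap P.prE w) (wmap P.prE w)⁻¹) := by
    rw [mul_inv_eq_iff_eq_mul, tick_T, ← Ph_mul]
    ext1 ⟨⟨l, c, t⟩, u⟩
    rw [Ph_apply]
    apply P.cyc_T
    intro l t u
    rw [Equiv.Perm.mul_apply, sH_tick, P0_apply]
    by_cases ht : t + 1 = 0 <;> simp [ht]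
  rw [h6] at h5
  refine h5.mono (le_of_eq ?_)
  ring

/-- The recursion for the word length of the powers of `f`. -/
lemma rec_len (w : List (Cg × Bool)) (n : ℕ) (h : wmap P.sE w = P.f ^ n) :
    ∃ w' : List (Cg × Bool), w'.length ≤ 4 * P.T * (P.T + 2 * h0) * w.length + 2 * P.T ∧
      wmap P.sE w' = P.f ^ (P.N * n) := by
  obtain ⟨w', hw', h'⟩ := P.WH_key w
  refine ⟨w', hw', ?_⟩
  have hrep : ∀ (g : Cg) (m : ℕ), wmap P.sE (List.replicate m (g, true)) = P.sE g ^ m := by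
    intro g m; simp [wmap]
  have hrepP : ∀ (g : Cg) (m : ℕ), wmap P.prE (List.replicate m (g, true)) = P.prE g ^ m := by
    intro g m; simp [wmap]
  have hrepH : ∀ (g : Cg) (m : ℕ), wmap P.sH (List.replicate m (g, true)) = P.sH g ^ m := by
    intro g m; simp [wmap]
  have hw2 : wmap P.prE w = P.prE 2 ^ n := by
    rw [← hrepP]
    apply P.wmap_prE_eq
    rw [h, hrep]; rfl
  have h23 : P.prE 3 = P.prE 2 := by
    have h1 : wmap P.sE [(3, true)] = wmap P.sE [(2, true)] := by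
      apply P.wmap_sE_eq
      simp only [wmap, List.map_cons, List.map_nil, List.prod_cons, List.prod_nil, sg_true, mul_one]
      -- the two copies of `f` act in the same way
      have h23' : (2 : Cg) ≠ 3 := by decide
      ext1 ⟨⟨l, c, t⟩, u⟩
      by_cases hc : c = 2
      · subst hc; rw [P.sH_f 3 (Or.inr rfl), P.sH_f 2 (Or.inl rfl)]
      · by_cases hc' : c = 3
        · subst hc'
          have e3 := P.sH_f' 3 (Or.inr rfl) (l - 1) (if l - 1 = 0 then t - 1 else t) 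
            (if l - 1 = 0 ∧ (if l - 1 = 0 then t - 1 else t) + 1 = 0 then (P.prE 3)⁻¹ u else u)
          have e2 := P.sH_f' 2 (Or.inl rfl) (l - 1) (if l - 1 = 0 then t - 1 else t) 
            (if l - 1 = 0 ∧ (if l - 1 = 0 then t - 1 else t) + 1 = 0 then (P.prE 3)⁻¹ u else u)
          have ea : ((l - 1 + 1, (3 : Cg), if l - 1 = 0 then (if l - 1 = 0 then t - 1 else t) + 1 else 
              (if l - 1 = 0 then t - 1 else t)) : P.St) = (l, 3, t) := by
            by_cases hl : l - 1 = 0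
            · have hl1 : l = 1 := sub_eq_zero.mp hl
              subst hl1; simp
            · simp [hl]
          have eb : (if l - 1 = 0 ∧ (if l - 1 = 0 then t - 1 else t) + 1 = 0 then P.prE 3 
              (if l - 1 = 0 ∧ (if l - 1 = 0 then t - 1 else t) + 1 = 0 then (P.prE 3)⁻¹ u else u) else 
              (if l - 1 = 0 ∧ (if l - 1 = 0 then t - 1 else t) + 1 = 0 then (P.prE 3)⁻¹ u else u)) = u := by
            by_cases hl : l - 1 = 0 ∧ (if l - 1 = 0 then t - 1 else t) + 1 = 0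
            · simp only [if_pos hl]; simp
            · simp only [if_neg hl]
          rw [ea, eb] at e2 e3
          rw [e2, e3]
        · rw [P.sH_f'' 3 (Or.inr rfl) l c hc hc', P.sH_f'' 2 (Or.inl rfl) l c hc hc']
    have := P.wmap_prE_eq _ _ h1
    simpa [wmap] using this
  have hfn : (P.sH 2) ^ (P.N * n) = P.Ph (P.βf (wmap P.prE w) (wmap P.prE w)⁻¹) := by
    rw [pow_mul, sH_f_N, ← Ph_pow, h23, hw2]
    congr 1
    funext c
    simp only [βf, Pi.pow_apply]
    split_ifs <;> simp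
  have : wmap P.sE w' = wmap P.sE (List.replicate (P.N * n) (2, true)) := by
    apply P.wmap_sE_eq
    rw [h', hrepH, hfn]
  rw [this, hrep]; rfl

/-! ### Infinite order -/

lemma label_pow (n : ℕ) (l : ZMod P.Λ) (t : ZMod P.T) (u : P.W) : 
    (((P.sH 2) ^ n) ((l, 2, t), u)).1.1 = l + (n : ZMod P.Λ) ∧ (((P.sH 2) ^ n) ((l, 2, t), u)).1.2.1 = 2 := by
  induction n with
  | zero => simp
  | succ n ih => 
    rw [pow_succ', Equiv.Perm.mul_apply]
    rcases hx : ((P.sH 2) ^ n) ((l, 2, t), u) with ⟨⟨l', c', t'⟩, u'⟩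
    rw [hx] at ih
    simp only at ih
    obtain ⟨h1, h2⟩ := ih
    subst h2
    rw [P.sH_f 2 (Or.inl rfl)]
    simp [h1, add_assoc]

lemma label_powΛ (n : ℕ) (l : ZMod P.Λ) (t : ZMod P.T) (u : P.W) : 
    (((P.sH 2) ^ (P.Λ * n)) ((l, 2, t), u)).1 = (l, 2, t + (n : ZMod P.T)) := by
  induction n with
  | zero => simp
  | succ n ih => 
    rw [Nat.mul_succ, add_comm, pow_add, Equiv.Perm.mul_apply]
    rcases hx : ((P.sH 2) ^ (P.Λ * n)) ((l, 2, t), u) with ⟨⟨l', c', t'⟩, u'⟩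
    rw [hx] at ih
    simp only [Prod.mk.injEq] at ih
    obtain ⟨h1, h2, h3⟩ := ih
    subst h2
    rw [P.cyc_Λ _ 2 (P.prE 2) (P.sH_f 2 (Or.inl rfl))]
    simp [h1, h3, add_assoc]

lemma fN_apply (q : ℕ) (s : P.St) (hs : s.2.1 = 2) (u : P.W) : 
    ((P.sH 2) ^ (P.N * q)) (s, u) = (s, (P.prE 2 ^ q) u) := by
  obtain ⟨l, c, t⟩ := s
  simp only at hs
  subst hs
  rw [pow_mul, sH_f_N, ← Ph_pow, Ph_apply]
  simp [βf]

/-- full streams detect the label -/
lemma lab_label (s s' : P.St) (u v : P.W) (hu : (u 0).isSome) (h : P.lab s u = P.lab s' v) : s = s' := by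
  have := congrFun h 0
  simp only [lab] at this
  cases hu0 : u 0 with
  | none => simp [hu0] at hu
  | some r => 
    cases hv0 : v 0 with
    | none => simp [hu0, hv0] at this
    | some r' => 
      simp only [hu0, hv0, Option.map_some, Option.some.injEq, Prod.mk.injEq] at this
      exact this.1.2

lemma isSome_stepF (I : Ins K P.d) (u : P.W) (n : ℕ) : (stepF P.S I u n).isSome = (u n).isSome := by
  simp only [stepF]
  split_ifs <;> simp

lemma isSome_runE (l : List (Ins K P.d)) (u : P.W) (n : ℕ) : (runE P.S l u n).isSome = (u n).isSome := by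
  induction l generalizing u with
  | nil => rfl
  | cons I l ih => 
    simp only [runE, Equiv.Perm.mul_apply]
    rw [ih, stepE_apply, isSome_stepF]

lemma f_pow_ne_one : ∀ m : ℕ, 0 < m → P.f ^ m ≠ 1 := by
  intro m
  induction m using Nat.strong_induction_on with
  | _ m ih => 
  intro hm hf
  have hHas : P.Has (P.f ^ m) ((P.sH 2) ^ m) := (P.has_sE 2).pow m
  have hEE : ∀ y, P.E (((P.sH 2) ^ m) y) = P.E y := by
    intro y
    rw [← hHas y, hf]; rfl
  -- labels
  have hlabel : ∀ s : P.St, s.2.1 = 2 → (((P.sH 2) ^ m) (s, fun _ => some ⟨1, default, 1, 1⟩)).1 = s := by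
    intro s hs
    have h1 := hEE (s, fun _ => some ⟨1, default, 1, 1⟩)
    unfold E at h1
    refine (P.lab_label _ _ _ _ ?_ h1.symm).symm
    simp only [pre]
    rw [isSome_runE]; rfl
  have h1 := hlabel (0, 2, 0) rfl
  have hΛ : P.Λ ∣ m := by
    have := (P.label_pow m 0 0 (fun _ => some ⟨1, default, 1, 1⟩)).1
    rw [h1] at this
    simp only [zero_add] at this
    exact (ZMod.natCast_eq_zero_iff m P.Λ).mp this.symm
  obtain ⟨m', rfl⟩ := hΛ
  have hT : P.T ∣ m' := by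
    have := P.label_powΛ m' 0 0 (fun _ => some ⟨1, default, 1, 1⟩)
    rw [h1] at this
    simp only [zero_add, Prod.mk.injEq, true_and] at this
    exact (ZMod.natCast_eq_zero_iff m' P.T).mp this.symm
  obtain ⟨q, rfl⟩ := hT
  have hNq : P.Λ * (P.T * q) = P.N * q := by rw [N, mul_assoc]
  rw [hNq] at hf hEE hm
  have hT1 := P.hT
  have hΛ2 := P.hΛ
  have hq : 0 < q := Nat.pos_of_mul_pos_left hm
  -- the section is trivial
  have hsec : ∀ u : P.W, (P.prE 2 ^ q) u = u := by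
    intro u
    have h1 := hEE (((0, 2, 0) : P.St), u)
    rw [P.fN_apply q (0, 2, 0) rfl] at h1
    unfold E at h1
    have h2 := P.lab_inj _ h1
    exact (P.pre _).injective h2
  have hfq : P.f ^ q = 1 := by
    ext1 x
    obtain ⟨u, rfl⟩ := Dec_surj x
    have hl : Lift (⇑(wmap P.prE (List.replicate q (2, true)))) (⇑(wmap P.sE (List.replicate q (2, true)))) := 
      P.lift_wmap _
    have e1 : wmap P.prE (List.replicate q (2, true)) = P.prE 2 ^ q := by simp [wmap]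
    have e2 : wmap P.sE (List.replicate q (2, true)) = P.f ^ q := by simp [wmap, f]
    rw [e1, e2] at hl
    rw [← hl.2 u, hsec u]; rfl
  apply ih q _ hq hfq
  have : 2 * q ≤ P.Λ * (P.T * q) := Nat.mul_le_mul hΛ2 (Nat.le_mul_of_pos_left _ hT1)
  omega

end Par

end Pool.H12FS
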