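import Pool.Agent.H12.FS.E

/-!
# Existence of the parameters.
-/

set_option autoImplicit false
set_option linter.unusedSectionVars false
set_option linter.unusedSimpArgs false

namespace Pool.H12FS

open scoped commutatorElement

/-! ### The group `A₅` -/

abbrev A5 := alternatingGroup (Fin 5)

lemma prodC_append {K : Type} [Group K] (ps qs : List (K × K)) : prodC (ps ++ qs) = prodC qs * prodC ps := by
  induction ps with
  | nil => simp [prodC]
  | cons p ps ih => simp [prodC, ih, mul_assoc]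

lemma prodC_rev {K : Type} [Group K] (ps : List (K × K)) : 
    prodC ((ps.map (fun p => (p.2, p.1))).reverse) = (prodC ps)⁻¹ := by
  induction ps with
  | nil => simp [prodC]
  | cons p ps ih => 
    rw [List.map_cons, List.reverse_cons, prodC_append, ih]
    simp [prodC, mul_assoc]

lemma exists_comms {K : Type} [Group K] (h : commutator K = ⊤) (σ : K) : ∃ ps : List (K × K), prodC ps = σ := by
  have hσ : σ ∈ Subgroup.closure (commutatorSet K) := by
    rw [← commutator_eq_closure, h]; exact Subgroup.mem_top σ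
  induction hσ using Subgroup.closure_induction with
  | mem x hx => 
    obtain ⟨a, b, rfl⟩ := hx
    exact ⟨[(a, b)], by simp [prodC, commutatorElement_def]⟩
  | one => exact ⟨[], rfl⟩
  | mul x y _ _ hx hy => 
    obtain ⟨ps, rfl⟩ := hx
    obtain ⟨qs, rfl⟩ := hy
    exact ⟨qs ++ ps, prodC_append _ _⟩
  | inv x _ hx => 
    obtain ⟨ps, rfl⟩ := hx
    exact ⟨_, prodC_rev ps⟩

lemma A5_perfect : commutator A5 = ⊤ := by
  have hs : IsSimpleGroup A5 := alternatingGroup.isSimpleGroup (by simp)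
  rcases (inferInstance : (commutator A5).Normal).eq_bot_or_eq_top with h | h
  · exfalso
    have hc : ∀ a b : A5, a * b = b * a := by
      intro a b
      have : ⁅a, b⁆ ∈ commutator A5 := Subgroup.commutator_mem_commutator (Subgroup.mem_top a) (Subgroup.mem_top b)
      rw [h, Subgroup.mem_bot, commutatorElement_eq_one_iff_mul_comm] at this
      exact this
    have h1 : (Equiv.swap (0 : Fin 5) 1 * Equiv.swap 2 3) ∈ A5 := by
      rw [Equiv.Perm.mem_alternatingGroup]; decide
    have h2 : (Equiv.swap (0 : Fin 5) 1 * Equiv.swap 1 2) ∈ A5 := by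
      rw [Equiv.Perm.mem_alternatingGroup]; decide
    have h3 := congrArg Subtype.val (hc ⟨_, h1⟩ ⟨_, h2⟩)
    simp only [Subgroup.coe_mul] at h3
    revert h3
    decide
  · exact h

def s0A : A5 := ⟨Equiv.swap (0 : Fin 5) 1 * Equiv.swap 2 3, by rw [Equiv.Perm.mem_alternatingGroup]; decide⟩

lemma s0A_mul : s0A * s0A = 1 := by
  apply Subtype.ext
  simp only [s0A, Subgroup.coe_mul, Subgroup.coe_one]
  decide

lemma s0A_ne : s0A ≠ 1 := by
  intro h
  have := congrArg Subtype.val h
  simp only [s0A, Subgroup.coe_one] at this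
  revert this
  decide

noncomputable def GDA : GD A5 where
  M0 := (Finset.univ.sup (fun σ : A5 => (exists_comms A5_perfect σ).choose.length)) + 1
  M0_pos := by omega
  comms := fun σ => (exists_comms A5_perfect σ).choose
  comms_len := fun σ => by
    have := Finset.le_sup (f := fun σ : A5 => (exists_comms A5_perfect σ).choose.length) (Finset.mem_univ σ)
    omega
  comms_spec := fun σ => (exists_comms A5_perfect σ).choose_spec
  s0 := s0A
  s0_mul := s0A_mul
  chi := fun k => decide (Fintype.equivFin A5 k < Fintype.equivFin A5 (s0A * k))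
  chi_s0 := fun k => by
    have h1 : s0A * (s0A * k) = k := by rw [← mul_assoc, s0A_mul, one_mul]
    have h2 : Fintype.equivFin A5 k ≠ Fintype.equivFin A5 (s0A * k) := by
      intro h
      have := (Fintype.equivFin A5).injective h
      apply s0A_ne
      exact (right_eq_mul.mp this)
    rw [h1]
    rcases lt_or_gt_of_ne h2 with h | h
    · simp [h, le_of_lt h]
    · simp [h, le_of_lt h]

/-! ### Cost bounds -/

section
variable {K : Type} {d : ℕ} [Group K] [DecidableEq K] [Fintype K] (D : GD K)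

lemma card_EN : Fintype.card (EN K d) ≤ 2 + Fintype.card K + 8 * 2 ^ d := by
  let F : EN K d → Unit ⊕ K ⊕ Unit ⊕ Bt d ⊕ Bt d ⊕ (Cg × Bt d) := fun e => match e with
    | .one => Sum.inl ()
    | .kd a => Sum.inr (Sum.inl a)
    | .chi => Sum.inr (Sum.inr (Sum.inl ()))
    | .lb j => Sum.inr (Sum.inr (Sum.inr (Sum.inl j)))
    | .nb j => Sum.inr (Sum.inr (Sum.inr (Sum.inr (Sum.inl j))))
    | .cd g j => Sum.inr (Sum.inr (Sum.inr (Sum.inr (Sum.inr (g, j)))))
  have hF : Function.Injective F := by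
    intro a b h
    cases a <;> cases b <;> simp_all [F]
  have := Fintype.card_le_of_injective F hF
  simp only [Fintype.card_sum, Fintype.card_prod, Fintype.card_unit, Fintype.card_fin, Fintype.card_pi, 
    Fintype.card_bool, Finset.prod_const, Finset.card_univ] at this
  omega

lemma card_Gt : Fintype.card (Gt K d) ≤ 27 + (2 + Fintype.card K + 8 * 2 ^ d) * Fintype.card K := by
  let F : Gt K d → Fin 3 ⊕ (EN K d × K) ⊕ (Cg × Bool) ⊕ (Cg × Bool) := fun e => match e with
    | .C => Sum.inl 0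
    | .P => Sum.inl 1
    | .M => Sum.inl 2
    | .V E σ => Sum.inr (Sum.inl (E, σ))
    | .X τ => Sum.inr (Sum.inr (Sum.inl τ))
    | .Y τ => Sum.inr (Sum.inr (Sum.inr τ))
  have hF : Function.Injective F := by
    intro a b h
    cases a <;> cases b <;> simp_all [F]
  have := Fintype.card_le_of_injective F hF
  simp only [Fintype.card_sum, Fintype.card_prod, Fintype.card_fin, 
    Fintype.card_bool] at this
  have h2 := card_EN (K := K) (d := d)
  have h3 : Fintype.card (EN K d) * Fintype.card K ≤ (2 + Fintype.card K + 8 * 2 ^ d) * Fintype.card K :=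
    Nat.mul_le_mul_right _ h2
  omega

lemma cost_bigAnd (m : ℕ) (f : (Fin m → Bool) → BE K d) (c : ℕ) (h : ∀ j, cost D (f j) ≤ c) :
    cost D (bigAnd m f) ≤ (4 * D.M0) ^ m * c := by
  induction m with
  | zero => simpa [bigAnd] using h _
  | succ m ih => 
    simp only [bigAnd, cost]
    have h1 := ih (fun j => f (Fin.cons true j)) (fun j => h _)
    have h2 := ih (fun j => f (Fin.cons false j)) (fun j => h _)
    calc D.M0 * (2 * _ + 2 * _) ≤ D.M0 * (2 * ((4 * D.M0) ^ m * c) + 2 * ((4 * D.M0) ^ m * c)) := by gcongr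
      _ = (4 * D.M0) ^ (m+1) * c := by ring

lemma cost_lit (E : EN K d) (b : Bool) : cost D (lit E b) ≤ 2 := by
  cases b <;> simp [lit, cost]

lemma cost_lopc (codeG : Option (Gt K d × Bool) → Bt d → Bool) (g : Cg) (q : Gt K d × Bool) :
    cost D (lopc codeG g q) ≤ 2 * (4 * D.M0) ^ d := by
  rw [mul_comm]
  exact cost_bigAnd D d _ 2 (fun _ => cost_lit D _ _)

lemma b_and {F G : BE K d} {X a b : ℕ} (hF : cost D F ≤ a * X) (hG : cost D G ≤ b * X) : 
    cost D (BE.and F G) ≤ (D.M0 * (2 * a + 2 * b)) * X := by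
  simp only [cost]
  calc D.M0 * (2 * cost D F + 2 * cost D G) ≤ D.M0 * (2 * (a * X) + 2 * (b * X)) := by gcongr
    _ = _ := by ring

lemma b_nx {F : BE K d} {X a : ℕ} (hX : 1 ≤ X) (hF : cost D F ≤ a * X) : 
    cost D (BE.nx F) ≤ (6 + 4 * a) * X := by
  simp only [cost]
  calc 6 + 4 * cost D F ≤ 6 * X + 4 * (a * X) := by gcongr; omega
    _ = _ := by ring

lemma b_at0 (E : EN K d) {X : ℕ} (hX : 1 ≤ X) : cost D (BE.at0 E) ≤ 1 * X := by
  simp only [cost]; omega

/-- cost of the equality test of one bit -/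
def cEq (M0 : ℕ) : ℕ := M0 * (2 * (M0 * (2 * 1 + 2 * 766) + 1) + 2 * (M0 * (2 * 2 + 2 * 767) + 1)) + 1

lemma cost_eq (E E' : EN K d) : cost D (eqv (BE.at0 E) (nx4 (BE.at0 E'))) ≤ cEq D.M0 := by
  simp only [eqv, nx4, cost, cEq]
  norm_num

def cC (M0 : ℕ) : ℕ := M0 * (2 * 2 + 2 * (M0 * (2 * 10 + 2 * (M0 * (2 * 766 + 2 * cEq M0)))))

lemma cost_condC (codeG : Option (Gt K d × Bool) → Bt d → Bool) (g : Cg) (b : Bool) (a : K) :
    cost D (condC codeG g b a) ≤ cC D.M0 * (4 * D.M0) ^ d := by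
  have hX : 1 ≤ (4 * D.M0) ^ d := Nat.one_le_pow _ _ (by have := D.M0_pos; omega)
  refine b_and D (cost_lopc D _ _ _) (b_and D ?_ (b_and D ?_ ?_))
  · exact b_nx D hX (b_at0 D _ hX)
  · exact b_nx D hX (b_nx D hX (b_nx D hX (b_nx D hX (b_at0 D _ hX))))
  · rw [mul_comm]
    exact cost_bigAnd D d _ _ (fun _ => cost_eq D _ _)

def cP (M0 : ℕ) : ℕ := M0 * (2 * (6 + 4 * (6 + 4 * 2)) + 2 * (6 + 4 * 1))

lemma cost_condP (codeG : Option (Gt K d × Bool) → Bt d → Bool) (g : Cg) (b : Bool) (a : K) :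
    cost D (condP codeG g b a) ≤ cP D.M0 * (4 * D.M0) ^ d := by
  have hX : 1 ≤ (4 * D.M0) ^ d := Nat.one_le_pow _ _ (by have := D.M0_pos; omega)
  exact b_and D (b_nx D hX (b_nx D hX (cost_lopc D _ _ _))) (b_nx D hX (b_at0 D _ hX))

lemma cost_condM (codeG : Option (Gt K d × Bool) → Bt d → Bool) (g : Cg) (b : Bool) (a : K) :
    cost D (condM codeG g b a) ≤ (D.M0 * (2 * (6 + 4 * 2) + 2 * 1)) * (4 * D.M0) ^ d := by
  have hX : 1 ≤ (4 * D.M0) ^ d := Nat.one_le_pow _ _ (by have := D.M0_pos; omega)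
  exact b_and D (b_nx D hX (cost_lopc D _ _ _)) (b_at0 D _ hX)

lemma cost_condV (codeG : Option (Gt K d × Bool) → Bt d → Bool) (g : Cg) (b : Bool) (E : EN K d) (σ : K) :
    cost D (condV codeG g b E σ) ≤ (D.M0 * (2 * (6 + 4 * (6 + 4 * 2)) + 2 * 1)) * (4 * D.M0) ^ d := by
  have hX : 1 ≤ (4 * D.M0) ^ d := Nat.one_le_pow _ _ (by have := D.M0_pos; omega)
  exact b_and D (b_nx D hX (b_nx D hX (cost_lopc D _ _ _))) (b_at0 D _ hX)

lemma cost_condX (codeG : Option (Gt K d × Bool) → Bt d → Bool) (g : Cg) (b : Bool) (τ : Cg × Bool) :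
    cost D (condX codeG g b τ) ≤ (D.M0 * (2 * (6 + 4 * 2) + 2 * 1)) * (4 * D.M0) ^ d := by
  have hX : 1 ≤ (4 * D.M0) ^ d := Nat.one_le_pow _ _ (by have := D.M0_pos; omega)
  exact b_and D (b_nx D hX (cost_lopc D _ _ _)) (b_at0 D _ hX)

lemma cost_condY (codeG : Option (Gt K d × Bool) → Bt d → Bool) (g : Cg) (b : Bool) (τ : Cg × Bool) :
    cost D (condY codeG g b τ) ≤ (6 + 4 * 2) * (4 * D.M0) ^ d := by
  have hX : 1 ≤ (4 * D.M0) ^ d := Nat.one_le_pow _ _ (by have := D.M0_pos; omega)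
  exact b_nx D hX (cost_lopc D _ _ _)

/-- a bound for all the constants -/
def cAll (M0 : ℕ) : ℕ := cC M0 + cP M0 + M0 * (2 * (6 + 4 * 2) + 2 * 1) + 
  M0 * (2 * (6 + 4 * (6 + 4 * 2)) + 2 * 1) + (6 + 4 * 2)

lemma length_flatMap_le {α β : Type} (l : List α) (f : α → List β) (c : ℕ) (h : ∀ a, (f a).length ≤ c) :
    (l.flatMap f).length ≤ l.length * c := by
  induction l with
  | nil => simp
  | cons a l ih => 
    simp only [List.flatMap_cons, List.length_append, List.length_cons]
    have := h a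
    calc _ ≤ c + l.length * c := by gcongr
      _ = _ := by ring

lemma length_mac (codeG : Option (Gt K d × Bool) → Bt d → Bool) (g : Cg) (q : Gt K d × Bool) :
    (mac D codeG g q).length ≤ (Fintype.card K * (6 + 4 * cAll D.M0)) * (4 * D.M0) ^ d := by
  have hX : 1 ≤ (4 * D.M0) ^ d := Nat.one_le_pow _ _ (by have := D.M0_pos; omega)
  have hK : 1 ≤ Fintype.card K := Fintype.card_pos
  have key : ∀ (F : BE K d) (c : ℕ), cost D F ≤ c * (4 * D.M0) ^ d → c ≤ cAll D.M0 → 
      6 + 4 * cost D F ≤ (6 + 4 * cAll D.M0) * (4 * D.M0) ^ d := by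
    intro F c h1 h2
    calc 6 + 4 * cost D F ≤ 6 * (4 * D.M0) ^ d + 4 * (c * (4 * D.M0) ^ d) := by gcongr; omega
      _ ≤ 6 * (4 * D.M0) ^ d + 4 * (cAll D.M0 * (4 * D.M0) ^ d) := by gcongr
      _ = _ := by ring
  have hone : (6 + 4 * cAll D.M0) * (4 * D.M0) ^ d ≤ (Fintype.card K * (6 + 4 * cAll D.M0)) * (4 * D.M0) ^ d := by
    gcongr
    exact Nat.le_mul_of_pos_left _ hK
  have hlist : ((Finset.univ : Finset K).toList).length = Fintype.card K := by
    rw [Finset.length_toList, Finset.card_univ]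
  obtain ⟨t, b⟩ := q
  cases t with
  | C => 
    simp only [mac]
    refine (length_flatMap_le _ _ ((6 + 4 * cAll D.M0) * (4 * D.M0) ^ d) (fun a => ?_)).trans (le_of_eq ?_)
    · exact (length_mkL D _ _ _).trans (key _ _ (cost_condC D codeG g b a) (by unfold cAll; omega))
    · rw [hlist]; ring
  | P => 
    simp only [mac]
    refine (length_flatMap_le _ _ ((6 + 4 * cAll D.M0) * (4 * D.M0) ^ d) (fun a => ?_)).trans (le_of_eq ?_)
    · exact (length_mkL D _ _ _).trans (key _ _ (cost_condP D codeG g b a) (by unfold cAll; omega))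
    · rw [hlist]; ring
  | M => 
    simp only [mac]
    refine (length_flatMap_le _ _ ((6 + 4 * cAll D.M0) * (4 * D.M0) ^ d) (fun a => ?_)).trans (le_of_eq ?_)
    · exact (length_mkL D _ _ _).trans (key _ _ (cost_condM D codeG g b a) (by unfold cAll; omega))
    · rw [hlist]; ring
  | V E σ => 
    exact ((length_mkL D _ _ _).trans (key _ _ (cost_condV D codeG g b E σ) (by unfold cAll; omega))).trans hone
  | X τ => 
    exact ((length_xmL D _ _ _).trans (key _ _ (cost_condX D codeG g b τ) (by unfold cAll; omega))).trans hone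
  | Y τ => 
    exact ((length_xmL D _ _ _).trans (key _ _ (cost_condY D codeG g b τ) (by unfold cAll; omega))).trans hone

/-- constant for the number of gates -/
def cG (κ : ℕ) : ℕ := (27 + (2 + κ + 8) * κ) * 2

lemma card_Gt2 : Fintype.card (Gt K d × Bool) ≤ cG (Fintype.card K) * 2 ^ d := by
  rw [Fintype.card_prod, Fintype.card_bool]
  have h := card_Gt (K := K) (d := d)
  have h2 : 1 ≤ 2 ^ d := Nat.one_le_two_pow
  calc Fintype.card (Gt K d) * 2 ≤ (27 + (2 + Fintype.card K + 8 * 2 ^ d) * Fintype.card K) * 2 := by gcongr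
    _ ≤ (27 * 2 ^ d + ((2 + Fintype.card K) * 2 ^ d + 8 * 2 ^ d) * Fintype.card K) * 2 := by
      gcongr
      · omega
      · exact Nat.le_mul_of_pos_right _ h2
    _ = _ := by unfold cG; ring

lemma length_progL (codeG : Option (Gt K d × Bool) → Bt d → Bool) (g : Cg) :
    (progL D codeG g).length ≤ 
      (cG (Fintype.card K) * (Fintype.card K * (6 + 4 * cAll D.M0)) + 2) * (8 * D.M0) ^ d := by
  have hX : 1 ≤ (8 * D.M0) ^ d := Nat.one_le_pow _ _ (by have := D.M0_pos; omega)
  unfold progL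
  rw [List.length_append]
  have h1 := length_flatMap_le (Finset.univ : Finset (Gt K d × Bool)).toList (mac D codeG g) _ 
    (fun q => length_mac D codeG g q)
  rw [Finset.length_toList, Finset.card_univ] at h1
  have h2 := card_Gt2 (K := K) (d := d)
  calc _ ≤ (cG (Fintype.card K) * 2 ^ d) * ((Fintype.card K * (6 + 4 * cAll D.M0)) * (4 * D.M0) ^ d) + 2 * (8 * D.M0) ^ d := by
        refine add_le_add (h1.trans ?_) ?_
        · gcongr
        · simp only [List.length_cons, List.length_nil]; omega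
    _ = _ := by
        have : (8 * D.M0) ^ d = 2 ^ d * (4 * D.M0) ^ d := by
          rw [← mul_pow]; congr 1; ring
        rw [this]; ring

end

lemma exists_d (a b : ℕ) : ∃ d : ℕ, a + b * d ≤ 2 ^ d := by
  refine ⟨2 * (a + 2 * b + 1), ?_⟩
  set e := a + 2 * b + 1 with he
  have h1 : e + 1 ≤ 2 ^ e := Nat.lt_two_pow_self
  have h2 : 2 ^ (2 * e) = 2 ^ e * 2 ^ e := by rw [two_mul, pow_add]
  rw [h2]
  calc a + b * (2 * e) ≤ (e + 1) * (e + 1) := by nlinarith
    _ ≤ 2 ^ e * 2 ^ e := Nat.mul_le_mul h1 h1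

/-- The parameters exist, with the recursion constant smaller than the period. -/
theorem exists_par {K : Type} [Group K] [DecidableEq K] [Fintype K] (D : GD K) : 
    ∃ P : Par K, 4 * P.T * (P.T + 2 * h0) < P.N := by
  classical
  -- constants
  set A := cG (Fintype.card K) * (Fintype.card K * (6 + 4 * cAll D.M0)) + 2 with hA
  set B := 8 * D.M0 with hB
  set Q := (24 * (6 + 8 * h0)) * ((A + 1) * (A + 1)) + (cG (Fintype.card K) + 1) with hQ
  obtain ⟨a, ha⟩ : ∃ a, Q ≤ 2 ^ a := ⟨Q, Nat.lt_two_pow_self.le⟩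
  obtain ⟨b, hb⟩ : ∃ b, B * B ≤ 2 ^ b := ⟨B * B, Nat.lt_two_pow_self.le⟩
  obtain ⟨d, hd⟩ := exists_d a b
  have hM0 := D.M0_pos
  have hmain : Q * (B * B) ^ d ≤ 2 ^ (2 ^ d) := by
    calc Q * (B * B) ^ d ≤ 2 ^ a * (2 ^ b) ^ d := by gcongr
      _ = 2 ^ (a + b * d) := by rw [pow_add, pow_mul]
      _ ≤ 2 ^ (2 ^ d) := Nat.pow_le_pow_right (by norm_num) hd
  -- codeG
  have hcard : Fintype.card (Option (Gt K d × Bool)) ≤ Fintype.card (Bt d → Bool) := by
    rw [Fintype.card_option]
    have h1 : Fintype.card (Bt d → Bool) = 2 ^ (2 ^ d) := by simp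
    rw [h1]
    have h2 : 2 ^ d ≤ (B * B) ^ d := by gcongr; nlinarith
    have h3 : 1 ≤ (B * B) ^ d := Nat.one_le_pow _ _ (by positivity)
    calc Fintype.card (Gt K d × Bool) + 1 ≤ cG (Fintype.card K) * 2 ^ d + 1 := by
          gcongr; exact card_Gt2
      _ ≤ cG (Fintype.card K) * (B * B) ^ d + 1 * (B * B) ^ d := by gcongr; omega
      _ = (cG (Fintype.card K) + 1) * (B * B) ^ d := by ring
      _ ≤ Q * (B * B) ^ d := by gcongr; omega
      _ ≤ _ := hmain
  obtain ⟨codeG⟩ := Function.Embedding.nonempty_of_card_le hcard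
  -- T
  set T := (Finset.univ.sup (fun g : Cg => (progL D codeG g).length)) + 1 with hT
  have hTB : T ≤ A * B ^ d + 1 := by
    rw [hT]
    gcongr
    apply Finset.sup_le
    intro g _
    exact length_progL D codeG g
  have hT1 : 1 ≤ T := by omega
  have hlen : ∀ g, (progL D codeG g).length ≤ T := fun g => by
    have := Finset.le_sup (f := fun g : Cg => (progL D codeG g).length) (Finset.mem_univ g)
    omega
  have hBd : 1 ≤ B ^ d := Nat.one_le_pow _ _ (by omega)
  have hTB' : T ≤ (A + 1) * B ^ d := by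
    calc T ≤ A * B ^ d + 1 := hTB
      _ ≤ A * B ^ d + B ^ d := by gcongr
      _ = _ := by ring
  set Λ := 4 * T + 8 * h0 + 2 with hΛ
  have : NeZero Λ := ⟨by omega⟩
  have : NeZero T := ⟨by omega⟩
  have hcard2 : Fintype.card (ZMod 4 × ZMod Λ × Cg × ZMod T) ≤ Fintype.card (Bt d → Bool) := by
    have h1 : Fintype.card (Bt d → Bool) = 2 ^ (2 ^ d) := by simp
    have h2 : Fintype.card (ZMod 4 × ZMod Λ × Cg × ZMod T) = 4 * (Λ * (6 * T)) := by
      simp only [Fintype.card_prod, ZMod.card, Fintype.card_fin]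
    rw [h1, h2]
    calc 4 * (Λ * (6 * T)) = 24 * (4 * T + 8 * h0 + 2) * T := by rw [hΛ]; ring
      _ ≤ 24 * ((6 + 8 * h0) * T) * T := by
        gcongr
        nlinarith
      _ = 24 * (6 + 8 * h0) * (T * T) := by ring
      _ ≤ 24 * (6 + 8 * h0) * (((A + 1) * B ^ d) * ((A + 1) * B ^ d)) := by gcongr
      _ = (24 * (6 + 8 * h0) * ((A + 1) * (A + 1))) * (B * B) ^ d := by
        have e : (B * B) ^ d = B ^ d * B ^ d := mul_pow B B d
        rw [e]; generalize B ^ d = X; ring
      _ ≤ Q * (B * B) ^ d := by gcongr; omega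
      _ ≤ _ := hmain
  obtain ⟨codeL⟩ := Function.Embedding.nonempty_of_card_le hcard2
  refine ⟨⟨D, d, Λ, T, by omega, hT1, codeG, codeG.injective, codeL, codeL.injective, hlen⟩, ?_⟩
  change 4 * T * (T + 2 * h0) < Λ * T
  calc 4 * T * (T + 2 * h0) = (4 * T + 8 * h0) * T := by ring
    _ < Λ * T := by
      apply Nat.mul_lt_mul_of_pos_right _ (by omega)
      omega

end Pool.H12FS
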