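import Pool.Agent.H12.FS.F

/-!
# Sublinear growth, and transport to the alphabets `Fin k`.
-/

set_option autoImplicit false
set_option linter.unusedSectionVars false
set_option linter.unusedSimpArgs false

namespace Pool.H12FS

namespace Par
variable {K : Type} [Group K] [DecidableEq K] [Fintype K] (P : Par K)

lemma wmap_replicate {G : Type} [Group G] (f : Cg → G) (g : Cg) (m : ℕ) : 
    wmap f (List.replicate m (g, true)) = f g ^ m := by simp [wmap]

/-- Power saving for the word length of `f^n`. -/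
theorem power_bound (hP : 4 * P.T * (P.T + 2 * h0) < P.N) : 
    ∃ α : ℝ, 0 < α ∧ α < 1 ∧ ∃ A : ℝ, 0 ≤ A ∧ ∀ n : ℕ, 
      ∃ w : List (Cg × Bool), (w.length : ℝ) ≤ A * (n : ℝ) ^ α ∧ wmap P.sE w = P.f ^ n := by
  set K0 := 4 * P.T * (P.T + 2 * h0) with hK0
  have hT1 := P.hT
  have hK4 : 4 ≤ K0 := by
    rw [hK0]
    calc 4 = 4 * 1 * 1 := by norm_num
      _ ≤ _ := by gcongr; omega
  have hN0 : 0 < P.N := by omega
  have hKr : (4 : ℝ) ≤ (K0 : ℝ) := by exact_mod_cast hK4
  have hKN : (K0 : ℝ) < (P.N : ℝ) := by exact_mod_cast hP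
  have hlogK : 0 < Real.log K0 := Real.log_pos (by linarith)
  have hlogN : 0 < Real.log P.N := Real.log_pos (by linarith)
  set α := Real.log K0 / Real.log P.N with hα
  have hα0 : 0 < α := div_pos hlogK hlogN
  have hα1 : α < 1 := by
    rw [hα, div_lt_one hlogN]
    exact Real.log_lt_log (by linarith) hKN
  have hNα : (P.N : ℝ) ^ α = K0 := by
    rw [Real.rpow_def_of_pos (by linarith), hα, mul_div_cancel₀ _ hlogN.ne']
    exact Real.exp_log (by linarith)
  set c : ℝ := 2 * P.T + P.N with hc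
  have hc0 : 0 ≤ c := by positivity
  set B : ℝ := c / (K0 - 1) with hB
  have hB0 : 0 ≤ B := div_nonneg hc0 (by linarith)
  have hBc : B * (K0 - 1) = c := by rw [hB]; exact div_mul_cancel₀ c (by linarith)
  set A : ℝ := P.N + B with hA
  have hA0 : 0 ≤ A := by positivity
  refine ⟨α, hα0, hα1, A, hA0, ?_⟩
  have key : ∀ n : ℕ, 1 ≤ n → 
      ∃ w : List (Cg × Bool), (w.length : ℝ) ≤ A * (n : ℝ) ^ α - B ∧ wmap P.sE w = P.f ^ n := by
    intro n
    induction n using Nat.strong_induction_on with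
    | _ n ih => 
    intro hn
    by_cases hnN : n < P.N
    · refine ⟨List.replicate n (2, true), ?_, wmap_replicate _ _ _⟩
      rw [List.length_replicate]
      have h1 : (1 : ℝ) ≤ (n : ℝ) ^ α := Real.one_le_rpow (by exact_mod_cast hn) hα0.le
      have h2 : (n : ℝ) ≤ P.N := by exact_mod_cast hnN.le
      calc (n : ℝ) ≤ A * 1 - B := by rw [hA]; linarith
        _ ≤ A * (n : ℝ) ^ α - B := by gcongr
    · push Not at hnN
      have hq1 : 1 ≤ n / P.N := (Nat.one_le_div_iff hN0).mpr hnN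
      have hqn : n / P.N < n := Nat.div_lt_self (by omega) (by omega)
      obtain ⟨w, hw, hwf⟩ := ih (n / P.N) hqn hq1
      obtain ⟨w', hw', hwf'⟩ := P.rec_len w (n / P.N) hwf
      refine ⟨w' ++ List.replicate (n % P.N) (2, true), ?_, ?_⟩
      · rw [List.length_append, List.length_replicate]
        push_cast
        have h1 : (w'.length : ℝ) ≤ K0 * w.length + 2 * P.T := by exact_mod_cast hw'
        have h2 : ((n % P.N : ℕ) : ℝ) ≤ P.N := by exact_mod_cast (Nat.mod_lt n hN0).le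
        have h3 : ((n / P.N : ℕ) : ℝ) ^ α ≤ ((n : ℝ) / P.N) ^ α := 
          Real.rpow_le_rpow (by positivity) Nat.cast_div_le hα0.le
        have h4 : ((n : ℝ) / P.N) ^ α = (n : ℝ) ^ α / K0 := by
          rw [Real.div_rpow (by positivity) (by positivity), hNα]
        have h5 : K0 * (A * ((n / P.N : ℕ) : ℝ) ^ α) ≤ A * (n : ℝ) ^ α := by
          calc K0 * (A * ((n / P.N : ℕ) : ℝ) ^ α) ≤ K0 * (A * ((n : ℝ) ^ α / K0)) := by
                gcongr; rw [← h4]; exact h3
            _ = A * (n : ℝ) ^ α := by field_simp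
        have h6 : (K0 : ℝ) * w.length ≤ K0 * (A * ((n / P.N : ℕ) : ℝ) ^ α - B) := by
          gcongr
        calc (w'.length : ℝ) + ((n % P.N : ℕ) : ℝ) ≤ K0 * w.length + 2 * P.T + P.N := by linarith
          _ ≤ K0 * (A * ((n / P.N : ℕ) : ℝ) ^ α - B) + 2 * P.T + P.N := by linarith
          _ = K0 * (A * ((n / P.N : ℕ) : ℝ) ^ α) - K0 * B + c := by rw [hc]; ring
          _ ≤ A * (n : ℝ) ^ α - K0 * B + c := by linarith
          _ = A * (n : ℝ) ^ α - B := by rw [← hBc]; ring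
      · rw [wmap_append, hwf', wmap_replicate]
        change P.f ^ _ * P.f ^ _ = _
        rw [← pow_add, Nat.div_add_mod]
  intro n
  rcases Nat.eq_zero_or_pos n with rfl | hn
  · refine ⟨[], ?_, by simp [wmap]⟩
    simp [Real.zero_rpow hα0.ne']
  · obtain ⟨w, hw, h⟩ := key n hn
    exact ⟨w, by linarith, h⟩

/-! ### Finite range -/

def FR (h : P.Co → P.Co) : Prop := ∀ n, ∃ m, ∀ x y : P.Co, (∀ i, i ≤ m → x i = y i) → h x n = h y n

variable {P} in
lemma FR.comp {h k : P.Co → P.Co} (hh : P.FR h) (hk : P.FR k) : P.FR (h ∘ k) := by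
  intro n
  obtain ⟨m, hm⟩ := hh n
  choose M hM using hk
  refine ⟨(Finset.range (m+1)).sup M, fun x y hxy => ?_⟩
  apply hm
  intro i hi
  apply hM
  intro j hj
  apply hxy
  exact hj.trans (Finset.le_sup (f := M) (Finset.mem_range.mpr (by omega)))

lemma FR_one : P.FR (⇑(1 : Equiv.Perm P.Co)) := fun n => ⟨n, fun x y h => h n le_rfl⟩

lemma FR_actE (p : P.Lb → Prop) [DecidablePred p] (q : Gt K P.d × Bool) : P.FR (actE P.S p q) := by
  intro n
  refine ⟨n+1, fun x y h => ?_⟩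
  simp only [actE_apply, actF, h n (by omega), h (n+1) le_rfl]

lemma FR_labE (τ : Cg × Bool) : P.FR (labE P.S τ) := by
  intro n
  refine ⟨n, fun x y h => ?_⟩
  change labF P.S τ x n = labF P.S τ y n
  simp only [labF, h n le_rfl]

lemma FR_sPart (g : Cg) (qs : List (Gt K P.d × Bool)) : P.FR (P.sPart g qs) := by
  induction qs with
  | nil => exact P.FR_one
  | cons q qs ih => exact ih.comp (P.FR_actE _ q)

lemma FR_sE (g : Cg) : P.FR (P.sE g) :=
  ((P.FR_labE _).comp (P.FR_labE _)).comp (P.FR_sPart g _)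

/-! ### Adding inert letters -/

/-- blank preserving permutations -/
def BP : Subgroup (Equiv.Perm P.Co) where
  carrier := {h | ∀ x n, h x n = none ↔ x n = none}
  one_mem' := fun _ _ => Iff.rfl
  mul_mem' := fun {a b} ha hb x n => by
    simp only [Set.mem_ofPred_eq] at ha hb
    rw [Equiv.Perm.mul_apply, ha, hb]
  inv_mem' := fun {a} ha x n => by
    simp only [Set.mem_ofPred_eq] at ha
    have := ha (a⁻¹ x) n
    rw [← this]; simp

variable (Z : Type)

/-- the extended alphabet -/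
abbrev Al := (P.Lb × Reg K P.Lb) ⊕ Z

variable {Z}

def fgt (x : ℕ → P.Al Z) : P.Co := fun n => (x n).elim some (fun _ => none)

/-- lift of a map to the extended alphabet -/
def lf (h : P.Co → P.Co) (x : ℕ → P.Al Z) : ℕ → P.Al Z := fun n => 
  Sum.elim (fun y => Sum.inl ((h (P.fgt x) n).getD y)) Sum.inr (x n)

lemma fgt_lf (h : Equiv.Perm P.Co) (hh : h ∈ P.BP) (x : ℕ → P.Al Z) : P.fgt (P.lf h x) = h (P.fgt x) := by
  funext n
  have hb := hh (P.fgt x) n
  have h1 : P.fgt (P.lf h x) n = Sum.elim some (fun _ => none) 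
    (Sum.elim (fun y => Sum.inl ((h (P.fgt x) n).getD y)) Sum.inr (x n) : P.Al Z) := rfl
  have h2 : P.fgt x n = Sum.elim some (fun _ => none) (x n) := rfl
  rw [h1]
  rw [h2] at hb
  cases hx : x n with
  | inr z => 
    rw [hx] at hb
    exact (hb.mpr rfl).symm
  | inl y => 
    rw [hx] at hb
    simp only [Sum.elim_inl, reduceCtorEq, iff_false] at hb ⊢
    cases hv : h (P.fgt x) n with
    | none => exact absurd hv hb
    | some y' => rfl

lemma lf_mul (h k : Equiv.Perm P.Co) (hh : h ∈ P.BP) (hk : k ∈ P.BP) (x : ℕ → P.Al Z) : 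
    P.lf (⇑(h * k)) x = P.lf h (P.lf k x) := by
  funext n
  have h1 : P.fgt (P.lf k x) = k (P.fgt x) := P.fgt_lf k hk x
  have h2 := hk (P.fgt x) n
  have h2' := hh (k (P.fgt x)) n
  have h3 : P.lf (⇑(h * k)) x n = Sum.elim (fun y => Sum.inl ((h (k (P.fgt x)) n).getD y)) Sum.inr (x n) := rfl
  have h4 : P.lf h (P.lf k x) n = Sum.elim (fun y => Sum.inl ((h (P.fgt (P.lf k x)) n).getD y)) Sum.inr 
     (Sum.elim (fun y => Sum.inl ((k (P.fgt x) n).getD y)) Sum.inr (x n) : P.Al Z) := rfl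
  rw [h3, h4, h1]
  cases hx : x n with
  | inr z => rfl
  | inl y => 
    simp only [Sum.elim_inl]
    have h5 : P.fgt x n = some y := by simp [fgt, hx]
    rw [h5] at h2
    cases hw : h (k (P.fgt x)) n with
    | some y'' => rfl
    | none => 
      rw [h2', h2] at hw
      exact absurd hw (by simp)

lemma lf_one (x : ℕ → P.Al Z) : P.lf (⇑(1 : Equiv.Perm P.Co)) x = x := by
  funext n
  have h3 : P.lf (⇑(1 : Equiv.Perm P.Co)) x n = Sum.elim (fun y => Sum.inl ((P.fgt x n).getD y)) Sum.inr (x n) := rfl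
  rw [h3]
  cases hx : x n with
  | inr z => rfl
  | inl y => simp [fgt, hx]

/-- the lift as a group homomorphism -/
def lfHom : P.BP →* Equiv.Perm (ℕ → P.Al Z) where
  toFun := fun h => 
    { toFun := P.lf h.1
      invFun := P.lf (⇑(h.1⁻¹ : Equiv.Perm P.Co))
      left_inv := fun x => by
        rw [← P.lf_mul _ _ (P.BP.inv_mem h.2) h.2, inv_mul_cancel, lf_one]
      right_inv := fun x => by
        rw [← P.lf_mul _ _ h.2 (P.BP.inv_mem h.2), mul_inv_cancel, lf_one] }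
  map_one' := by
    ext1 x
    exact P.lf_one x
  map_mul' := fun h k => by
    ext1 x
    exact P.lf_mul h.1 k.1 h.2 k.2 x

lemma lfHom_apply (h : P.BP) (x : ℕ → P.Al Z) : P.lfHom h x = P.lf h.1 x := rfl

lemma lfHom_inj [Nonempty Z] : Function.Injective (P.lfHom (Z := Z)) := by
  rw [injective_iff_map_eq_one]
  intro h hh
  ext1
  ext1 x
  obtain ⟨z0⟩ := ‹Nonempty Z›
  set x' : ℕ → P.Al Z := fun n => (x n).elim (Sum.inr z0) Sum.inl with hx'
  have h1 : P.fgt x' = x := by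
    funext n
    simp only [fgt, hx']
    cases x n <;> rfl
  have h2 : P.lf h.1 x' = x' := by
    rw [← lfHom_apply, hh]; rfl
  have h3 := P.fgt_lf h.1 h.2 x'
  rw [h2, h1] at h3
  exact h3.symm

lemma mem_BP (w : List (Cg × Bool)) : wmap P.sE w ∈ P.BP := (P.loc_wmap w).2.2

lemma sE_mem_BP (g : Cg) : P.sE g ∈ P.BP := (P.loc_sE g).2.2

/-- lifted generators -/
noncomputable def gZ (Z : Type) (g : Cg) : Equiv.Perm (ℕ → P.Al Z) := P.lfHom ⟨P.sE g, P.sE_mem_BP g⟩

lemma wmap_gZ (w : List (Cg × Bool)) : wmap (P.gZ Z) w = P.lfHom ⟨wmap P.sE w, P.mem_BP w⟩ := by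
  induction w with
  | nil => 
    rw [wmap_nil]
    exact (map_one P.lfHom).symm
  | cons a w ih => 
    rw [wmap_cons, ih]
    obtain ⟨g, b⟩ := a
    have : (⟨wmap P.sE ((g, b) :: w), P.mem_BP _⟩ : P.BP) = 
        (if b then ⟨P.sE g, P.sE_mem_BP g⟩ else (⟨P.sE g, P.sE_mem_BP g⟩ : P.BP)⁻¹) * ⟨wmap P.sE w, P.mem_BP w⟩ := by
      apply Subtype.ext
      change wmap P.sE ((g, b) :: w) = _
      rw [wmap_cons]
      cases b <;> simp [sg]
    rw [this, map_mul]
    congr 1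
    cases b
    · simp only [sg_false, Bool.false_eq_true, if_false, map_inv]; rfl
    · simp only [sg_true, if_true]; rfl

lemma gZ_apply (g : Cg) (x : ℕ → P.Al Z) (n : ℕ) : 
    P.gZ Z g x n = Sum.elim (fun y => Sum.inl ((P.sE g (P.fgt x) n).getD y)) Sum.inr (x n) := rfl

lemma gZ_shift (g : Cg) (x : ℕ → P.Al Z) : P.gZ Z g (fun n => x (n+1)) = fun n => P.gZ Z g x (n+1) := by
  funext n
  rw [gZ_apply, gZ_apply]
  have h1 : P.fgt (fun n => x (n+1)) = P.sh (P.fgt x) := rfl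
  rw [h1, (P.loc_sE g).1]; rfl

lemma gZ_range (g : Cg) (n : ℕ) : ∃ m, ∀ x y : ℕ → P.Al Z, (∀ i, i ≤ m → x i = y i) → P.gZ Z g x n = P.gZ Z g y n := by
  obtain ⟨m, hm⟩ := P.FR_sE g n
  refine ⟨max m n, fun x y h => ?_⟩
  rw [gZ_apply, gZ_apply, h n (le_max_right _ _)]
  rw [hm (P.fgt x) (P.fgt y)]
  intro i hi
  simp only [fgt, h i (hi.trans (le_max_left _ _))]

lemma gZ_pow_ne [Nonempty Z] (m : ℕ) (hm : 0 < m) : (P.gZ Z 2) ^ m ≠ 1 := by
  intro h
  have h1 : (P.gZ Z 2) ^ m = P.lfHom (⟨P.sE 2, P.sE_mem_BP 2⟩ ^ m) := by rw [map_pow]; rfl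
  rw [h1, ← map_one (P.lfHom (Z := Z))] at h
  have h2 := P.lfHom_inj h
  have h3 := congrArg Subtype.val h2
  exact P.f_pow_ne_one m hm h3

end Par

/-- finite range maps of a product of finite discrete spaces are continuous -/
lemma continuous_of_range {A : Type} [TopologicalSpace A] [DiscreteTopology A] (F : (ℕ → A) → (ℕ → A)) 
    (h : ∀ n, ∃ m, ∀ x y : ℕ → A, (∀ i, i ≤ m → x i = y i) → F x n = F y n) : Continuous F := by
  refine continuous_pi (fun n => ?_)
  obtain ⟨m, hm⟩ := h n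
  apply IsLocallyConstant.continuous
  rw [IsLocallyConstant.iff_exists_open]
  intro x
  refine ⟨⋂ i ∈ Finset.range (m+1), (fun y : ℕ → A => y i) ⁻¹' {x i}, ?_, ?_, ?_⟩
  · apply isOpen_biInter_finset
    intro i _
    exact (isOpen_discrete _).preimage (continuous_apply i)
  · simp
  · intro y hy
    simp only [Set.mem_iInter, Finset.mem_range, Set.mem_preimage, Set.mem_singleton_iff] at hy
    exact hm y x (fun i hi => hy i (by omega))

theorem full_shift_distortion : ∃ k₀ : ℕ, ∀ k : ℕ, k₀ ≤ k →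
    ∃ (S : Finset (Equiv.Perm (ℕ → Fin k))) (g : Equiv.Perm (ℕ → Fin k)), g ∈ S ∧
      (∀ h ∈ S, Continuous h ∧ ∀ x : ℕ → Fin k, h (fun n => x (n + 1)) = fun n => h x (n + 1)) ∧
      ¬ IsOfFinOrder g ∧
      ∃ α : ℝ, 0 < α ∧ α < 1 ∧ ∃ A : ℝ, 0 ≤ A ∧ ∀ n : ℕ, ∃ l : List (Equiv.Perm (ℕ → Fin k)), 
        (l.length : ℝ) ≤ A * (n : ℝ) ^ α ∧ (∀ h ∈ l, h ∈ S ∨ h⁻¹ ∈ S) ∧ l.prod = g ^ n := by
  classical
  obtain ⟨P, hP⟩ := exists_par GDA
  have hfin : Finite (P.Lb × Reg A5 P.Lb) := by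
    have h1 : Finite P.Lb := inferInstance
    have h2 : Finite (Reg A5 P.Lb) := by
      refine Finite.of_injective (β := A5 × P.Lb × A5 × A5) (fun r => (r.i, r.m, r.k, r.o)) ?_
      intro a b h
      simp only [Prod.mk.injEq] at h
      exact Reg.ext h.1 h.2.1 h.2.2.1 h.2.2.2
    infer_instance
  refine ⟨Nat.card (P.Lb × Reg A5 P.Lb) + 1, fun k hk => ?_⟩
  set a := Nat.card (P.Lb × Reg A5 P.Lb) with ha
  have hne : Nonempty (Fin (k - a)) := ⟨⟨0, by omega⟩⟩
  have ecard : Nat.card (P.Al (Fin (k - a))) = Nat.card (Fin k) := by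
    rw [Nat.card_sum, Nat.card_eq_fintype_card (α := Fin (k-a)), Fintype.card_fin, 
      Nat.card_eq_fintype_card (α := Fin k), Fintype.card_fin]
    omega
  have e : P.Al (Fin (k - a)) ≃ Fin k := Classical.choice (Finite.card_eq.mp ecard)
  -- conjugation
  let E : (ℕ → P.Al (Fin (k - a))) ≃ (ℕ → Fin k) := Equiv.arrowCongr (Equiv.refl ℕ) e
  let Φ : Equiv.Perm (ℕ → P.Al (Fin (k - a))) ≃* Equiv.Perm (ℕ → Fin k) := E.permCongrHom
  have hΦ : ∀ (h : Equiv.Perm (ℕ → P.Al (Fin (k - a)))) (x : ℕ → Fin k) (n : ℕ), 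
      Φ h x n = e (h (fun i => e.symm (x i)) n) := fun h x n => rfl
  let gg : Cg → Equiv.Perm (ℕ → Fin k) := fun g => Φ (P.gZ (Fin (k - a)) g)
  have hwm : ∀ w : List (Cg × Bool), wmap gg w = Φ (wmap (P.gZ (Fin (k - a))) w) := by
    intro w
    induction w with
    | nil => exact (map_one Φ).symm
    | cons b w ih => 
      rw [wmap_cons, wmap_cons, ih, map_mul]
      congr 1
      obtain ⟨g, b⟩ := b
      cases b
      · simp only [sg_false, map_inv]; rfl
      · simp only [sg_true]; rfl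
  refine ⟨Finset.univ.image gg, gg 2, Finset.mem_image_of_mem _ (Finset.mem_univ _), ?_, ?_, ?_⟩
  · intro h hh
    obtain ⟨g, -, rfl⟩ := Finset.mem_image.mp hh
    refine ⟨?_, ?_⟩
    · apply continuous_of_range
      intro n
      obtain ⟨m, hm⟩ := P.gZ_range (Z := Fin (k - a)) g n
      refine ⟨m, fun x y hxy => ?_⟩
      change e (P.gZ (Fin (k - a)) g (fun i => e.symm (x i)) n) = e (P.gZ (Fin (k - a)) g (fun i => e.symm (y i)) n)
      rw [hm (fun i => e.symm (x i)) (fun i => e.symm (y i)) (fun i hi => by rw [hxy i hi])]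
    · intro x
      funext n
      change e (P.gZ (Fin (k - a)) g (fun i => e.symm (x (i+1))) n) = 
        e (P.gZ (Fin (k - a)) g (fun i => e.symm (x i)) (n+1))
      congr 1
      exact congrFun (P.gZ_shift g (fun i => e.symm (x i))) n
  · intro hfo
    rw [isOfFinOrder_iff_pow_eq_one] at hfo
    obtain ⟨m, hm, h⟩ := hfo
    have h1 : gg 2 ^ m = Φ ((P.gZ (Fin (k - a)) 2) ^ m) := (map_pow Φ _ _).symm
    rw [h1, ← map_one Φ] at h
    exact P.gZ_pow_ne m hm (Φ.injective h)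
  · obtain ⟨α, hα0, hα1, A, hA, hpow⟩ := P.power_bound hP
    refine ⟨α, hα0, hα1, A, hA, fun n => ?_⟩
    obtain ⟨w, hw, hwf⟩ := hpow n
    refine ⟨w.map (fun b => sg b.2 (gg b.1)), by rwa [List.length_map], ?_, ?_⟩
    · intro h hh
      rw [List.mem_map] at hh
      obtain ⟨⟨g, b⟩, -, rfl⟩ := hh
      cases b
      · right
        simp only [sg_false, inv_inv]
        exact Finset.mem_image_of_mem _ (Finset.mem_univ _)
      · left
        exact Finset.mem_image_of_mem _ (Finset.mem_univ _)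
    · change wmap gg w = _
      rw [hwm, P.wmap_gZ]
      have h1 : gg 2 ^ n = Φ ((P.gZ (Fin (k - a)) 2) ^ n) := (map_pow Φ _ _).symm
      rw [h1]
      congr 1
      have h2 : (P.gZ (Fin (k - a)) 2) ^ n = P.lfHom (⟨P.sE 2, P.sE_mem_BP 2⟩ ^ n) := by rw [map_pow]; rfl
      rw [h2]
      congr 1
      apply Subtype.ext
      exact hwf

end Pool.H12FS
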